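import Pool.Agent.Helper383.TY.TD

set_option autoImplicit false

open MeasureTheory Complex Set Filter Topology

namespace Pool.Agent.Helper118.Yud


namespace JT1a

theorem _root_.Pool.Agent.Helper118.Yud.Hom.add {d : ℕ} {F G : ℝ → ℝ → TP} (hF : Hom d F) (hG : Hom d G) :
    Hom d (fun s t => F s t + G s t) := by
  obtain ⟨a, ha⟩ := hF
  obtain ⟨b, hb⟩ := hG
  refine ⟨fun j => a j + b j, fun s t => ?_⟩
  beta_reduce
  rw [ha, hb, ← Finset.sum_add_distrib]
  refine Finset.sum_congr rfl fun j _ => ?_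
  rw [smul_add]

theorem _root_.Pool.Agent.Helper118.Yud.Hom.smul {d : ℕ} {F : ℝ → ℝ → TP} (c : ℂ) (hF : Hom d F) :
    Hom d (fun s t => c • F s t) := by
  obtain ⟨a, ha⟩ := hF
  refine ⟨fun j => c • a j, fun s t => ?_⟩
  beta_reduce
  rw [ha, Finset.smul_sum]
  refine Finset.sum_congr rfl fun j _ => ?_
  rw [smul_comm]

theorem _root_.Pool.Agent.Helper118.Yud.Hom.neg {d : ℕ} {F : ℝ → ℝ → TP} (hF : Hom d F) :
    Hom d (fun s t => -F s t) := by
  have h := Hom.smul (-1) hF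
  simpa using h

theorem _root_.Pool.Agent.Helper118.Yud.Hom.sum {d : ℕ} {ι : Type*} (s : Finset ι) (F : ι → ℝ → ℝ → TP) (h : ∀ i ∈ s, Hom d (F i)) :
    Hom d (fun x y => ∑ i ∈ s, F i x y) := by
  classical
  induction s using Finset.induction_on with
  | empty =>
    refine ⟨fun _ => 0, fun x y => ?_⟩
    simp
  | insert i s hi ih =>
    have h1 := ih (fun j hj => h j (Finset.mem_insert_of_mem hj))
    have h2 := Hom.add (h i (Finset.mem_insert_self i s)) h1
    simpa only [Finset.sum_insert hi] using h2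

theorem _root_.Pool.Agent.Helper118.Yud.Hom.mult_coeff (m : ℤ × ℤ → ℂ) (f : TP) (k : ℤ × ℤ) :
    (mult m f).coeff k = m k * f.coeff k := rfl

theorem _root_.Pool.Agent.Helper118.Yud.Hom.mult_add (m : ℤ × ℤ → ℂ) (f g : TP) : Yud.mult m (f + g) = Yud.mult m f + Yud.mult m g := by
  ext k
  rw [AddMonoidAlgebra.coeff_add, Finsupp.add_apply, Hom.mult_coeff, Hom.mult_coeff, Hom.mult_coeff,
    AddMonoidAlgebra.coeff_add, Finsupp.add_apply, mul_add]

theorem _root_.Pool.Agent.Helper118.Yud.Hom.mult_smul (m : ℤ × ℤ → ℂ) (c : ℂ) (f : TP) : Yud.mult m (c • f) = c • Yud.mult m f := by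
  ext k
  rw [AddMonoidAlgebra.coeff_smul, Finsupp.smul_apply, Hom.mult_coeff, Hom.mult_coeff,
    AddMonoidAlgebra.coeff_smul, Finsupp.smul_apply, smul_eq_mul, smul_eq_mul]
  ring

theorem _root_.Pool.Agent.Helper118.Yud.Hom.mult_zero (m : ℤ × ℤ → ℂ) : Yud.mult m (0 : TP) = 0 := by
  have h := Hom.mult_smul m 0 0
  simpa using h

theorem _root_.Pool.Agent.Helper118.Yud.Hom.mult_sum (m : ℤ × ℤ → ℂ) {ι : Type*} (s : Finset ι) (F : ι → TP) :
    Yud.mult m (∑ i ∈ s, F i) = ∑ i ∈ s, Yud.mult m (F i) := by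
  classical
  induction s using Finset.induction_on with
  | empty => simp [Hom.mult_zero]
  | insert i s hi ih => rw [Finset.sum_insert hi, Finset.sum_insert hi, Hom.mult_add, ih]

theorem _root_.Pool.Agent.Helper118.Yud.Hom.mult {d : ℕ} {F : ℝ → ℝ → TP} (m : ℤ × ℤ → ℂ) (hF : Hom d F) :
    Hom d (fun s t => mult m (F s t)) := by
  obtain ⟨a, ha⟩ := hF
  refine ⟨fun j => Yud.mult m (a j), fun s t => ?_⟩
  beta_reduce
  rw [ha, Hom.mult_sum]
  refine Finset.sum_congr rfl fun j _ => ?_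
  rw [Hom.mult_smul]

theorem _root_.Pool.Agent.Helper118.Yud.Hom.mul {d e : ℕ} {F G : ℝ → ℝ → TP} (hF : Hom d F) (hG : Hom e G) :
    Hom (d + e) (fun s t => F s t * G s t) := by
  classical
  obtain ⟨a, ha⟩ := hF
  obtain ⟨b, hb⟩ := hG
  refine ⟨fun n => ∑ p ∈ (Finset.range (d + 1) ×ˢ Finset.range (e + 1)).filter
    (fun p => p.1 + p.2 = n), a p.1 * b p.2, fun s t => ?_⟩
  have hmaps : ∀ p ∈ Finset.range (d + 1) ×ˢ Finset.range (e + 1),
      p.1 + p.2 ∈ Finset.range (d + e + 1) := by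
    intro p hp
    rw [Finset.mem_product, Finset.mem_range, Finset.mem_range] at hp
    rw [Finset.mem_range]
    omega
  have h1 := Finset.sum_fiberwise_of_maps_to hmaps
    (fun p => ((s : ℂ) ^ (d + e - (p.1 + p.2)) * (t : ℂ) ^ (p.1 + p.2)) • (a p.1 * b p.2))
  have h2 : ∑ n ∈ Finset.range (d + e + 1), ((s : ℂ) ^ (d + e - n) * (t : ℂ) ^ n) •
      (∑ p ∈ (Finset.range (d + 1) ×ˢ Finset.range (e + 1)).filter
        (fun p => p.1 + p.2 = n), a p.1 * b p.2) =
      ∑ p ∈ Finset.range (d + 1) ×ˢ Finset.range (e + 1),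
        ((s : ℂ) ^ (d + e - (p.1 + p.2)) * (t : ℂ) ^ (p.1 + p.2)) • (a p.1 * b p.2) := by
    rw [← h1]
    refine Finset.sum_congr rfl fun n _ => ?_
    rw [Finset.smul_sum]
    refine Finset.sum_congr rfl fun p hp => ?_
    rw [(Finset.mem_filter.1 hp).2]
  beta_reduce
  rw [ha, hb, h2, Finset.sum_mul_sum, Finset.sum_product]
  refine Finset.sum_congr rfl fun i hi => ?_
  refine Finset.sum_congr rfl fun j hj => ?_
  rw [smul_mul_smul_comm]
  congr 1
  rw [Finset.mem_range] at hi hj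
  have e1 : d + e - (i + j) = (d - i) + (e - j) := by omega
  rw [e1, pow_add, pow_add]
  ring

theorem _root_.Pool.Agent.Helper118.Yud.Hom.lin (p φ : TP) : Hom 1 (fun s t => (s : ℂ) • p + (t : ℂ) • φ) := by
  refine ⟨fun j => if j = 0 then p else φ, fun s t => ?_⟩
  simp [Finset.sum_range_succ]

end JT1a

end Pool.Agent.Helper118.Yud
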