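import Pool.Agent.Helper383.TY.TD
import Pool.Agent.Helper383.TY.T1a

set_option autoImplicit false

open MeasureTheory Complex Set Filter Topology

namespace Pool.Agent.Helper118.Yud


namespace JT1b

theorem _root_.Pool.Agent.Helper118.Yud.Hom.congr_deg {d e : ℕ} {F : ℝ → ℝ → TP} (h : d = e) (hF : Hom d F) : Hom e F := h ▸ hF

theorem _root_.Pool.Agent.Helper118.Yud.Hom.tr' {d e : ℕ} {F G : ℝ → ℝ → TP} (hF : Hom d F) (hG : Hom e G) :
    Hom (d + e) (fun s t => tr (F s t) (G s t)) := by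
  unfold tr
  exact ((hF.mult _).mul (hG.mult _)).add ((hF.mult _).mul (hG.mult _))

theorem Sf_zero' (f : TP) : Sf f 0 = f := by
  rw [Sf]

theorem Sf_succ' (f : TP) (l : ℕ) : Sf f (l + 1) =
    -((1 / ((l : ℂ) + 1)) • ∑ i : Fin (l + 1), tr (Sf f i) (Sf f (l - i))) := by
  rw [Sf]

theorem _root_.Pool.Agent.Helper118.Yud.Hom.Sf (p φ : TP) (l : ℕ) :
    Hom (l + 1) (fun s t => Sf ((s : ℂ) • p + (t : ℂ) • φ) l) := by
  induction l using Nat.strong_induction_on with
  | _ l ih =>
    cases l with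
    | zero =>
      simp only [Sf_zero']
      exact Hom.lin p φ
    | succ l =>
      simp only [Sf_succ']
      refine Hom.neg (Hom.smul _ (Hom.sum _ (fun (i : Fin (l + 1)) s t => tr
        (Yud.Sf ((s : ℂ) • p + (t : ℂ) • φ) i) (Yud.Sf ((s : ℂ) • p + (t : ℂ) • φ) (l - i))) ?_))
      intro i _
      have hi : (i : ℕ) < l + 1 := i.2
      have h1 := ih (i : ℕ) (by omega)
      have h2 := ih (l - i) (by omega)
      exact Hom.congr_deg (by omega) (Hom.tr' h1 h2)

theorem _root_.Pool.Agent.Helper118.Yud.Hom.Gf (p φ : TP) (m k l : ℕ) (h : l + k ≤ m) :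
    Hom (k + l + 1) (fun s t => Gf (tc m ((s : ℂ) • p + (t : ℂ) • φ)) k l) := by
  induction k generalizing l with
  | zero =>
    have h1 : ∀ f : TP, Yud.Gf (tc m f) 0 l = Uv (Yud.Sf f l) := by
      intro f
      show Uv (tc m f l) = _
      unfold tc
      rw [if_pos (by omega)]
    simp only [h1]
    unfold Uv
    exact Hom.congr_deg (by omega) ((Hom.Sf p φ l).mult _)
  | succ k ih =>
    have h1 : ∀ f : TP, Yud.Gf (tc m f) (k + 1) l = ((l : ℂ) + 1) • Yud.Gf (tc m f) k (l + 1)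
      + ∑ i ∈ Finset.range (l + 1), tr (tc m f i) (Yud.Gf (tc m f) k (l - i)) := fun f => rfl
    simp only [h1]
    refine Hom.add (Hom.smul _ (Hom.congr_deg (by omega) (ih (l + 1) (by omega)))) ?_
    refine Hom.sum _ (fun (i : ℕ) s t => tr (tc m ((s : ℂ) • p + (t : ℂ) • φ) i)
      (Yud.Gf (tc m ((s : ℂ) • p + (t : ℂ) • φ)) k (l - i))) ?_
    intro i hi
    have hi' : i < l + 1 := Finset.mem_range.mp hi
    have h2 : ∀ f : TP, tc m f i = Yud.Sf f i := by
      intro f
      unfold tc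
      rw [if_pos (by omega)]
    simp only [h2]
    have h3 := Hom.Sf p φ i
    have h4 := ih (l - i) (by omega)
    exact Hom.congr_deg (by omega) (Hom.tr' h3 h4)

end JT1b

end Pool.Agent.Helper118.Yud
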