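import Pool.Agent.Helper383.TY.TD

set_option autoImplicit false

open MeasureTheory Complex Set Filter Topology

namespace Pool.Agent.Helper118.Yud


namespace JT2a

theorem ek_add (k l : ℤ × ℤ) (x : T2) : ek (k + l) x = ek k x * ek l x := by
  unfold ek
  rw [Prod.fst_add, Prod.snd_add, fourier_add, fourier_add]
  ring

theorem fourier_sub_arg' (n : ℤ) (x y : UnitAddCircle) :
    (fourier n (x - y) : ℂ) = fourier n x * fourier (-n) y := by
  have h : n • (x - y) = n • x + (-n) • y := by
    rw [zsmul_sub, neg_zsmul, sub_eq_add_neg]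
  rw [fourier_apply, fourier_apply, fourier_apply, h, AddCircle.toCircle_add, Circle.coe_mul]

theorem ek_sub_arg (k : ℤ × ℤ) (x y : T2) : ek k (x - y) = ek k x * ek (-k) y := by
  unfold ek
  rw [Prod.fst_sub, Prod.snd_sub, fourier_sub_arg', fourier_sub_arg', Prod.fst_neg, Prod.snd_neg]
  ring

theorem ek_conj (k : ℤ × ℤ) (x : T2) : (starRingEnd ℂ) (ek k x) = ek (-k) x := by
  unfold ek
  rw [map_mul, Prod.fst_neg, Prod.snd_neg, fourier_neg, fourier_neg]

theorem continuous_ek (k : ℤ × ℤ) : Continuous (ek k) := by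
  unfold ek
  exact ((fourier k.1).continuous.comp continuous_fst).mul
    ((fourier k.2).continuous.comp continuous_snd)

theorem ev_zero (x : T2) : ev 0 x = 0 := by
  unfold ev
  simp

theorem ev_add (f g : TP) (x : T2) : ev (f + g) x = ev f x + ev g x := by
  unfold ev
  rw [AddMonoidAlgebra.coeff_add]
  exact Finsupp.sum_add_index' (fun k => by simp) (fun k a b => by ring)

theorem ev_single (k : ℤ × ℤ) (a : ℂ) (x : T2) :
    ev (AddMonoidAlgebra.single k a) x = a * ek k x := by
  unfold ev
  rw [AddMonoidAlgebra.coeff_single, Finsupp.sum_single_index (by simp)]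

theorem ev_smul (c : ℂ) (f : TP) (x : T2) : ev (c • f) x = c * ev f x := by
  unfold ev
  rw [AddMonoidAlgebra.coeff_smul, Finsupp.sum_smul_index' (fun k => by simp), Finsupp.mul_sum]
  refine Finset.sum_congr rfl fun k _ => ?_
  simp only [smul_eq_mul]
  ring

theorem ev_neg (f : TP) (x : T2) : ev (-f) x = - ev f x := by
  have h := ev_add f (-f) x
  rw [add_neg_cancel, ev_zero] at h
  exact (neg_eq_of_add_eq_zero_right h.symm).symm

theorem ev_sum {ι : Type*} (s : Finset ι) (f : ι → TP) (x : T2) :
    ev (∑ i ∈ s, f i) x = ∑ i ∈ s, ev (f i) x := by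
  classical
  induction s using Finset.induction_on with
  | empty => simp [ev_zero]
  | insert a s ha ih => rw [Finset.sum_insert ha, Finset.sum_insert ha, ev_add, ih]

theorem ev_mul (f g : TP) (x : T2) : ev (f * g) x = ev f x * ev g x := by
  induction f using AddMonoidAlgebra.induction_linear with
  | zero => rw [zero_mul, ev_zero, zero_mul]
  | add f1 f2 h1 h2 => rw [add_mul, ev_add, ev_add, h1, h2, add_mul]
  | single k a =>
    induction g using AddMonoidAlgebra.induction_linear with
    | zero => rw [mul_zero, ev_zero, mul_zero]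
    | add g1 g2 h1 h2 => rw [mul_add, ev_add, ev_add, h1, h2, mul_add]
    | single l b =>
      rw [AddMonoidAlgebra.single_mul_single, ev_single, ev_single, ev_single, ek_add]
      ring

theorem continuous_ev (f : TP) : Continuous (ev f) := by
  unfold ev Finsupp.sum
  exact continuous_finset_sum _ fun k _ => continuous_const.mul (continuous_ek k)

theorem ev_bdd (f : TP) : ∃ B : ℝ, 0 ≤ B ∧ ∀ x, ‖ev f x‖ ≤ B := by
  obtain ⟨C, hC⟩ := (isCompact_univ (X := T2)).exists_bound_of_continuousOn
    (continuous_ev f).continuousOn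
  exact ⟨max C 0, le_max_right _ _, fun x => (hC x (mem_univ x)).trans (le_max_left _ _)⟩

theorem coeff_mult (m : ℤ × ℤ → ℂ) (f : TP) (k : ℤ × ℤ) :
    (mult m f).coeff k = m k * f.coeff k := rfl

theorem mult_add (m : ℤ × ℤ → ℂ) (f g : TP) : mult m (f + g) = mult m f + mult m g := by
  ext k
  rw [coeff_mult, AddMonoidAlgebra.coeff_add, AddMonoidAlgebra.coeff_add, Finsupp.add_apply,
    Finsupp.add_apply, coeff_mult, coeff_mult]
  ring

theorem mult_smul (m : ℤ × ℤ → ℂ) (c : ℂ) (f : TP) : mult m (c • f) = c • mult m f := by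
  ext k
  rw [coeff_mult, AddMonoidAlgebra.coeff_smul, AddMonoidAlgebra.coeff_smul, Finsupp.smul_apply,
    Finsupp.smul_apply, coeff_mult, smul_eq_mul, smul_eq_mul]
  ring

theorem mult_zero' (m : ℤ × ℤ → ℂ) : mult m 0 = 0 := by
  ext k
  rw [coeff_mult]
  simp

theorem mult_sum {ι : Type*} (m : ℤ × ℤ → ℂ) (s : Finset ι) (f : ι → TP) :
    mult m (∑ i ∈ s, f i) = ∑ i ∈ s, mult m (f i) := by
  classical
  induction s using Finset.induction_on with
  | empty => simp [mult_zero']
  | insert a s ha ih => rw [Finset.sum_insert ha, Finset.sum_insert ha, mult_add, ih]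

theorem ev_mult (m : ℤ × ℤ → ℂ) (f : TP) (x : T2) :
    ev (mult m f) x = f.coeff.sum fun k a => m k * a * ek k x := by
  unfold ev mult
  rw [AddMonoidAlgebra.coeff_ofCoeff, Finsupp.onFinset_sum _ (fun k => by simp)]
  rfl

/-- real trigonometric polynomials have symmetric coefficients -/
theorem _root_.Pool.Agent.Helper118.Yud.IsTrig.exists_ev (p : T2 → ℝ) (hp : IsTrig p) :
    ∃ f : TP, IsR f ∧ ∀ x, (p x : ℂ) = ev f x := by
  classical
  obtain ⟨c, hc⟩ := hp
  let g : TP := AddMonoidAlgebra.ofCoeff c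
  let gs : TP := AddMonoidAlgebra.ofCoeff (Finsupp.onFinset (c.support.image (fun k => -k))
    (fun k => (starRingEnd ℂ) (c (-k))) (by
      intro k hk
      rw [Finset.mem_image]
      refine ⟨-k, ?_, by simp⟩
      rw [Finsupp.mem_support_iff]
      intro h
      exact hk (by rw [h, map_zero])))
  have hg : ∀ k, g.coeff k = c k := fun k => rfl
  have hgs : ∀ k, gs.coeff k = (starRingEnd ℂ) (c (-k)) := fun k => rfl
  have hev : ∀ x, ev g x = (p x : ℂ) := fun x => (hc x).symm
  have hevs : ∀ x, ev gs x = (p x : ℂ) := by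
    intro x
    have h1 : ev gs x = (starRingEnd ℂ) (ev g x) := by
      unfold ev
      simp only [gs, g, AddMonoidAlgebra.coeff_ofCoeff]
      rw [Finsupp.onFinset_sum _ (fun k => by simp), Finsupp.sum, map_sum,
        Finset.sum_image (fun a _ b _ h => neg_injective h)]
      refine Finset.sum_congr rfl fun k _ => ?_
      rw [map_mul, ek_conj, neg_neg]
    rw [h1, hev, Complex.conj_ofReal]
  refine ⟨(1/2 : ℂ) • (g + gs), ?_, ?_⟩
  · intro k
    rw [AddMonoidAlgebra.coeff_smul, AddMonoidAlgebra.coeff_add, Finsupp.smul_apply,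
      Finsupp.smul_apply, Finsupp.add_apply, Finsupp.add_apply, hg, hg, hgs, hgs, neg_neg,
      smul_eq_mul, smul_eq_mul, map_mul, map_add, Complex.conj_conj]
    have : (starRingEnd ℂ) (1/2 : ℂ) = 1/2 := by
      rw [map_div₀, map_one, map_ofNat]
    rw [this]
    ring
  · intro x
    rw [ev_smul, ev_add, hev, hevs]
    ring

end JT2a

end Pool.Agent.Helper118.Yud
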