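import Pool.Agent.Helper383.TY.TD
import Pool.Agent.Helper383.TY.T2a

set_option autoImplicit false

open MeasureTheory Complex Set Filter Topology

namespace Pool.Agent.Helper118.Yud

open JT2a (ek_add ek_sub_arg ek_conj continuous_ek ev_zero ev_add ev_neg ev_smul ev_sum ev_mul continuous_ev ev_bdd mult_add mult_smul mult_sum ev_mult)

namespace JT2b

/-- conjugation of the coefficients -/
noncomputable def hT2b_cj : TP →+* TP :=
  ((AddMonoidAlgebra.mapDomainRingEquiv ℂ (AddEquiv.neg (ℤ × ℤ))).toRingHom).comp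
    (AddMonoidAlgebra.mapRingHom (ℤ × ℤ) (starRingEnd ℂ))

theorem hT2b_coeff (f : TP) (k : ℤ × ℤ) :
    (hT2b_cj f).coeff k = (starRingEnd ℂ) (f.coeff (-k)) := by
  unfold hT2b_cj
  rw [RingHom.comp_apply]
  show (AddMonoidAlgebra.mapDomainRingEquiv ℂ (AddEquiv.neg (ℤ × ℤ))
    (AddMonoidAlgebra.mapRingHom (ℤ × ℤ) (starRingEnd ℂ) f)).coeff k = _
  rw [AddMonoidAlgebra.coeff_mapDomainRingEquiv, Finsupp.equivMapDomain_apply,
    AddMonoidAlgebra.coeff_mapRingHom]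
  rfl

theorem hT2b_ext {f g : TP} (h : ∀ k, f.coeff k = g.coeff k) : f = g := by
  ext k; exact h k

theorem hT2b_iff (f : TP) : IsR f ↔ hT2b_cj f = f := by
  constructor
  · intro h
    apply hT2b_ext
    intro k
    rw [hT2b_coeff, h k, Complex.conj_conj]
  · intro h k
    have := hT2b_coeff f k
    rw [h] at this
    rw [this, Complex.conj_conj]

theorem hT2b_smul (c : ℂ) (f : TP) :
    hT2b_cj (c • f) = (starRingEnd ℂ) c • hT2b_cj f := by
  apply hT2b_ext
  intro k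
  rw [hT2b_coeff, AddMonoidAlgebra.coeff_smul_apply, AddMonoidAlgebra.coeff_smul_apply,
    hT2b_coeff, smul_eq_mul, smul_eq_mul, map_mul]

theorem hT2b_ev (f : TP) (x : T2) : ev (hT2b_cj f) x = (starRingEnd ℂ) (ev f x) := by
  classical
  set S : Finset (ℤ × ℤ) := f.coeff.support ∪ f.coeff.support.image (fun k => -k) with hS
  have hSneg : ∀ k, k ∈ S → -k ∈ S := by
    intro k hk
    rw [hS, Finset.mem_union, Finset.mem_image] at hk ⊢
    rcases hk with hk | ⟨l, hl, rfl⟩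
    · exact Or.inr ⟨k, hk, rfl⟩
    · left; rwa [neg_neg]
  have e1 : ev f x = ∑ k ∈ S, f.coeff k * ek k x :=
    Finsupp.sum_of_support_subset _ Finset.subset_union_left _ (by simp)
  have e2 : ev (hT2b_cj f) x = ∑ k ∈ S, (hT2b_cj f).coeff k * ek k x := by
    refine Finsupp.sum_of_support_subset _ ?_ _ (by simp)
    intro k hk
    rw [Finsupp.mem_support_iff, hT2b_coeff] at hk
    have hk' : f.coeff (-k) ≠ 0 := fun h => hk (by rw [h, map_zero])
    rw [hS, Finset.mem_union, Finset.mem_image]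
    exact Or.inr ⟨-k, Finsupp.mem_support_iff.2 hk', neg_neg k⟩
  rw [e1, e2, map_sum]
  refine Finset.sum_nbij' (fun k => -k) (fun k => -k) (fun k hk => hSneg k hk)
    (fun k hk => hSneg k hk) (fun k _ => neg_neg k) (fun k _ => neg_neg k) ?_
  intro k _
  rw [hT2b_coeff, map_mul, ek_conj, neg_neg]

theorem hT2b_mult_coeff (m : ℤ × ℤ → ℂ) (f : TP) (k : ℤ × ℤ) :
    (mult m f).coeff k = m k * f.coeff k := rfl

theorem hT2b_mult (m : ℤ × ℤ → ℂ) (f : TP) :
    hT2b_cj (mult m f) = mult (fun k => (starRingEnd ℂ) (m (-k))) (hT2b_cj f) := by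
  apply hT2b_ext
  intro k
  rw [hT2b_coeff, hT2b_mult_coeff, hT2b_mult_coeff, hT2b_coeff, map_mul]

theorem hT2b_Uv (f : TP) : hT2b_cj (Uv f) = Vv (hT2b_cj f) := by
  unfold Uv Vv
  rw [hT2b_mult]
  congr 1
  funext k
  by_cases hk : k = 0
  · simp [hk]
  · have hk' : -k ≠ 0 := neg_ne_zero.2 hk
    rw [if_neg hk, if_neg hk']
    simp only [Prod.fst_neg, Prod.snd_neg, map_div₀, map_one, map_mul, map_sub, Complex.conj_I,
      Complex.conj_ofReal, map_ofNat, map_intCast, Int.cast_neg, map_neg]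
    rw [show (2 * (Real.pi : ℂ) * (-(k.1 : ℂ) - -(k.2 : ℂ) * -I)) =
      -(2 * (Real.pi : ℂ) * ((k.1 : ℂ) + (k.2 : ℂ) * I)) by ring, div_neg]

theorem hT2b_Vv (f : TP) : hT2b_cj (Vv f) = Uv (hT2b_cj f) := by
  unfold Uv Vv
  rw [hT2b_mult]
  congr 1
  funext k
  by_cases hk : k = 0
  · simp [hk]
  · have hk' : -k ≠ 0 := neg_ne_zero.2 hk
    rw [if_neg hk, if_neg hk']
    simp only [Prod.fst_neg, Prod.snd_neg, map_div₀, map_one, map_mul, map_add, Complex.conj_I,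
      Complex.conj_ofReal, map_ofNat, map_intCast, Int.cast_neg, map_neg]
    rw [show (2 * (Real.pi : ℂ) * (-(k.1 : ℂ) + -(k.2 : ℂ) * -I)) =
      -(2 * (Real.pi : ℂ) * ((k.1 : ℂ) - (k.2 : ℂ) * I)) by ring, div_neg, neg_neg]

theorem hT2b_Dz (f : TP) : hT2b_cj (Dz f) = Db (hT2b_cj f) := by
  unfold Dz Db
  rw [hT2b_mult]
  congr 1
  funext k
  simp only [Prod.fst_neg, Prod.snd_neg, map_mul, map_sub, Complex.conj_I,
      Complex.conj_ofReal, map_intCast, Int.cast_neg, map_neg]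
  ring

theorem hT2b_Db (f : TP) : hT2b_cj (Db f) = Dz (hT2b_cj f) := by
  unfold Dz Db
  rw [hT2b_mult]
  congr 1
  funext k
  simp only [Prod.fst_neg, Prod.snd_neg, map_mul, map_add, Complex.conj_I,
      Complex.conj_ofReal, map_intCast, Int.cast_neg, map_neg]
  ring

theorem hT2b_tr (f g : TP) : hT2b_cj (tr f g) = tr (hT2b_cj f) (hT2b_cj g) := by
  unfold tr
  rw [map_add, map_mul, map_mul, hT2b_Uv, hT2b_Vv, hT2b_Dz, hT2b_Db, add_comm]

theorem ev_conj (f : TP) (hf : IsR f) (x : T2) : (starRingEnd ℂ) (ev f x) = ev f x := by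
  rw [← hT2b_ev, (hT2b_iff f).1 hf]

theorem ev_Uv_conj (f : TP) (hf : IsR f) (x : T2) : (starRingEnd ℂ) (ev (Uv f) x) = ev (Vv f) x := by
  rw [← hT2b_ev, hT2b_Uv, (hT2b_iff f).1 hf]

theorem _root_.Pool.Agent.Helper118.Yud.IsR.add (f g : TP) (hf : IsR f) (hg : IsR g) : IsR (f + g) := by
  rw [hT2b_iff] at hf hg ⊢
  rw [map_add, hf, hg]

theorem _root_.Pool.Agent.Helper118.Yud.IsR.smul (c : ℝ) (f : TP) (hf : IsR f) : IsR ((c : ℂ) • f) := by
  rw [hT2b_iff] at hf ⊢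
  rw [hT2b_smul, hf, Complex.conj_ofReal]

theorem _root_.Pool.Agent.Helper118.Yud.IsR.tr (f g : TP) (hf : IsR f) (hg : IsR g) : IsR (tr f g) := by
  rw [hT2b_iff] at hf hg ⊢
  rw [hT2b_tr, hf, hg]

theorem _root_.Pool.Agent.Helper118.Yud.IsR.Sf (f : TP) (hf : IsR f) (l : ℕ) : IsR (Sf f l) := by
  rw [hT2b_iff] at hf
  induction l using Nat.strong_induction_on with
  | _ l ih =>
    rw [hT2b_iff]
    cases l with
    | zero =>
      rw [Yud.Sf]; exact hf
    | succ l =>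
      rw [Yud.Sf, map_neg, hT2b_smul, map_sum]
      congr 2
      · simp
      · apply Finset.sum_congr rfl
        intro i _
        rw [hT2b_tr, (hT2b_iff _).1 (ih i (by omega)), (hT2b_iff _).1 (ih (l - i) (by omega))]

theorem _root_.Pool.Agent.Helper118.Yud.IsR.Wt (m : ℕ) (f : TP) (hf : IsR f) (t : ℝ) : IsR (Wt m f t) := by
  rw [hT2b_iff]
  unfold Yud.Wt
  rw [map_sum]
  apply Finset.sum_congr rfl
  intro l _
  rw [hT2b_smul, (hT2b_iff _).1 (IsR.Sf f hf l), map_pow, Complex.conj_ofReal]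

theorem hT2b_ne (k : ℤ × ℤ) (hk : k ≠ 0) : (k.1 : ℂ) - (k.2 : ℂ) * I ≠ 0 ∧
    (k.1 : ℂ) + (k.2 : ℂ) * I ≠ 0 := by
  constructor
  · intro h
    apply hk
    have h1 := congrArg Complex.re h
    have h2 := congrArg Complex.im h
    simp at h1 h2
    exact Prod.ext h1 h2
  · intro h
    apply hk
    have h1 := congrArg Complex.re h
    have h2 := congrArg Complex.im h
    simp at h1 h2
    exact Prod.ext h1 h2

/-- the velocity is divergence free -/
theorem re_ev_Dz_Uv (f : TP) (hf : IsR f) (x : T2) : (ev (Dz (Uv f)) x).re = 0 := by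
  have hpi : (Real.pi : ℂ) ≠ 0 := by exact_mod_cast Real.pi_ne_zero
  have h1 : Db (Vv f) = -Dz (Uv f) := by
    apply hT2b_ext
    intro k
    have e : (-Dz (Uv f)).coeff k = -((Dz (Uv f)).coeff k) := rfl
    rw [e]
    unfold Db Dz Uv Vv
    rw [hT2b_mult_coeff, hT2b_mult_coeff, hT2b_mult_coeff, hT2b_mult_coeff]
    by_cases hk : k = 0
    · simp [hk]
    · obtain ⟨n1, n2⟩ := hT2b_ne k hk
      rw [if_neg hk, if_neg hk]
      generalize (k.1 : ℂ) - (k.2 : ℂ) * I = a at n1 ⊢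
      generalize (k.1 : ℂ) + (k.2 : ℂ) * I = b at n2 ⊢
      field_simp
  have h2 : (starRingEnd ℂ) (ev (Dz (Uv f)) x) = -ev (Dz (Uv f)) x := by
    rw [← hT2b_ev, hT2b_Dz, hT2b_Uv, (hT2b_iff f).1 hf, h1, ev_neg]
  have h3 := congrArg Complex.re h2
  rw [Complex.conj_re, Complex.neg_re] at h3
  linarith

end JT2b

end Pool.Agent.Helper118.Yud
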