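import Pool.Agent.Helper383.TY.TD
import Pool.Agent.Helper383.TY.T2a

set_option autoImplicit false

open MeasureTheory Complex Set Filter Topology

namespace Pool.Agent.Helper118.Yud

open JT2a (ek_add ek_sub_arg ek_conj continuous_ek ev_zero ev_add ev_neg ev_smul ev_sum ev_mul continuous_ev ev_bdd mult_add mult_smul mult_sum ev_mult)

namespace JT2c

theorem dfl_apply_aux (A B w : ℂ) : dfl A B w = A * w + B * (starRingEnd ℂ) w := by
  simp [dfl]

theorem fourier_add_arg_aux (n : ℤ) (x y : UnitAddCircle) :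
    (fourier n (x + y) : ℂ) = fourier n x * fourier n y := by
  rw [fourier_apply, fourier_apply, fourier_apply, smul_add, AddCircle.toCircle_add, Circle.coe_mul]

/-- the phase -/
noncomputable def phL (k : ℤ × ℤ) : ℂ →L[ℝ] ℂ :=
  (2 * (Real.pi : ℂ) * I * (k.1 : ℂ)) • (Complex.ofRealCLM.comp Complex.reCLM) +
    (2 * (Real.pi : ℂ) * I * (k.2 : ℂ)) • (Complex.ofRealCLM.comp Complex.imCLM)

theorem phL_apply (k : ℤ × ℤ) (w : ℂ) : phL k w =
    2 * (Real.pi : ℂ) * I * (k.1 : ℂ) * (w.re : ℂ) + 2 * (Real.pi : ℂ) * I * (k.2 : ℂ) * (w.im : ℂ) := by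
  simp [phL]

theorem ek_add_pr (k : ℤ × ℤ) (a : T2) (w : ℂ) :
    ek k (a + pr w) = ek k a * Complex.exp (phL k w) := by
  unfold ek pr
  rw [Prod.fst_add, Prod.snd_add, fourier_add_arg_aux, fourier_add_arg_aux]
  show fourier k.1 a.1 * fourier k.1 ((w.re : ℝ) : UnitAddCircle) *
    (fourier k.2 a.2 * fourier k.2 ((w.im : ℝ) : UnitAddCircle)) = _
  rw [fourier_coe_apply, fourier_coe_apply, phL_apply, Complex.exp_add]
  push_cast
  rw [div_one, div_one]
  ring

theorem hasFDerivAt_ek (k : ℤ × ℤ) (a : T2) (z : ℂ) :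
    HasFDerivAt (fun w : ℂ => ek k (a + pr w))
      (dfl ((Real.pi : ℂ) * I * ((k.1 : ℂ) - (k.2 : ℂ) * I) * ek k (a + pr z))
        ((Real.pi : ℂ) * I * ((k.1 : ℂ) + (k.2 : ℂ) * I) * ek k (a + pr z))) z := by
  have h1 : HasFDerivAt (fun w : ℂ => Complex.exp (phL k w)) (Complex.exp (phL k z) • phL k) z :=
    (phL k).hasFDerivAt.cexp
  have h2 := h1.const_mul (ek k a)
  have e : (fun w : ℂ => ek k (a + pr w)) = fun w => ek k a * Complex.exp (phL k w) :=
    funext (fun w => ek_add_pr k a w)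
  rw [e]
  have e2 : dfl ((Real.pi : ℂ) * I * ((k.1 : ℂ) - (k.2 : ℂ) * I) * ek k (a + pr z))
        ((Real.pi : ℂ) * I * ((k.1 : ℂ) + (k.2 : ℂ) * I) * ek k (a + pr z)) =
        ek k a • Complex.exp (phL k z) • phL k := by
    apply ContinuousLinearMap.ext
    intro h
    rw [dfl_apply_aux, ek_add_pr]
    show _ = ek k a * (Complex.exp (phL k z) * phL k h)
    rw [phL_apply k h]
    have hh : h = (h.re : ℂ) + (h.im : ℂ) * I := (Complex.re_add_im h).symm
    have hc : (starRingEnd ℂ) h = (h.re : ℂ) - (h.im : ℂ) * I := by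
      apply Complex.ext <;> simp
    rw [hc]
    have hI : I * I = -1 := Complex.I_mul_I
    calc _ = (ek k a * Complex.exp (phL k z)) * ((Real.pi : ℂ) * I *
          (((k.1 : ℂ) - (k.2 : ℂ) * I) * h +
          ((k.1 : ℂ) + (k.2 : ℂ) * I) * ((h.re : ℂ) - (h.im : ℂ) * I))) := by ring
      _ = (ek k a * Complex.exp (phL k z)) * ((Real.pi : ℂ) * I *
          (((k.1 : ℂ) - (k.2 : ℂ) * I) * ((h.re : ℂ) + (h.im : ℂ) * I) +
          ((k.1 : ℂ) + (k.2 : ℂ) * I) * ((h.re : ℂ) - (h.im : ℂ) * I))) := by rw [← hh]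
      _ = _ := by
        linear_combination (-2 * ek k a * Complex.exp (phL k z) * (Real.pi : ℂ) * I * (k.2 : ℂ) *
          (h.im : ℂ)) * hI
  rw [e2]
  exact h2

theorem hasFDerivAt_ev (f : TP) (a : T2) (z : ℂ) :
    HasFDerivAt (fun w : ℂ => ev f (a + pr w))
      (dfl (ev (Dz f) (a + pr z)) (ev (Db f) (a + pr z))) z := by
  have h1 : HasFDerivAt (fun w : ℂ => ∑ k ∈ f.coeff.support, f.coeff k * ek k (a + pr w))
      (∑ k ∈ f.coeff.support, f.coeff k •
        (dfl ((Real.pi : ℂ) * I * ((k.1 : ℂ) - (k.2 : ℂ) * I) * ek k (a + pr z))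
        ((Real.pi : ℂ) * I * ((k.1 : ℂ) + (k.2 : ℂ) * I) * ek k (a + pr z)))) z :=
    HasFDerivAt.fun_sum (fun k _ => (hasFDerivAt_ek k a z).const_mul (f.coeff k))
  have e : (∑ k ∈ f.coeff.support, f.coeff k •
        (dfl ((Real.pi : ℂ) * I * ((k.1 : ℂ) - (k.2 : ℂ) * I) * ek k (a + pr z))
        ((Real.pi : ℂ) * I * ((k.1 : ℂ) + (k.2 : ℂ) * I) * ek k (a + pr z)))) =
        dfl (ev (Dz f) (a + pr z)) (ev (Db f) (a + pr z)) := by
    apply ContinuousLinearMap.ext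
    intro h
    rw [dfl_apply_aux, Dz, Db, ev_mult, ev_mult, Finsupp.sum, Finsupp.sum, Finset.sum_mul,
      Finset.sum_mul, ← Finset.sum_add_distrib, _root_.sum_apply]
    apply Finset.sum_congr rfl
    intro k _
    show f.coeff k * (dfl _ _ h) = _
    rw [dfl_apply_aux]
    ring
  rw [e] at h1
  exact h1

theorem norm_dfl_le (A B : ℂ) : ‖dfl A B‖ ≤ ‖A‖ + ‖B‖ := by
  apply ContinuousLinearMap.opNorm_le_bound _ (add_nonneg (norm_nonneg _) (norm_nonneg _))
  intro w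
  rw [dfl_apply_aux, add_mul]
  refine (norm_add_le _ _).trans ?_
  rw [norm_mul, norm_mul, Complex.norm_conj]

theorem dfl_one (A B : ℂ) : dfl A B 1 = A + B := by
  rw [dfl_apply_aux]
  simp

theorem dfl_I (A B : ℂ) : dfl A B I = (A - B) * I := by
  rw [dfl_apply_aux, Complex.conj_I]
  ring

theorem dfl_apply (A B w : ℂ) : dfl A B w = A * w + B * (starRingEnd ℂ) w :=
  dfl_apply_aux A B w

end JT2c

end Pool.Agent.Helper118.Yud
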