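import Pool.Agent.Helper383.TY.TD
import Pool.Agent.Helper383.TY.T2a

set_option autoImplicit false

open MeasureTheory Complex Set Filter Topology

namespace Pool.Agent.Helper118.Yud

open JT2a (ek_add ek_sub_arg ek_conj continuous_ek ev_zero ev_add ev_neg ev_smul ev_sum ev_mul continuous_ev ev_bdd mult_add mult_smul mult_sum ev_mult)

namespace JT3

theorem T3_haar : (volume : Measure T2).IsAddHaarMeasure :=
  inferInstanceAs
    (((volume : Measure UnitAddCircle).prod (volume : Measure UnitAddCircle)).IsAddHaarMeasure)

theorem T3_neg : (volume : Measure T2).IsNegInvariant :=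
  have := T3_haar
  Measure.IsAddHaarMeasure.isNegInvariant_of_regular _

theorem T3_integrable_ev {K : T2 → ℂ} (hKi : Integrable K volume) (f : TP) (x : T2) :
    Integrable (fun y => ev f y * K (x - y)) volume := by
  obtain ⟨B, hB0, hB⟩ := ev_bdd f
  have := T3_haar
  have := T3_neg
  have h1 : Integrable (fun y => K (x - y)) volume := hKi.comp_sub_left x
  exact h1.bdd_mul (continuous_ev f).aestronglyMeasurable (Filter.Eventually.of_forall hB)

theorem T3_integrable_ek {K : T2 → ℂ} (hKi : Integrable K volume) (k : ℤ × ℤ) (x : T2) :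
    Integrable (fun y => ek k y * K (x - y)) volume := by
  have := T3_haar
  have := T3_neg
  have h1 : Integrable (fun y => K (x - y)) volume := hKi.comp_sub_left x
  refine h1.bdd_mul (c := 1) (continuous_ek k).aestronglyMeasurable (Filter.Eventually.of_forall ?_)
  intro y
  simp only [ek, norm_mul, fourier_apply]
  simp [Circle.norm_coe]

theorem T3_ek {K : T2 → ℂ} {C : ℝ} (hK : IsBS K C) (k : ℤ × ℤ) (x : T2) :
    ∫ y, ek k y * K (x - y) = (if k = 0 then 0 else
      1 / (2 * (Real.pi : ℂ) * ((k.1 : ℂ) - (k.2 : ℂ) * I))) * ek k x := by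
  have h1 : ∫ y, ek k y * K (x - y) = ∫ y, ek k (x - y) * K y := by
    have := T3_haar
    have := T3_neg
    have h := integral_sub_left_eq_self (fun y => ek k (x - y) * K y) (volume : Measure T2) x
    rw [← h]
    simp only [sub_sub_cancel]
  rw [h1]
  by_cases hk : k = 0
  · subst hk
    simp only [if_true, zero_mul]
    have : ∀ y, ek 0 (x - y) * K y = K y := by
      intro y
      simp [ek]
    simp only [this]
    exact hK.fc0
  · rw [if_neg hk, ← hK.fc k hk, ← integral_mul_const]
    congr 1
    funext y
    rw [ek_sub_arg]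
    ring

/-- Biot-Savart for trigonometric polynomials -/
theorem conv_ev {K : T2 → ℂ} {C : ℝ} (hK : IsBS K C) (hKi : Integrable K volume) (f : TP) (x : T2) :
    ∫ y, ev f y * K (x - y) = ev (Uv f) x := by
  have h1 : ∀ y, ev f y * K (x - y) = ∑ k ∈ f.coeff.support, f.coeff k * (ek k y * K (x - y)) := by
    intro y
    simp only [ev, Finsupp.sum, Finset.sum_mul]
    exact Finset.sum_congr rfl fun k _ => by ring
  simp only [h1]
  rw [integral_finsetSum _ (fun k _ => (T3_integrable_ek hKi k x).const_mul _)]
  simp only [integral_const_mul, T3_ek hK]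
  unfold Uv
  rw [ev_mult, Finsupp.sum]
  exact Finset.sum_congr rfl fun k _ => by ring

theorem conv_ev_mp {K : T2 → ℂ} {C : ℝ} (hK : IsBS K C) (hKi : Integrable K volume) (f : TP)
    (X : T2 → T2) (hX : MeasurePreserving X volume volume) (x : T2) :
    Integrable (fun b => ev f (X b) * K (x - X b)) volume ∧
    ∫ b, ev f (X b) * K (x - X b) = ev (Uv f) x := by
  have hg := T3_integrable_ev hKi f x
  refine ⟨?_, ?_⟩
  · have := (hX.integrable_comp (g := fun y => ev f y * K (x - y)) hg.aestronglyMeasurable).2 hg
    exact this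
  · rw [← conv_ev hK hKi f x]
    have h := integral_map (μ := (volume : Measure T2)) hX.measurable.aemeasurable
      (f := fun y => ev f y * K (x - y)) (by rw [hX.map_eq]; exact hg.aestronglyMeasurable)
    rw [hX.map_eq] at h
    exact h.symm

end JT3

end Pool.Agent.Helper118.Yud
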