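import Pool.Agent.Helper383.TY.TD
import Pool.Agent.Helper118.Yud.G4
import Pool.Agent.Helper118.Yud.L3
import Pool.Agent.Helper383.TY.T2a
import Pool.Agent.Helper383.TY.T2b
import Pool.Agent.Helper383.TY.T2c

set_option autoImplicit false

open MeasureTheory Complex Set Filter Topology

namespace Pool.Agent.Helper118.Yud

open JT2a (ek_add ek_sub_arg ek_conj continuous_ek ev_zero ev_add ev_neg ev_smul ev_sum ev_mul continuous_ev ev_bdd mult_add mult_smul mult_sum ev_mult)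
open JT2b (ev_conj ev_Uv_conj re_ev_Dz_Uv)
open JT2c (hasFDerivAt_ev norm_dfl_le dfl_one dfl_I dfl_apply)

namespace JT4a

theorem ev_mm_Wt (a b : ℤ × ℤ → ℂ) (m : ℕ) (f : TP) (t : ℝ) (x : T2) :
    ev (mult a (mult b (Wt m f t))) x =
      ∑ l ∈ Finset.range (m + 1), (t : ℂ) ^ l * ev (mult a (mult b (Sf f l))) x := by
  unfold Wt
  rw [mult_sum, mult_sum, ev_sum]
  refine Finset.sum_congr rfl fun l _ => ?_
  rw [mult_smul, mult_smul, ev_smul]

theorem ut_eq (m : ℕ) (f : TP) (t : ℝ) (x : T2) :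
    ut m f t x = ∑ l ∈ Finset.range (m + 1), (t : ℂ) ^ l * ev (Uv (Sf f l)) x := by
  unfold ut Wt Uv
  rw [mult_sum, ev_sum]
  refine Finset.sum_congr rfl fun l _ => ?_
  rw [mult_smul, ev_smul]

theorem ev_mm_Wt_bdd (a b : ℤ × ℤ → ℂ) (m : ℕ) (f : TP) :
    ∃ L : ℝ, 0 ≤ L ∧ ∀ t : ℝ, |t| ≤ 1 → ∀ x, ‖ev (mult a (mult b (Wt m f t))) x‖ ≤ L := by
  choose B hB0 hB using fun l => ev_bdd (mult a (mult b (Sf f l)))
  refine ⟨∑ l ∈ Finset.range (m + 1), B l, Finset.sum_nonneg fun l _ => hB0 l, fun t ht x => ?_⟩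
  rw [ev_mm_Wt]
  refine (norm_sum_le _ _).trans (Finset.sum_le_sum fun l _ => ?_)
  rw [norm_mul, norm_pow, Complex.norm_real, Real.norm_eq_abs]
  calc |t| ^ l * ‖ev (mult a (mult b (Sf f l))) x‖ ≤ 1 * B l := by
        apply mul_le_mul (pow_le_one₀ (abs_nonneg t) ht) (hB l x) (norm_nonneg _) zero_le_one
    _ = B l := one_mul _

theorem continuous_pr : Continuous pr := by
  unfold pr
  exact ((AddCircle.continuous_mk' 1).comp Complex.continuous_re).prodMk
    ((AddCircle.continuous_mk' 1).comp Complex.continuous_im)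

theorem continuous_dfl : Continuous (fun q : ℂ × ℂ => dfl q.1 q.2) := by
  unfold dfl
  fun_prop

/-- joint continuity of the velocity of the truncated series -/
theorem continuous_ut (m : ℕ) (f : TP) : Continuous (fun q : ℝ × T2 => ut m f q.1 q.2) := by
  simp only [ut_eq]
  refine continuous_finsetSum _ fun l _ => ?_
  exact ((Complex.continuous_ofReal.comp continuous_fst).pow l).mul
    ((continuous_ev _).comp continuous_snd)

/-- clamp -/
noncomputable def cl (t : ℝ) : ℝ := max (-1) (min t 1)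

theorem continuous_cl : Continuous cl := by
  unfold cl; fun_prop

theorem abs_cl_le (t : ℝ) : |cl t| ≤ 1 := by
  unfold cl
  rw [abs_le]
  constructor
  · exact le_max_left _ _
  · exact max_le (by norm_num) (min_le_right _ _)

theorem cl_eq {t : ℝ} (ht : |t| < 1) : cl t = t := by
  unfold cl
  rw [abs_lt] at ht
  rw [min_eq_left ht.2.le, max_eq_right ht.1.le]

/-- measure preserving flow of the truncated series on (-1,1) -/
theorem flow_ut (m : ℕ) (f : TP) (hf : IsR f) : ∃ η : ℝ → T2 → ℂ, Continuous (Function.uncurry η) ∧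
    (∀ a, η 0 a = 0) ∧ (∀ t, MeasurePreserving (mv (η t)) volume volume) ∧
    ∀ t, |t| < 1 → ∀ a, HasDerivAt (fun s => η s a) (ut m f t (mv (η t) a)) t := by
  set v : ℝ → T2 → ℂ := fun t x => ut m f (cl t) x with hv
  have hvc : Continuous (Function.uncurry v) := by
    have : Function.uncurry v = (fun q : ℝ × T2 => ut m f q.1 q.2) ∘
        (fun q : ℝ × T2 => (cl q.1, q.2)) := by
      funext q; rfl
    rw [this]
    exact (continuous_ut m f).comp ((continuous_cl.comp continuous_fst).prodMk continuous_snd)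
  have hder : ∀ t a z, HasFDerivAt (fun w : ℂ => v t (a + pr w))
      (dfl (ev (Dz (Uv (Wt m f (cl t)))) (a + pr z)) (ev (Db (Uv (Wt m f (cl t)))) (a + pr z))) z :=
    fun t a z => hasFDerivAt_ev (Uv (Wt m f (cl t))) a z
  obtain ⟨L1, hL10, hL1⟩ : ∃ L : ℝ, 0 ≤ L ∧ ∀ t : ℝ, |t| ≤ 1 → ∀ x, ‖ev (Dz (Uv (Wt m f t))) x‖ ≤ L :=
    ev_mm_Wt_bdd _ _ m f
  obtain ⟨L2, hL20, hL2⟩ : ∃ L : ℝ, 0 ≤ L ∧ ∀ t : ℝ, |t| ≤ 1 → ∀ x, ‖ev (Db (Uv (Wt m f t))) x‖ ≤ L :=
    ev_mm_Wt_bdd _ _ m f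
  have hbd : ∀ t x, ‖dfl (ev (Dz (Uv (Wt m f (cl t)))) x) (ev (Db (Uv (Wt m f (cl t)))) x)‖
      ≤ L1 + L2 := fun t x => (norm_dfl_le _ _).trans
      (add_le_add (hL1 _ (abs_cl_le t) x) (hL2 _ (abs_cl_le t) x))
  have hlip : ∀ t a, ∀ z w : ℂ, ‖v t (a + pr z) - v t (a + pr w)‖ ≤ (L1 + L2) * ‖z - w‖ := by
    intro t a z w
    exact Convex.norm_image_sub_le_of_norm_hasFDerivWithin_le
      (fun x _ => (hder t a x).hasFDerivWithinAt) (fun x _ => hbd t (a + pr x))
      convex_univ (Set.mem_univ w) (Set.mem_univ z)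
  obtain ⟨ξ, hξc, hξ0, hξ⟩ := exists_flow v hvc (L1 + L2) (add_nonneg hL10 hL20) hlip
  have hder0 : ∀ t z, HasFDerivAt (fun w : ℂ => v t (pr w))
      (dfl (ev (Dz (Uv (Wt m f (cl t)))) (pr z)) (ev (Db (Uv (Wt m f (cl t)))) (pr z))) z := by
    intro t z
    have := hder t 0 z
    simpa only [zero_add] using this
  have hfd : ∀ t, fderiv ℝ (fun w : ℂ => v t (pr w)) = fun z =>
      dfl (ev (Dz (Uv (Wt m f (cl t)))) (pr z)) (ev (Db (Uv (Wt m f (cl t)))) (pr z)) :=
    fun t => funext fun z => (hder0 t z).fderiv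
  refine ⟨ξ, hξc, hξ0, fun t => ?_, fun t ht a => ?_⟩
  · refine liouville v hvc (fun t => ?_) (L1 + L2) (fun t z => ?_) (fun t z => ?_) ξ hξc hξ0 hξ t
    · rw [contDiff_one_iff_fderiv]
      refine ⟨fun z => (hder0 t z).differentiableAt, ?_⟩
      rw [hfd]
      exact continuous_dfl.comp (((continuous_ev _).comp continuous_pr).prodMk
        ((continuous_ev _).comp continuous_pr))
    · rw [hfd]; exact hbd t (pr z)
    · rw [hfd]
      simp only [dfl_one, dfl_I]
      have h := re_ev_Dz_Uv (Wt m f (cl t)) (IsR.Wt m f hf (cl t)) (pr z)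
      simp only [Complex.add_re, Complex.mul_im, Complex.sub_re, Complex.sub_im, Complex.I_im,
        Complex.I_re]
      linarith
  · have h := hξ t a
    simp only [hv, cl_eq ht] at h
    exact h

end JT4a

end Pool.Agent.Helper118.Yud
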