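import Pool.Agent.Helper383.TY.TD
import Pool.Agent.Helper383.TY.T2a
import Pool.Agent.Helper383.TY.T2b
import Pool.Agent.Helper383.TY.T2c

set_option autoImplicit false

open MeasureTheory Complex Set Filter Topology

namespace Pool.Agent.Helper118.Yud

open JT2a (ek_add ek_sub_arg ek_conj continuous_ek ev_zero ev_add ev_neg ev_smul ev_sum ev_mul continuous_ev ev_bdd mult_add mult_smul mult_sum ev_mult)
open JT2b (ev_conj ev_Uv_conj re_ev_Dz_Uv)
open JT2c (hasFDerivAt_ev norm_dfl_le dfl_one dfl_I dfl_apply)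

namespace JT4p

/-- time derivative of a polynomial-in-time trigonometric polynomial along a path -/
theorem hasDerivAt_path (N : ℕ) (g : ℕ → TP) (w : TP) (hw : IsR w) (a : T2) (y : ℝ → ℂ) (t : ℝ)
    (hy : HasDerivAt y (ev (Uv w) (a + pr (y t))) t) :
    HasDerivAt (fun s : ℝ => ∑ l ∈ Finset.range N, (s : ℂ) ^ l * ev (g l) (a + pr (y s)))
      (∑ l ∈ Finset.range N, ((l : ℂ) * (t : ℂ) ^ (l - 1) * ev (g l) (a + pr (y t))
        + (t : ℂ) ^ l * ev (tr w (g l)) (a + pr (y t)))) t := by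
  refine HasDerivAt.fun_sum fun l _ => ?_
  have h1 : HasDerivAt (fun s : ℝ => (s : ℂ) ^ l) ((l : ℂ) * (t : ℂ) ^ (l - 1)) t := by
    have h := (hasDerivAt_pow l (t : ℂ)).comp_ofReal
    simpa using h
  have h2 : HasDerivAt (fun s : ℝ => ev (g l) (a + pr (y s)))
      (ev (tr w (g l)) (a + pr (y t))) t := by
    have h := (hasFDerivAt_ev (g l) a (y t)).comp_hasDerivAt t hy
    have e : dfl (ev (Dz (g l)) (a + pr (y t))) (ev (Db (g l)) (a + pr (y t)))
        (ev (Uv w) (a + pr (y t))) = ev (tr w (g l)) (a + pr (y t)) := by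
      rw [dfl_apply, ev_Uv_conj w hw, tr, ev_add, ev_mul, ev_mul]
      ring
    rw [e] at h
    exact h
  exact h1.mul h2

end JT4p

end Pool.Agent.Helper118.Yud
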