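import Pool.Agent.Helper383.TY.TD
import Pool.Agent.Helper383.TY.T2a
import Pool.Agent.Helper383.TY.T2b
import Pool.Agent.Helper383.TY.T2c
import Pool.Agent.Helper383.TY.T4p

set_option autoImplicit false

open MeasureTheory Complex Set Filter Topology

namespace Pool.Agent.Helper118.Yud

open JT2a (ek_add ek_sub_arg ek_conj continuous_ek ev_zero ev_add ev_neg ev_smul ev_sum ev_mul continuous_ev ev_bdd mult_add mult_smul mult_sum ev_mult)
open JT2b (ev_conj ev_Uv_conj re_ev_Dz_Uv)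
open JT2c (hasFDerivAt_ev norm_dfl_le dfl_one dfl_I dfl_apply)
open JT4p (hasDerivAt_path)

namespace JT4b

theorem tr_left_10381 {ι : Type*} (s : Finset ι) (c : ι → ℂ) (g : ι → TP) (h : TP) :
    tr (∑ i ∈ s, c i • g i) h = ∑ i ∈ s, c i • tr (g i) h := by
  unfold tr Uv Vv
  rw [mult_sum, mult_sum, Finset.sum_mul, Finset.sum_mul, ← Finset.sum_add_distrib]
  apply Finset.sum_congr rfl
  intro i _
  rw [mult_smul, mult_smul, smul_mul_assoc, smul_mul_assoc, smul_add]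

theorem ev_tr_Wt_10381 (m : ℕ) (f : TP) (t : ℝ) (l : ℕ) (x : T2) :
    ev (tr (Wt m f t) (Sf f l)) x =
      ∑ i ∈ Finset.range (m + 1), (t : ℂ) ^ i * ev (tr (Sf f i) (Sf f l)) x := by
  unfold Wt
  rw [tr_left_10381, ev_sum]
  apply Finset.sum_congr rfl
  intro i _
  rw [ev_smul]

theorem ev_Sf_succ_10381 (f : TP) (l : ℕ) (x : T2) :
    ((l : ℂ) + 1) * ev (Sf f (l + 1)) x =
      -∑ i ∈ Finset.range (l + 1), ev (tr (Sf f i) (Sf f (l - i))) x := by
  rw [Sf, ev_neg, ev_smul, ev_sum, Finset.sum_range]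
  have : ((l : ℂ) + 1) ≠ 0 := Nat.cast_add_one_ne_zero l
  field_simp

theorem residual_eq_10381 (m : ℕ) (f : TP) (t : ℝ) (x : T2) :
    ∑ l ∈ Finset.range (m + 1), ((l : ℂ) * (t : ℂ) ^ (l - 1) * ev (Sf f l) x
        + (t : ℂ) ^ l * ev (tr (Wt m f t) (Sf f l)) x) =
      ∑ i ∈ Finset.range (m + 1), ∑ j ∈ Finset.Ico (m - i) (m + 1),
        (t : ℂ) ^ (i + j) * ev (tr (Sf f i) (Sf f j)) x := by
  rw [Finset.sum_add_distrib]
  have h1 : ∑ l ∈ Finset.range (m + 1), (l : ℂ) * (t : ℂ) ^ (l - 1) * ev (Sf f l) x =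
      -∑ l ∈ Finset.range m, ∑ i ∈ Finset.range (l + 1),
        (t : ℂ) ^ (i + (l - i)) * ev (tr (Sf f i) (Sf f (l - i))) x := by
    rw [Finset.sum_range_succ']
    simp only [Nat.cast_zero, zero_mul, add_zero]
    rw [← Finset.sum_neg_distrib]
    apply Finset.sum_congr rfl
    intro l _
    have h2 := ev_Sf_succ_10381 f l x
    have h3 : ∑ i ∈ Finset.range (l + 1),
        (t : ℂ) ^ (i + (l - i)) * ev (tr (Sf f i) (Sf f (l - i))) x =
        (t : ℂ) ^ l * ∑ i ∈ Finset.range (l + 1), ev (tr (Sf f i) (Sf f (l - i))) x := by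
      rw [Finset.mul_sum]
      apply Finset.sum_congr rfl
      intro i hi
      rw [Finset.mem_range] at hi
      rw [show i + (l - i) = l by omega]
    rw [h3]
    have h4 : ∑ i ∈ Finset.range (l + 1), ev (tr (Sf f i) (Sf f (l - i))) x =
        -(((l : ℂ) + 1) * ev (Sf f (l + 1)) x) := by rw [h2, neg_neg]
    rw [h4, Nat.add_sub_cancel]
    push_cast
    ring
  have h5 : ∑ l ∈ Finset.range (m + 1), (t : ℂ) ^ l * ev (tr (Wt m f t) (Sf f l)) x =
      ∑ i ∈ Finset.range (m + 1), ∑ j ∈ Finset.range (m + 1),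
        (t : ℂ) ^ (i + j) * ev (tr (Sf f i) (Sf f j)) x := by
    rw [Finset.sum_comm]
    apply Finset.sum_congr rfl
    intro l _
    rw [ev_tr_Wt_10381, Finset.mul_sum]
    apply Finset.sum_congr rfl
    intro i _
    rw [pow_add]
    ring
  have h6 := Finset.sum_range_diag_flip m
    (fun i j => (t : ℂ) ^ (i + j) * ev (tr (Sf f i) (Sf f j)) x)
  rw [h1, h5, h6]
  have h7 : ∑ i ∈ Finset.range m, ∑ j ∈ Finset.range (m - i),
        (t : ℂ) ^ (i + j) * ev (tr (Sf f i) (Sf f j)) x =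
      ∑ i ∈ Finset.range (m + 1), ∑ j ∈ Finset.range (m - i),
        (t : ℂ) ^ (i + j) * ev (tr (Sf f i) (Sf f j)) x := by
    rw [Finset.sum_range_succ _ m]
    simp
  rw [h7, neg_add_eq_sub, ← Finset.sum_sub_distrib]
  apply Finset.sum_congr rfl
  intro i _
  rw [Finset.sum_Ico_eq_sub _ (by omega)]

/-- residual of the truncated series -/
theorem residual (m : ℕ) (f : TP) : ∃ B : ℝ, 0 ≤ B ∧ ∀ t : ℝ, |t| ≤ 1 → ∀ x : T2,
    ‖∑ l ∈ Finset.range (m + 1), ((l : ℂ) * (t : ℂ) ^ (l - 1) * ev (Sf f l) x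
        + (t : ℂ) ^ l * ev (tr (Wt m f t) (Sf f l)) x)‖ ≤ B * |t| ^ m := by
  have hB : ∀ i j : ℕ, ∃ B : ℝ, 0 ≤ B ∧ ∀ x, ‖ev (tr (Sf f i) (Sf f j)) x‖ ≤ B :=
    fun i j => ev_bdd _
  choose B hB0 hB using hB
  refine ⟨∑ i ∈ Finset.range (m + 1), ∑ j ∈ Finset.Ico (m - i) (m + 1), B i j,
    Finset.sum_nonneg (fun i _ => Finset.sum_nonneg (fun j _ => hB0 i j)), ?_⟩
  intro t ht x
  rw [residual_eq_10381, Finset.sum_mul]
  refine (norm_sum_le _ _).trans (Finset.sum_le_sum fun i _ => ?_)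
  rw [Finset.sum_mul]
  refine (norm_sum_le _ _).trans (Finset.sum_le_sum fun j hj => ?_)
  rw [Finset.mem_Ico] at hj
  rw [norm_mul, norm_pow, Complex.norm_real, Real.norm_eq_abs, mul_comm]
  exact mul_le_mul (hB i j x) (pow_le_pow_of_le_one (abs_nonneg t) ht (by omega))
    (by positivity) (hB0 i j)

/-- the vorticity is almost transported -/
theorem vort_along (m : ℕ) (f : TP) (hf : IsR f) : ∃ B : ℝ, 0 ≤ B ∧ ∀ a : T2, ∀ y : ℝ → ℂ, y 0 = 0 →
    (∀ t, |t| < 1 → HasDerivAt y (ut m f t (a + pr (y t))) t) → ∀ t, |t| < 1 →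
    ‖ev (Wt m f t) (a + pr (y t)) - ev f a‖ ≤ B * |t| ^ (m + 1) := by
  obtain ⟨B, hB0, hB⟩ := residual m f
  refine ⟨B, hB0, ?_⟩
  intro a y hy0 hy t ht
  let h : ℝ → ℂ := fun s => ∑ l ∈ Finset.range (m + 1), (s : ℂ) ^ l * ev (Sf f l) (a + pr (y s))
  have hd : ∀ s : ℝ, |s| < 1 → HasDerivAt h
      (∑ l ∈ Finset.range (m + 1), ((l : ℂ) * (s : ℂ) ^ (l - 1) * ev (Sf f l) (a + pr (y s))
        + (s : ℂ) ^ l * ev (tr (Wt m f s) (Sf f l)) (a + pr (y s)))) s := by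
    intro s hs
    exact hasDerivAt_path (m + 1) (Sf f) (Wt m f s) (IsR.Wt m f hf s) a y s (hy s hs)
  have ht1 : h t = ev (Wt m f t) (a + pr (y t)) := by
    unfold Wt
    rw [ev_sum]
    apply Finset.sum_congr rfl
    intro l _
    rw [ev_smul]
  have hpr0 : pr 0 = 0 := by
    unfold pr
    simp
  have h0 : h 0 = ev f a := by
    show ∑ l ∈ Finset.range (m + 1), ((0 : ℝ) : ℂ) ^ l * ev (Sf f l) (a + pr (y 0)) = _
    rw [Finset.sum_range_succ', hy0, hpr0, add_zero, Finset.sum_eq_zero, zero_add, pow_zero,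
      one_mul, Sf]
    intro l _
    simp
  have hmv := Convex.norm_image_sub_le_of_norm_hasDerivWithin_le (f := h)
    (f' := fun s => ∑ l ∈ Finset.range (m + 1), ((l : ℂ) * (s : ℂ) ^ (l - 1) *
      ev (Sf f l) (a + pr (y s)) + (s : ℂ) ^ l * ev (tr (Wt m f s) (Sf f l)) (a + pr (y s))))
    (C := B * |t| ^ m) (s := Set.Icc (-|t|) |t|) (x := 0) (y := t)
    (fun s hs => (hd s (lt_of_le_of_lt (abs_le.2 hs) ht)).hasDerivWithinAt)
    (fun s hs => by
      have hs' : |s| ≤ |t| := abs_le.2 hs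
      refine (hB s (hs'.trans ht.le) _).trans ?_
      exact mul_le_mul_of_nonneg_left (pow_le_pow_left₀ (abs_nonneg s) hs' m) hB0)
    (convex_Icc _ _) ⟨by simp, abs_nonneg t⟩ ⟨neg_abs_le t, le_abs_self t⟩
  rw [ht1, h0, sub_zero, Real.norm_eq_abs] at hmv
  rw [pow_succ]
  linarith

end JT4b

end Pool.Agent.Helper118.Yud
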