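import Pool.Agent.Helper383.TY.TD
import Pool.Agent.Helper118.Yud.E1
import Pool.Agent.Helper118.Yud.E4
import Pool.Agent.Helper118.Yud.E5
import Pool.Agent.Helper383.TY.T2a
import Pool.Agent.Helper383.TY.T2b
import Pool.Agent.Helper383.TY.T3
import Pool.Agent.Helper383.TY.T4b

set_option autoImplicit false

open MeasureTheory Complex Set Filter Topology

namespace Pool.Agent.Helper118.Yud

open JT2a (ek_add ek_sub_arg ek_conj continuous_ek ev_zero ev_add ev_neg ev_smul ev_sum ev_mul continuous_ev ev_bdd mult_add mult_smul mult_sum ev_mult)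
open JT2b (ev_conj ev_Uv_conj re_ev_Dz_Uv)
open JT3 (conv_ev conv_ev_mp)
open JT4b (residual vort_along)

namespace JT4c

theorem ap_pr_cont : Continuous pr := by
  refine Continuous.prodMk ?_ ?_
  · exact (AddCircle.continuous_mk' 1).comp continuous_re
  · exact (AddCircle.continuous_mk' 1).comp continuous_im

theorem ap_mp_sub (x : T2) : MeasurePreserving (fun y : T2 => x - y) volume volume := by
  have h1 : ∀ c : UnitAddCircle, MeasurePreserving (fun y : UnitAddCircle => c - y) volume volume :=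
    fun c => Measure.measurePreserving_sub_left volume c
  exact (h1 x.1).prod (h1 x.2)

theorem ap_ut_eq (m : ℕ) (f : TP) (t : ℝ) (x : T2) :
    ut m f t x = ∑ l ∈ Finset.range (m + 1), (t : ℂ) ^ l * ev (Uv (Sf f l)) x := by
  rw [ut, Wt, Uv, mult_sum, ev_sum]
  refine Finset.sum_congr rfl fun l _ => ?_
  rw [mult_smul, ev_smul]
  rfl

theorem ap_ut_cont (m : ℕ) (f : TP) : Continuous (fun p : ℝ × T2 => ut m f p.1 p.2) := by
  simp only [ap_ut_eq]
  refine continuous_finsetSum _ fun l _ => ?_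
  exact ((Complex.continuous_ofReal.comp continuous_fst).pow l).mul
    ((continuous_ev _).comp continuous_snd)

/-- the flow of the truncated series is an approximate Lagrangian solution -/
theorem approx {K : T2 → ℂ} {C : ℝ} (hK : IsBS K C) (m : ℕ) (f : TP) (hf : IsR f)
    (ω : T2 → ℝ) (hω : ∀ x, (ω x : ℂ) = ev f x)
    (η : ℝ → T2 → ℂ) (hηc : Continuous (Function.uncurry η)) (hη0 : ∀ a, η 0 a = 0)
    (hηmp : ∀ t, MeasurePreserving (mv (η t)) volume volume)
    (hode : ∀ t, |t| < 1 → ∀ a, HasDerivAt (fun s => η s a) (ut m f t (mv (η t) a)) t) :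
    ∃ B : ℝ, 0 ≤ B ∧ ∀ T : ℝ, 0 ≤ T → T ≤ 1/2 → ALagr K T (B * T ^ (m + 2)) ω η := by
  have hKi := hK.integrable
  set κ : ℝ := ∫ x, ‖K x‖ with hκ
  have hκ0 : 0 ≤ κ := integral_nonneg fun _ => norm_nonneg _
  obtain ⟨B0, hB0, hvort⟩ := vort_along m f hf
  obtain ⟨M, hM0, hM⟩ := ev_bdd f
  have hωre : ∀ x, ω x = (ev f x).re := fun x => by rw [← hω, Complex.ofReal_re]
  have hωc : Continuous ω := by
    have : ω = fun x => (ev f x).re := funext hωre
    rw [this]
    exact continuous_re.comp (continuous_ev f)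
  have hωM : ∀ x, |ω x| ≤ M := by
    intro x
    rw [hωre]
    exact (Complex.abs_re_le_norm _).trans (hM x)
  have hcont1 : ∀ a, Continuous (fun s : ℝ => η s a) := fun a =>
    hηc.comp (continuous_id.prodMk continuous_const)
  have hmvc : ∀ a, Continuous (fun s : ℝ => mv (η s) a) := fun a =>
    continuous_const.add (ap_pr_cont.comp (hcont1 a))
  have hv : ∀ s : ℝ, |s| < 1 → ∀ b, ‖ev (Wt m f s) (mv (η s) b) - (ω b : ℂ)‖ ≤ B0 * |s| ^ (m + 1) := by
    intro s hs b
    rw [hω]
    have h1 := hvort b (fun t => η t b) (hη0 b)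
    simp only [mv] at hode ⊢
    exact h1 (fun t ht => hode t ht b) s hs
  have hkey : ∀ s : ℝ, |s| < 1 → ∀ x, ‖vel K ω (η s) x - ut m f s x‖ ≤ B0 * |s| ^ (m + 1) * κ := by
    intro s hs x
    obtain ⟨i1, e1⟩ := conv_ev_mp hK hKi (Wt m f s) (mv (η s)) (hηmp s) x
    have i2 := integrable_vel hK ω hωc.measurable M hωM (mv (η s)) (hηmp s) x
    have hmp : MeasurePreserving (fun b => x - mv (η s) b) (volume : Measure T2) volume :=
      (ap_mp_sub x).comp (hηmp s)
    have hKn : Integrable (fun y => ‖K y‖) (volume : Measure T2) := hKi.norm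
    have i3 : Integrable (fun b => ‖K (x - mv (η s) b)‖) (volume : Measure T2) :=
      (hmp.integrable_comp hKn.aestronglyMeasurable).2 hKn
    have e3 : ∫ b, ‖K (x - mv (η s) b)‖ = κ := by
      have h1 : ∫ y, ‖K y‖ ∂(Measure.map (fun b => x - mv (η s) b) volume) =
          ∫ b, ‖K (x - mv (η s) b)‖ :=
        integral_map hmp.measurable.aemeasurable (by rw [hmp.map_eq]; exact hKn.aestronglyMeasurable)
      rw [← h1, hmp.map_eq]
    have e4 : vel K ω (η s) x - ut m f s x =
        ∫ b, ((ω b : ℂ) * K (x - mv (η s) b) - ev (Wt m f s) (mv (η s) b) * K (x - mv (η s) b)) := by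
      rw [integral_sub i2 i1, e1, vel, ut]
    rw [e4]
    calc ‖∫ b, ((ω b : ℂ) * K (x - mv (η s) b) - ev (Wt m f s) (mv (η s) b) * K (x - mv (η s) b))‖
        ≤ ∫ b, B0 * |s| ^ (m + 1) * ‖K (x - mv (η s) b)‖ := by
          refine norm_integral_le_of_norm_le (i3.const_mul _) (Filter.Eventually.of_forall fun b => ?_)
          rw [← sub_mul, norm_mul, ← norm_neg, neg_sub]
          exact mul_le_mul_of_nonneg_right (hv s hs b) (norm_nonneg _)
      _ = B0 * |s| ^ (m + 1) * κ := by rw [integral_const_mul, e3]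
  refine ⟨B0 * κ, mul_nonneg hB0 hκ0, fun T hT0 hT => ⟨hηc, fun t _ => hηmp t, fun t ht a => ?_⟩⟩
  have hsub : ∀ s ∈ Set.uIcc 0 t, |s| ≤ T := by
    intro s hs
    have := Set.abs_sub_left_of_mem_uIcc hs
    rw [sub_zero, sub_zero] at this
    exact this.trans ht
  have hutc : Continuous (fun s : ℝ => ut m f s (mv (η s) a)) := by
    have h2 : Continuous (fun s : ℝ => ((s, mv (η s) a) : ℝ × T2)) :=
      continuous_id.prodMk (hmvc a)
    have h3 := Continuous.comp (g := fun p : ℝ × T2 => ut m f p.1 p.2)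
      (f := fun s : ℝ => ((s, mv (η s) a) : ℝ × T2)) (ap_ut_cont m f) h2
    simpa only [Function.comp_def] using h3
  have hFTC : η t a = ∫ s in (0:ℝ)..t, ut m f s (mv (η s) a) := by
    have h1 : ∫ s in (0:ℝ)..t, ut m f s (mv (η s) a) = η t a - η 0 a :=
      intervalIntegral.integral_eq_sub_of_hasDerivAt (f := fun s => η s a)
        (f' := fun s => ut m f s (mv (η s) a))
        (fun s hs => hode s ((hsub s hs).trans_lt (by linarith)) a) (hutc.intervalIntegrable _ _)
    rw [h1, hη0, sub_zero]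
  have hvc : ContinuousOn (fun s : ℝ => vel K ω (η s) (mv (η s) a)) (Set.uIcc 0 t) := by
    have h1 := vel_continuousOn hK ω hωc.measurable M hωM T η hηc (fun t _ => hηmp t)
    refine h1.comp (f := fun s : ℝ => (s, mv (η s) a))
      (continuous_id.prodMk (hmvc a)).continuousOn ?_
    intro s hs
    exact ⟨abs_le.1 (hsub s hs), Set.mem_univ _⟩
  rw [hFTC, ← intervalIntegral.integral_sub (hutc.intervalIntegrable _ _) hvc.intervalIntegrable]
  have hb : ‖∫ s in (0:ℝ)..t, (ut m f s (mv (η s) a) - vel K ω (η s) (mv (η s) a))‖ ≤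
      (B0 * T ^ (m + 1) * κ) * |t - 0| := by
    refine intervalIntegral.norm_integral_le_of_norm_le_const fun s hs => ?_
    have hs' : |s| ≤ T := hsub s (Set.uIoc_subset_uIcc hs)
    rw [← norm_neg, neg_sub]
    refine (hkey s (by linarith) _).trans ?_
    gcongr
  refine hb.trans ?_
  rw [sub_zero]
  calc B0 * T ^ (m + 1) * κ * |t| ≤ B0 * T ^ (m + 1) * κ * T := by gcongr
    _ = B0 * κ * T ^ (m + 2) := by ring

end JT4c

end Pool.Agent.Helper118.Yud
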