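import Pool.Agent.Helper383.TY.TD
import Pool.Agent.Helper118.Yud.E5
import Pool.Agent.Helper383.TY.T2a

set_option autoImplicit false

open MeasureTheory Complex Set Filter Topology

namespace Pool.Agent.Helper118.Yud

open JT2a (ek_add ek_sub_arg ek_conj continuous_ek ev_zero ev_add ev_neg ev_smul ev_sum ev_mul continuous_ev ev_bdd mult_add mult_smul mult_sum ev_mult)

namespace JT5

theorem rpow_bd_10383 {x θ : ℝ} (hx : 0 ≤ x) (h0 : 0 < θ) (h1 : θ ≤ 1) : x ^ θ ≤ 1 + x := by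
  calc x ^ θ ≤ (1 + x) ^ θ := Real.rpow_le_rpow hx (by linarith) h0.le
    _ ≤ (1 + x) ^ (1 : ℝ) := Real.rpow_le_rpow_of_exponent_le (by linarith) h1
    _ = 1 + x := Real.rpow_one _

theorem pow_bd_10383 {A B T : ℝ} (m : ℕ) (hA : 0 < A) (hB : 0 ≤ B) (hT : 0 < T) (hT1 : T ≤ 1)
    (hAT : A * T * ((m : ℝ) + 2) ≤ 1) :
    ((B + 1) * T ^ (m + 2) / Real.exp 1) ^ Real.exp (-(A * T)) ≤
      (1 + (B + 1) / Real.exp 1) * T ^ (m + 1) := by
  have he := Real.exp_pos 1
  set θ := Real.exp (-(A * T)) with hθ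
  have hθ0 : 0 < θ := Real.exp_pos _
  have hθ1 : θ ≤ 1 := by
    rw [hθ, Real.exp_le_one_iff]
    have := mul_pos hA hT
    linarith
  have hθ2 : (m : ℝ) + 1 ≤ ((m : ℝ) + 2) * θ := by
    have h1 : -(A * T) + 1 ≤ θ := Real.add_one_le_exp _
    have h2 : (0 : ℝ) ≤ (m : ℝ) + 2 := by positivity
    have h3 := mul_le_mul_of_nonneg_left h1 h2
    linarith
  have e : (B + 1) * T ^ (m + 2) / Real.exp 1 = ((B + 1) / Real.exp 1) * T ^ (m + 2) := by ring
  rw [e, Real.mul_rpow (by positivity) (by positivity)]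
  have h5 : (T ^ (m + 2)) ^ θ ≤ T ^ (m + 1) := by
    rw [← Real.rpow_natCast T (m + 2), ← Real.rpow_mul hT.le, ← Real.rpow_natCast T (m + 1)]
    apply Real.rpow_le_rpow_of_exponent_ge hT hT1
    push_cast
    exact hθ2
  exact mul_le_mul (rpow_bd_10383 (by positivity) hθ0 hθ1) h5 (by positivity) (by positivity)

/-- the exact trajectory is close to the trajectory of the truncated series -/
theorem close_of_approx {K : T2 → ℂ} {C : ℝ} (hK : IsBS K C) (m : ℕ) (ω : T2 → ℝ) (hωc : Continuous ω)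
    (η : ℝ → T2 → ℂ) (hη : ∃ B : ℝ, 0 ≤ B ∧ ∀ T : ℝ, 0 ≤ T → T ≤ 1/2 → ALagr K T (B * T ^ (m + 2)) ω η)
    (ξ : ℝ → T2 → ℂ) (hξ : Lagr K ω ξ) :
    ∃ B r : ℝ, 0 < r ∧ ∀ t, |t| ≤ r → ∀ a, ‖ξ t a - η t a‖ ≤ B * |t| ^ (m + 1) := by
  obtain ⟨B, hB, hη⟩ := hη
  obtain ⟨M0, hM0⟩ := isCompact_univ.exists_bound_of_continuousOn (f := ω) hωc.continuousOn
  have hM0' : ∀ x, |ω x| ≤ max M0 0 := fun x =>
    (hM0 x (mem_univ x)).trans (le_max_left _ _)
  obtain ⟨A, hA, hstab⟩ := stab hK (max M0 0) (le_max_right _ _)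
  have he := Real.exp_pos 1
  set D : ℝ := 1 + (B + 1) / Real.exp 1 with hD
  have hD0 : 0 < D := by rw [hD]; positivity
  set r : ℝ := min (1 / 2) (min (1 / (A * ((m : ℝ) + 2))) (1 / (2 * (Real.exp 1 * D)))) with hr
  have hr0 : 0 < r := lt_min (by norm_num) (lt_min (by positivity) (by positivity))
  have hr1 : r ≤ 1 / 2 := min_le_left _ _
  have hr2 : r ≤ 1 / (A * ((m : ℝ) + 2)) := (min_le_right _ _).trans (min_le_left _ _)
  have hr3 : r ≤ 1 / (2 * (Real.exp 1 * D)) := (min_le_right _ _).trans (min_le_right _ _)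
  refine ⟨Real.exp 1 * D, r, hr0, fun t ht a => ?_⟩
  rcases (abs_nonneg t).eq_or_lt with h0 | h0
  · have ht0 : t = 0 := abs_eq_zero.1 h0.symm
    subst ht0
    have h1 : ξ 0 a = 0 := by
      rw [hξ.eq 0 a, intervalIntegral.integral_same]
    have h2 := (hη 0 le_rfl (by norm_num)).eq 0 (by simp) a
    rw [intervalIntegral.integral_same, sub_zero, zero_pow (by omega), mul_zero] at h2
    have h3 : ‖ξ 0 a - η 0 a‖ ≤ 0 := by
      rw [h1, zero_sub, norm_neg]; exact h2
    refine h3.trans ?_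
    positivity
  · set T := |t| with hT
    have hT12 : T ≤ 1 / 2 := ht.trans hr1
    have hAT : A * T * ((m : ℝ) + 2) ≤ 1 := by
      have h1 := ht.trans hr2
      rw [le_div_iff₀ (by positivity)] at h1
      linarith
    have hpow := pow_bd_10383 (B := B) m hA hB h0 (by linarith) hAT
    have hTm : T ^ (m + 1) ≤ T := by
      have := pow_le_pow_of_le_one h0.le (by linarith : T ≤ 1) (by omega : 1 ≤ m + 1)
      simpa using this
    have hbd : Real.exp 1 * ((B + 1) * T ^ (m + 2) / Real.exp 1) ^ Real.exp (-(A * T)) ≤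
        Real.exp 1 * D * T ^ (m + 1) := by
      have := mul_le_mul_of_nonneg_left hpow he.le
      rw [mul_assoc]
      exact this
    have hsmall : Real.exp 1 * D * T ^ (m + 1) < 1 := by
      have h1 := ht.trans hr3
      rw [le_div_iff₀ (by positivity)] at h1
      have h2 : Real.exp 1 * D * T ^ (m + 1) ≤ Real.exp 1 * D * T :=
        mul_le_mul_of_nonneg_left hTm (by positivity)
      linarith
    have hL : ALagr K T 0 ω ξ := ⟨hξ.cont, fun t _ => hξ.mp t, fun t _ a => by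
      rw [← hξ.eq t a, sub_self, norm_zero]⟩
    have key := hstab T 0 (B * T ^ (m + 2)) 0 ((B + 1) * T ^ (m + 2)) h0.le le_rfl (by positivity)
      le_rfl (by positivity) ω ω hωc.measurable hωc.measurable hM0' hM0' (by simp) ξ η hL
      (hη T h0.le hT12) (by
        rw [Real.sqrt_zero, mul_zero, zero_add, add_zero]
        apply mul_le_mul_of_nonneg_right _ (by positivity)
        linarith) (lt_of_le_of_lt hbd hsmall) t le_rfl a
    exact key.trans hbd

end JT5

end Pool.Agent.Helper118.Yud
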