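import Pool.Agent.Helper383.TY.TD
import Pool.Agent.Helper383.TY.T2a
import Pool.Agent.Helper383.TY.T2b
import Pool.Agent.Helper383.TY.T2c
import Pool.Agent.Helper383.TY.T4p

set_option autoImplicit false

open MeasureTheory Complex Set Filter Topology

namespace Pool.Agent.Helper118.Yud

open JT2a (ek_add ek_sub_arg ek_conj continuous_ek ev_zero ev_add ev_neg ev_smul ev_sum ev_mul continuous_ev ev_bdd mult_add mult_smul mult_sum ev_mult)
open JT2b (ev_conj ev_Uv_conj re_ev_Dz_Uv)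
open JT2c (hasFDerivAt_ev norm_dfl_le dfl_one dfl_I dfl_apply)
open JT4p (hasDerivAt_path)

namespace JT6

theorem T6_mult_zero (c : ℤ × ℤ → ℂ) : mult c 0 = 0 := by
  have h := mult_smul c 0 0
  rw [zero_smul, zero_smul] at h
  exact h

theorem T6_tr_zero_left (g : TP) : tr 0 g = 0 := by
  unfold tr Uv Vv
  rw [T6_mult_zero, T6_mult_zero, zero_mul, zero_mul, add_zero]

theorem T6_tr_zero_right (w : TP) : tr w 0 = 0 := by
  unfold tr Dz Db
  rw [T6_mult_zero, T6_mult_zero, mul_zero, mul_zero, add_zero]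

theorem T6_tc_of_lt (m : ℕ) (f : TP) {l : ℕ} (h : m < l) : tc m f l = 0 := by
  unfold tc
  rw [if_neg (by omega)]

theorem T6_tc_of_le (m : ℕ) (f : TP) {l : ℕ} (h : l ≤ m) : tc m f l = Sf f l := by
  unfold tc
  rw [if_pos h]

theorem T6_Gf_succ (s : ℕ → TP) (k l : ℕ) : Gf s (k + 1) l = ((l : ℂ) + 1) • Gf s k (l + 1)
      + ∑ i ∈ Finset.range (l + 1), tr (s i) (Gf s k (l - i)) := rfl

theorem T6_vanish (m : ℕ) (f : TP) (k : ℕ) : ∀ l, (k + 1) * m < l → Gf (tc m f) k l = 0 := by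
  induction k with
  | zero =>
    intro l hl
    change Uv (tc m f l) = 0
    rw [T6_tc_of_lt m f (by linarith)]
    exact T6_mult_zero _
  | succ k ih =>
    intro l hl
    have e : (k + 1 + 1) * m = (k + 1) * m + m := by ring
    rw [e] at hl
    rw [T6_Gf_succ, ih (l + 1) (by omega), smul_zero, zero_add]
    refine Finset.sum_eq_zero fun i _ => ?_
    by_cases hi : m < i
    · rw [T6_tc_of_lt m f hi, T6_tr_zero_left]
    · rw [ih (l - i) (by omega), T6_tr_zero_right]

theorem T6_ev_Wt_mult (m : ℕ) (f : TP) (t : ℝ) (c : ℤ × ℤ → ℂ) (x : T2) :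
    ev (mult c (Wt m f t)) x =
      ∑ i ∈ Finset.range (m + 1), (t : ℂ) ^ i * ev (mult c (Sf f i)) x := by
  unfold Wt
  rw [mult_sum, ev_sum]
  refine Finset.sum_congr rfl fun i _ => ?_
  rw [mult_smul, ev_smul]

theorem T6_ev_tr_Wt (m : ℕ) (f : TP) (t : ℝ) (g : TP) (x : T2) :
    ev (tr (Wt m f t) g) x =
      ∑ i ∈ Finset.range (m + 1), (t : ℂ) ^ i * ev (tr (Sf f i) g) x := by
  unfold tr
  rw [ev_add, ev_mul, ev_mul]
  unfold Uv Vv
  rw [T6_ev_Wt_mult, T6_ev_Wt_mult, Finset.sum_mul, Finset.sum_mul, ← Finset.sum_add_distrib]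
  refine Finset.sum_congr rfl fun i _ => ?_
  rw [ev_add, ev_mul, ev_mul]
  ring

/-- rearrangement of a finite double sum -/
theorem T6_rearr (c : ℕ → ℕ → ℂ) (m r : ℕ) (hi : ∀ i j, m < i → c i j = 0)
    (hj : ∀ i j, r ≤ j → c i j = 0) :
    ∑ l ∈ Finset.range (r + m), ∑ i ∈ Finset.range (l + 1), c i (l - i) =
      ∑ i ∈ Finset.range (m + 1), ∑ j ∈ Finset.range r, c i j := by
  rw [Finset.sum_range_diag_flip]
  rcases Nat.eq_zero_or_pos r with hr | hr
  · subst hr
    rw [Finset.sum_eq_zero, Finset.sum_eq_zero]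
    · intro i _
      simp
    · intro i _
      exact Finset.sum_eq_zero fun j _ => hj i j (Nat.zero_le _)
  · symm
    refine (Finset.sum_subset_zero_on_sdiff (Finset.range_subset_range.mpr (by omega)) ?_ ?_)
    · intro i hi'
      rw [Finset.mem_sdiff, Finset.mem_range, Finset.mem_range] at hi'
      exact Finset.sum_eq_zero fun j _ => hi i j (by omega)
    · intro i hi'
      rw [Finset.mem_range] at hi'
      refine (Finset.sum_subset_zero_on_sdiff (Finset.range_subset_range.mpr (by omega)) ?_ ?_)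
      · intro j hj'
        rw [Finset.mem_sdiff, Finset.mem_range, Finset.mem_range] at hj'
        exact hj i j (by omega)
      · intro j _
        rfl

theorem T6_partA (m : ℕ) (f : TP) (t : ℝ) (x : T2) (k : ℕ) :
    ∑ l ∈ Finset.range ((k + 1) * m + 1), ((l : ℂ) * (t : ℂ) ^ (l - 1) *
      ev (Gf (tc m f) k l) x) =
    ∑ l ∈ Finset.range ((k + 1 + 1) * m + 1), (t : ℂ) ^ l *
      (((l : ℂ) + 1) * ev (Gf (tc m f) k (l + 1)) x) := by
  have h1 := Finset.sum_range_succ' (fun l : ℕ => (l : ℂ) * (t : ℂ) ^ (l - 1) *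
      ev (Gf (tc m f) k l) x) ((k + 1 + 1) * m + 1)
  have h2 : ∑ l ∈ Finset.range ((k + 1) * m + 1), ((l : ℂ) * (t : ℂ) ^ (l - 1) *
      ev (Gf (tc m f) k l) x) = ∑ l ∈ Finset.range ((k + 1 + 1) * m + 1 + 1),
      ((l : ℂ) * (t : ℂ) ^ (l - 1) * ev (Gf (tc m f) k l) x) := by
    have e : (k + 1 + 1) * m = (k + 1) * m + m := by ring
    refine (Finset.sum_subset_zero_on_sdiff (Finset.range_subset_range.mpr (by omega)) ?_ ?_)
    · intro j hj
      rw [Finset.mem_sdiff, Finset.mem_range, Finset.mem_range] at hj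
      rw [T6_vanish m f k j (by omega), ev_zero, mul_zero]
    · intro j _
      rfl
  rw [h2, h1, Nat.cast_zero, zero_mul, zero_mul, add_zero]
  refine Finset.sum_congr rfl fun l _ => ?_
  rw [Nat.add_sub_cancel]
  push_cast
  ring

theorem T6_partB (m : ℕ) (f : TP) (t : ℝ) (x : T2) (k : ℕ) :
    ∑ l ∈ Finset.range ((k + 1) * m + 1), ((t : ℂ) ^ l *
      ev (tr (Wt m f t) (Gf (tc m f) k l)) x) =
    ∑ l ∈ Finset.range ((k + 1 + 1) * m + 1), (t : ℂ) ^ l *
      (∑ i ∈ Finset.range (l + 1), ev (tr (tc m f i) (Gf (tc m f) k (l - i))) x) := by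
  have h := T6_rearr (fun i j => (t : ℂ) ^ i * ((t : ℂ) ^ j *
    ev (tr (tc m f i) (Gf (tc m f) k j)) x)) m ((k + 1) * m + 1)
    (fun i j hi => by
      rw [T6_tc_of_lt m f hi, T6_tr_zero_left, ev_zero, mul_zero, mul_zero])
    (fun i j hj => by
      rw [T6_vanish m f k j (by omega), T6_tr_zero_right, ev_zero, mul_zero, mul_zero])
  have e : (k + 1 + 1) * m + 1 = (k + 1) * m + 1 + m := by ring
  rw [e]
  have hL : ∑ l ∈ Finset.range ((k + 1) * m + 1 + m), (t : ℂ) ^ l *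
      (∑ i ∈ Finset.range (l + 1), ev (tr (tc m f i) (Gf (tc m f) k (l - i))) x) =
      ∑ l ∈ Finset.range ((k + 1) * m + 1 + m), ∑ i ∈ Finset.range (l + 1),
        (t : ℂ) ^ i * ((t : ℂ) ^ (l - i) * ev (tr (tc m f i) (Gf (tc m f) k (l - i))) x) := by
    refine Finset.sum_congr rfl fun l _ => ?_
    rw [Finset.mul_sum]
    refine Finset.sum_congr rfl fun i hi => ?_
    rw [Finset.mem_range] at hi
    rw [← mul_assoc, ← pow_add, Nat.add_sub_cancel' (by omega)]
  rw [hL]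
  refine Eq.trans ?_ h.symm
  rw [Finset.sum_comm]
  refine Finset.sum_congr rfl fun l _ => ?_
  rw [T6_ev_tr_Wt, Finset.mul_sum]
  refine Finset.sum_congr rfl fun i hi => ?_
  rw [Finset.mem_range] at hi
  rw [T6_tc_of_le m f (by omega : i ≤ m)]
  ring

theorem T6_alg (m : ℕ) (f : TP) (t : ℝ) (x : T2) (k : ℕ) :
    ∑ l ∈ Finset.range ((k + 1) * m + 1), ((l : ℂ) * (t : ℂ) ^ (l - 1) *
      ev (Gf (tc m f) k l) x + (t : ℂ) ^ l * ev (tr (Wt m f t) (Gf (tc m f) k l)) x) =
    ∑ l ∈ Finset.range ((k + 1 + 1) * m + 1), (t : ℂ) ^ l * ev (Gf (tc m f) (k + 1) l) x := by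
  rw [Finset.sum_add_distrib, T6_partA, T6_partB, ← Finset.sum_add_distrib]
  refine Finset.sum_congr rfl fun l _ => ?_
  rw [T6_Gf_succ, ev_add, ev_smul, ev_sum, mul_add]

/-- the functions of the tower -/
noncomputable def T6F (m : ℕ) (f : TP) (a : T2) (y : ℝ → ℂ) (k : ℕ) (t : ℝ) : ℂ :=
  ∑ l ∈ Finset.range ((k + 1) * m + 1), (t : ℂ) ^ l * ev (Gf (tc m f) k l) (a + pr (y t))

theorem T6_step (m : ℕ) (f : TP) (hf : IsR f) (a : T2) (y : ℝ → ℂ) (t : ℝ)
    (hode : HasDerivAt y (ut m f t (a + pr (y t))) t) (k : ℕ) :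
    HasDerivAt (T6F m f a y k) (T6F m f a y (k + 1) t) t := by
  have h := hasDerivAt_path ((k + 1) * m + 1) (Gf (tc m f) k) (Wt m f t) (IsR.Wt m f hf t) a y t
    hode
  refine h.congr_deriv ?_
  exact T6_alg m f t (a + pr (y t)) k

theorem T6_tower (H : ℕ → ℝ → ℂ)
    (h : ∀ k, ∀ t ∈ Ioo (-1 : ℝ) 1, HasDerivAt (H k) (H (k + 1) t) t) :
    (∀ n k : ℕ, ContDiffOn ℝ n (H k) (Ioo (-1 : ℝ) 1)) ∧
      ∀ n : ℕ, ∀ t ∈ Ioo (-1 : ℝ) 1, iteratedDeriv n (H 0) t = H n t := by
  constructor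
  · intro n
    induction n with
    | zero =>
      intro k
      rw [Nat.cast_zero, contDiffOn_zero]
      exact fun t ht => (h k t ht).continuousAt.continuousWithinAt
    | succ n ih =>
      intro k
      rw [Nat.cast_succ, contDiffOn_succ_iff_deriv_of_isOpen isOpen_Ioo]
      refine ⟨fun t ht => (h k t ht).differentiableAt.differentiableWithinAt, ?_, ?_⟩
      · intro hn
        exact absurd hn (by simp)
      · exact (ih (k + 1)).congr fun t ht => (h k t ht).deriv
  · intro n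
    induction n with
    | zero =>
      intro t _
      rw [iteratedDeriv_zero]
    | succ n ih =>
      intro t ht
      rw [iteratedDeriv_succ]
      have he : iteratedDeriv n (H 0) =ᶠ[𝓝 t] H n := by
        filter_upwards [isOpen_Ioo.mem_nhds ht] with u hu
        exact ih u hu
      rw [he.deriv_eq]
      exact (h n t ht).deriv

/-- the tower starting with the trajectory -/
noncomputable def T6H (m : ℕ) (f : TP) (a : T2) (y : ℝ → ℂ) : ℕ → ℝ → ℂ
  | 0 => y
  | (k + 1) => T6F m f a y k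

/-- Taylor coefficients at time 0 of the trajectory of the truncated series -/
theorem taylor_flow (m : ℕ) (f : TP) (hf : IsR f) (a : T2) (y : ℝ → ℂ) (h0 : y 0 = 0)
    (hode : ∀ t, |t| < 1 → HasDerivAt y (ut m f t (a + pr (y t))) t) :
    (∀ n : ℕ, ContDiffAt ℝ n y 0) ∧
    ∀ k, iteratedDeriv (k + 1) y 0 = ev (Gf (tc m f) k 0) a := by
  have h0mem : (0 : ℝ) ∈ Ioo (-1 : ℝ) 1 := by constructor <;> norm_num
  obtain ⟨h1, h2⟩ := T6_tower (T6H m f a y) (by
    intro k t ht
    have ht' : |t| < 1 := abs_lt.mpr ht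
    cases k with
    | zero =>
      change HasDerivAt y (T6F m f a y 0 t) t
      refine (hode t ht').congr_deriv ?_
      unfold T6F ut Uv
      rw [T6_ev_Wt_mult, zero_add, one_mul]
      refine Finset.sum_congr rfl fun i hi => ?_
      rw [Finset.mem_range] at hi
      change _ = (t : ℂ) ^ i * ev (Uv (tc m f i)) (a + pr (y t))
      rw [T6_tc_of_le m f (by omega : i ≤ m)]
      rfl
    | succ k => exact T6_step m f hf a y t (hode t ht') k)
  refine ⟨fun n => (h1 n 0).contDiffAt (isOpen_Ioo.mem_nhds h0mem), fun k => ?_⟩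
  have h3 := h2 (k + 1) 0 h0mem
  change iteratedDeriv (k + 1) y 0 = T6F m f a y k 0 at h3
  rw [h3]
  unfold T6F
  have hpr : pr 0 = 0 := by
    unfold pr
    simp
  rw [h0, hpr, add_zero, Finset.sum_eq_single 0]
  · simp
  · intro l _ hl
    rw [Complex.ofReal_zero, zero_pow hl, zero_mul]
  · intro h
    exact absurd (Finset.mem_range.mpr (Nat.succ_pos _)) h

end JT6

end Pool.Agent.Helper118.Yud
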