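import Pool.Agent.Helper383.TY.TD
import Pool.Agent.Helper383.TY.T1a
import Pool.Agent.Helper383.TY.T1b
import Pool.Agent.Helper383.TY.T2a
import Pool.Agent.Helper383.TY.T2b
import Pool.Agent.Helper383.TY.T2c
import Pool.Agent.Helper383.TY.T3
import Pool.Agent.Helper383.TY.T4a
import Pool.Agent.Helper383.TY.T4p
import Pool.Agent.Helper383.TY.T4b
import Pool.Agent.Helper383.TY.T4c
import Pool.Agent.Helper383.TY.T5
import Pool.Agent.Helper383.TY.T6
import Pool.Agent.Helper383.TY.T7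

set_option autoImplicit false

open MeasureTheory Complex Set Filter Topology

namespace Pool.Agent.Helper118.Yud

open JT2a (ek_add ek_sub_arg ek_conj continuous_ek ev_zero ev_add ev_neg ev_smul ev_sum ev_mul continuous_ev ev_bdd mult_add mult_smul mult_sum ev_mult)
open JT2b (ev_conj ev_Uv_conj re_ev_Dz_Uv)
open JT2c (hasFDerivAt_ev norm_dfl_le dfl_one dfl_I dfl_apply)
open JT3 (conv_ev conv_ev_mp)
open JT4a (continuous_ut flow_ut)
open JT4p (hasDerivAt_path)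
open JT4b (residual vort_along)
open JT4c (approx)
open JT5 (close_of_approx)
open JT6 (taylor_flow)
open JT7 (taylor_compare)

namespace JT8

theorem taylor_hom {K : T2 → ℂ} {C : ℝ} (hK : IsBS K C) (p φ : T2 → ℝ) (hp : IsTrig p) (hφ : IsTrig φ)
    (n : ℕ) : ∃ c : ℕ → ℂ, ∀ σ1 σ2 : ℝ, ∀ ξ : ℝ → T2 → ℂ,
      Lagr K (fun x => σ1 * p x + σ2 * φ x) ξ → AnalyticAt ℝ (fun t => ξ t 0) 0 →
      iteratedDeriv n (fun t => ξ t 0) 0 =
        ∑ j ∈ Finset.range (n + 1), c j * (σ1 : ℂ) ^ (n - j) * (σ2 : ℂ) ^ j := by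
  obtain ⟨P, hPr, hP⟩ := IsTrig.exists_ev p hp
  obtain ⟨Φ, hΦr, hΦ⟩ := IsTrig.exists_ev φ hφ
  rcases n with _ | k
  · refine ⟨fun _ => 0, fun σ1 σ2 ξ hξ _ => ?_⟩
    simp [iteratedDeriv_zero, hξ.eq 0 0]
  obtain ⟨b, hb⟩ := Hom.Gf P Φ (k + 1) k 0 (by omega)
  refine ⟨fun j => ev (b j) 0, fun σ1 σ2 ξ hξ han => ?_⟩
  set f : TP := (σ1 : ℂ) • P + (σ2 : ℂ) • Φ with hf
  have hfR : IsR f := IsR.add _ _ (IsR.smul _ _ hPr) (IsR.smul _ _ hΦr)
  have hω : ∀ x, ((σ1 * p x + σ2 * φ x : ℝ) : ℂ) = ev f x := by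
    intro x
    rw [hf, ev_add, ev_smul, ev_smul, ← hP, ← hΦ]
    push_cast
    ring
  have hωc : Continuous (fun x => σ1 * p x + σ2 * φ x) := by
    have h1 : (fun x => σ1 * p x + σ2 * φ x) = fun x => (ev f x).re := by
      funext x
      rw [← hω x, Complex.ofReal_re]
    rw [h1]
    exact Complex.continuous_re.comp (continuous_ev f)
  obtain ⟨η, hηc, hη0, hηmp, hode⟩ := flow_ut (k + 1) f hfR
  have hap := approx hK (k + 1) f hfR (fun x => σ1 * p x + σ2 * φ x) hω η hηc hη0 hηmp hode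
  obtain ⟨B, r, hr, hB⟩ := close_of_approx hK (k + 1) _ hωc η hap ξ hξ
  obtain ⟨hsm, hder⟩ := taylor_flow (k + 1) f hfR 0 (fun t => η t 0) (hη0 0) (fun t ht => by
    have := hode t ht 0
    simpa [mv] using this)
  have hcmp := taylor_compare (k + 1) (fun t => ξ t 0) (fun t => η t 0)
    (han.contDiffAt.of_le le_top) (hsm (k + 1)) ⟨B, r, hr, fun t ht => hB t ht 0⟩
  have hb' := hb σ1 σ2
  simp only [Nat.add_zero] at hb'
  rw [hcmp, hder k, hf, hb', ev_sum]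
  refine Finset.sum_congr rfl fun j hj => ?_
  rw [ev_smul]
  ring

end JT8

end Pool.Agent.Helper118.Yud
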