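import Pool.Agent.Helper383.TY.TD

set_option autoImplicit false

open MeasureTheory Complex Set Filter Topology

namespace Pool.Agent.Helper118.Yud


namespace JT7

theorem poly_zero_352 (n : ℕ) (c : ℕ → ℂ)
    (h : (fun t : ℝ => ∑ k ∈ Finset.range (n + 1), (t ^ k) • c k) =o[𝓝 0] fun t : ℝ => t ^ n) :
    ∀ k ≤ n, c k = 0 := by
  intro k
  induction k using Nat.strong_induction_on with
  | _ k ih =>
    intro hk
    let R : ℝ → ℂ := fun t => ∑ j ∈ Finset.range (n + 1 - k), (t ^ j) • c (k + j)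
    have hQ : ∀ t : ℝ, ∑ j ∈ Finset.range (n + 1), (t ^ j) • c j = (t ^ k) • R t := by
      intro t
      have e : n + 1 = k + (n + 1 - k) := by omega
      rw [e, Finset.sum_range_add, Finset.smul_sum]
      have h1 : ∑ j ∈ Finset.range k, (t ^ j) • c j = 0 := by
        refine Finset.sum_eq_zero fun j hj => ?_
        rw [Finset.mem_range] at hj
        rw [ih j hj (by omega), smul_zero]
      rw [h1, zero_add]
      refine Finset.sum_congr rfl fun j _ => ?_
      rw [smul_smul, pow_add]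
    have hR0 : R 0 = c k := by
      show ∑ j ∈ Finset.range (n + 1 - k), ((0 : ℝ) ^ j) • c (k + j) = c k
      rw [Finset.sum_eq_single 0]
      · simp
      · intro j _ hj
        simp [hj]
      · intro hj
        exfalso
        apply hj
        rw [Finset.mem_range]
        omega
    have hRc : Continuous R := by
      refine continuous_finsetSum _ fun j _ => ?_
      exact (continuous_pow j).smul continuous_const
    have hlim : Tendsto (fun t => ‖R t‖) (𝓝[≠] (0 : ℝ)) (𝓝 ‖R 0‖) :=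
      (hRc.norm.tendsto 0).mono_left nhdsWithin_le_nhds
    have hle : ∀ ε : ℝ, 0 < ε → ‖R 0‖ ≤ ε := by
      intro ε hε
      refine le_of_tendsto hlim ?_
      have h2 := nhdsWithin_le_nhds (s := {(0 : ℝ)}ᶜ) (h.def hε)
      have h3 : ∀ᶠ t : ℝ in 𝓝[≠] (0 : ℝ), |t| < 1 := by
        refine nhdsWithin_le_nhds ?_
        have : Metric.ball (0 : ℝ) 1 ∈ 𝓝 (0 : ℝ) := Metric.ball_mem_nhds _ one_pos
        filter_upwards [this] with t ht
        simpa [Real.dist_eq] using ht
      filter_upwards [h2, h3, self_mem_nhdsWithin] with t h4 h5 h6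
      have ht0 : 0 < |t| := abs_pos.2 h6
      have h4' : ‖∑ j ∈ Finset.range (n + 1), (t ^ j) • c j‖ ≤ ε * ‖t ^ n‖ := h4
      rw [hQ, norm_smul, Real.norm_eq_abs, Real.norm_eq_abs, abs_pow, abs_pow] at h4'
      have e3 : |t| ^ n = |t| ^ k * |t| ^ (n - k) := by
        rw [← pow_add]
        congr 1
        omega
      rw [e3] at h4'
      have h7 : |t| ^ (n - k) ≤ 1 := pow_le_one₀ ht0.le h5.le
      have h8 : 0 < |t| ^ k := pow_pos ht0 k
      have h9 : |t| ^ k * ‖R t‖ ≤ |t| ^ k * ε := by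
        calc |t| ^ k * ‖R t‖ ≤ ε * (|t| ^ k * |t| ^ (n - k)) := h4'
          _ = (|t| ^ k * ε) * |t| ^ (n - k) := by ring
          _ ≤ (|t| ^ k * ε) * 1 := mul_le_mul_of_nonneg_left h7 (by positivity)
          _ = |t| ^ k * ε := mul_one _
      exact le_of_mul_le_mul_left h9 h8
    have h0 : ‖R 0‖ ≤ 0 := le_of_forall_pos_le_add fun ε hε => by
      rw [zero_add]
      exact hle ε hε
    rw [← hR0]
    exact norm_le_zero_iff.1 h0

theorem taylor_compare (n : ℕ) (x y : ℝ → ℂ) (hx : ContDiffAt ℝ n x 0) (hy : ContDiffAt ℝ n y 0)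
    (h : ∃ B r : ℝ, 0 < r ∧ ∀ t, |t| ≤ r → ‖x t - y t‖ ≤ B * |t| ^ (n + 1)) :
    iteratedDeriv n x 0 = iteratedDeriv n y 0 := by
  obtain ⟨B, r, hr, hB⟩ := h
  have hg : ContDiffAt ℝ n (x - y) 0 := hx.sub hy
  obtain ⟨u, hu, hgu⟩ := hg.contDiffOn le_rfl (by simp)
  obtain ⟨ρ, hρ, hball⟩ := Metric.mem_nhds_iff.1 hu
  have hs : Convex ℝ (Metric.ball (0 : ℝ) ρ) := convex_ball _ _
  have h0s : (0 : ℝ) ∈ Metric.ball (0 : ℝ) ρ := Metric.mem_ball_self hρ
  have hT := taylor_isLittleO hs h0s (hgu.mono hball)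
  have hnh : 𝓝[Metric.ball (0 : ℝ) ρ] (0 : ℝ) = 𝓝 0 :=
    Metric.isOpen_ball.nhdsWithin_eq h0s
  rw [hnh] at hT
  simp only [sub_zero] at hT
  have hgo : (x - y) =o[𝓝 (0 : ℝ)] fun t : ℝ => t ^ n := by
    have h1 : (x - y) =O[𝓝 (0 : ℝ)] fun t : ℝ => t ^ (n + 1) := by
      refine Asymptotics.IsBigO.of_bound B ?_
      have : Metric.ball (0 : ℝ) r ∈ 𝓝 (0 : ℝ) := Metric.ball_mem_nhds _ hr
      filter_upwards [this] with t ht
      have ht' : |t| < r := by simpa [Real.dist_eq] using ht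
      rw [Real.norm_eq_abs, abs_pow]
      exact hB t ht'.le
    refine h1.trans_isLittleO ?_
    have h2 : (fun t : ℝ => t ^ (n + 1)) = fun t : ℝ => t ^ n * t := by
      funext t
      ring
    rw [h2]
    have h3 : (fun t : ℝ => t ^ n * t) =o[𝓝 (0 : ℝ)] fun t : ℝ => t ^ n * 1 := by
      refine (Asymptotics.isBigO_refl _ _).mul_isLittleO ?_
      rw [Asymptotics.isLittleO_one_iff]
      exact tendsto_id
    simpa using h3
  have hP := hgo.sub hT
  have hP' : (fun t : ℝ => ∑ k ∈ Finset.range (n + 1),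
      (t ^ k) • (((Nat.factorial k : ℝ)⁻¹) •
        iteratedDerivWithin k (x - y) (Metric.ball (0 : ℝ) ρ) 0)) =o[𝓝 0] fun t : ℝ => t ^ n := by
    refine hP.congr_left ?_
    intro t
    rw [sub_sub_cancel, taylor_within_apply]
    refine Finset.sum_congr rfl fun k _ => ?_
    rw [sub_zero, smul_smul, mul_comm]
  have hc := poly_zero_352 n _ hP' n le_rfl
  have hfac : ((Nat.factorial n : ℝ)⁻¹) ≠ 0 := inv_ne_zero (by exact_mod_cast Nat.factorial_ne_zero n)
  have hd := (smul_eq_zero.1 hc).resolve_left hfac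
  rw [iteratedDerivWithin_of_isOpen Metric.isOpen_ball h0s, iteratedDeriv_sub hx hy] at hd
  exact sub_eq_zero.1 hd

end JT7

end Pool.Agent.Helper118.Yud
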