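import Pool.Agent.Helper118.Yud.Defs

set_option autoImplicit false

namespace Pool.Agent.Helper118.Yud

open MeasureTheory Complex Set Filter Topology

/-! ### Trigonometric polynomials and the formal Euler series -/

/-- trigonometric polynomials -/
abbrev TP := AddMonoidAlgebra ℂ (ℤ × ℤ)

/-- Fourier multiplier -/
noncomputable def mult (m : ℤ × ℤ → ℂ) (f : TP) : TP :=
  AddMonoidAlgebra.ofCoeff (Finsupp.onFinset f.coeff.support (fun k => m k * f.coeff k)
    (fun k hk => by
      rw [Finsupp.mem_support_iff]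
      intro h
      exact hk (by rw [h, mul_zero])))

/-- evaluation on the torus -/
noncomputable def ev (f : TP) (x : T2) : ℂ := f.coeff.sum fun k a => a * ek k x

/-- complex velocity `u₁ + i u₂` of a vorticity -/
noncomputable def Uv (f : TP) : TP := mult (fun k => if k = 0 then 0 else
  1 / (2 * (Real.pi : ℂ) * ((k.1 : ℂ) - (k.2 : ℂ) * I))) f
/-- its formal conjugate `u₁ - i u₂` -/
noncomputable def Vv (f : TP) : TP := mult (fun k => if k = 0 then 0 else
  -(1 / (2 * (Real.pi : ℂ) * ((k.1 : ℂ) + (k.2 : ℂ) * I)))) f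
/-- `∂_z` and `∂_{\bar z}` -/
noncomputable def Dz (f : TP) : TP := mult (fun k => (Real.pi : ℂ) * I * ((k.1 : ℂ) - (k.2 : ℂ) * I)) f
noncomputable def Db (f : TP) : TP := mult (fun k => (Real.pi : ℂ) * I * ((k.1 : ℂ) + (k.2 : ℂ) * I)) f
/-- transport `u·∇ g` of `g` by the velocity of the vorticity `w` -/
noncomputable def tr (w g : TP) : TP := Uv w * Dz g + Vv w * Db g

/-- formal power series (in time) solution of the vorticity equation -/
noncomputable def Sf (f : TP) : ℕ → TP
  | 0 => f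
  | (l + 1) => -((1 / ((l : ℂ) + 1)) • ∑ i : Fin (l + 1), tr (Sf f i) (Sf f (l - i)))
termination_by l => l
decreasing_by all_goals omega

/-- truncation -/
noncomputable def tc (m : ℕ) (f : TP) (l : ℕ) : TP := if l ≤ m then Sf f l else 0

/-- iterated material derivatives of the velocity of the time dependent vorticity `Σ t^l s_l` -/
noncomputable def Gf (s : ℕ → TP) : ℕ → ℕ → TP
  | 0 => fun l => Uv (s l)
  | (k + 1) => fun l => ((l : ℂ) + 1) • Gf s k (l + 1)
      + ∑ i ∈ Finset.range (l + 1), tr (s i) (Gf s k (l - i))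

/-- homogeneous dependence of degree `d` on two real parameters -/
def Hom (d : ℕ) (F : ℝ → ℝ → TP) : Prop :=
  ∃ a : ℕ → TP, ∀ σ1 σ2 : ℝ, F σ1 σ2 =
    ∑ j ∈ Finset.range (d + 1), ((σ1 : ℂ) ^ (d - j) * (σ2 : ℂ) ^ j) • a j

/-- conjugation symmetry of the coefficients -/
def IsR (f : TP) : Prop := ∀ k, f.coeff (-k) = (starRingEnd ℂ) (f.coeff k)

/-- vorticity of the truncated series at time `t` -/
noncomputable def Wt (m : ℕ) (f : TP) (t : ℝ) : TP :=
  ∑ l ∈ Finset.range (m + 1), ((t : ℂ) ^ l) • Sf f l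

/-- velocity of the truncated series -/
noncomputable def ut (m : ℕ) (f : TP) (t : ℝ) (x : T2) : ℂ := ev (Uv (Wt m f t)) x

/-- real-linear map `w ↦ A w + B conj w` -/
noncomputable def dfl (A B : ℂ) : ℂ →L[ℝ] ℂ :=
  A • (ContinuousLinearMap.id ℝ ℂ) + B • (Complex.conjCLE : ℂ →L[ℝ] ℂ)

end Pool.Agent.Helper118.Yud
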