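import Pool.Agent.Helper383.TY.WH

set_option autoImplicit false

open MeasureTheory Complex Set Filter Topology

namespace Pool.Agent.Helper118.Yud


namespace JW0

theorem per_int (F : ℝ → ℝ → ℝ) (hF : Per F) (x y : ℝ) (n k : ℤ) :
    F (x + n) (y + k) = F x y := by
  have h1 : Function.Periodic (fun x => F x (y + k)) 1 := fun x => (hF x (y + k)).1
  have h2 : Function.Periodic (fun y => F x y) 1 := fun y => (hF x y).2
  have e1 := h1.int_mul n x
  have e2 := h2.int_mul k y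
  rw [mul_one] at e1 e2
  exact Eq.trans e1 e2

theorem rp_coe (x : ℝ) : ∃ n : ℤ, rp (x : UnitAddCircle) = x + n := by
  have h1 : ((rp (x : UnitAddCircle) : ℝ) : UnitAddCircle) = (x : UnitAddCircle) :=
    AddCircle.coe_equivIco
  have h2 : -x + rp (x : UnitAddCircle) ∈ AddSubgroup.zmultiples (1 : ℝ) :=
    QuotientAddGroup.eq.mp h1.symm
  rw [AddSubgroup.mem_zmultiples_iff] at h2
  obtain ⟨k, hk⟩ := h2
  refine ⟨k, ?_⟩
  rw [zsmul_eq_mul, mul_one] at hk
  linarith

theorem ds_coe (F : ℝ → ℝ → ℝ) (hF : Per F) (x y : ℝ) :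
    ds F ((x : UnitAddCircle), (y : UnitAddCircle)) = F x y := by
  obtain ⟨n, hn⟩ := rp_coe x
  obtain ⟨k, hk⟩ := rp_coe y
  unfold ds
  show F (rp (x : UnitAddCircle)) (rp (y : UnitAddCircle)) = F x y
  rw [hn, hk, per_int F hF]

theorem ds_add_pr (F : ℝ → ℝ → ℝ) (hF : Per F) (p : T2) (z : ℂ) :
    ds F (p + pr z) = F (rp p.1 + z.re) (rp p.2 + z.im) := by
  have h1 : ∀ x : UnitAddCircle, ((rp x : ℝ) : UnitAddCircle) = x := fun x =>
    AddCircle.coe_equivIco
  have h2 : p + pr z = (((rp p.1 + z.re : ℝ) : UnitAddCircle),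
      ((rp p.2 + z.im : ℝ) : UnitAddCircle)) := by
    refine Prod.ext ?_ ?_
    · show p.1 + (z.re : UnitAddCircle) = ((rp p.1 + z.re : ℝ) : UnitAddCircle)
      rw [AddCircle.coe_add, h1]
    · show p.2 + (z.im : UnitAddCircle) = ((rp p.2 + z.im : ℝ) : UnitAddCircle)
      rw [AddCircle.coe_add, h1]
  rw [h2, ds_coe F hF]

theorem continuous_ds2 (F : ℝ → ℝ → ℝ → ℝ) (hF : ∀ t, Per (F t))
    (hc : Continuous (fun q : ℝ × ℝ × ℝ => F q.1 q.2.1 q.2.2)) :
    Continuous (fun q : ℝ × T2 => ds (F q.1) q.2) := by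
  have hq : IsOpenQuotientMap (fun x : ℝ => (x : UnitAddCircle)) :=
    QuotientAddGroup.isOpenQuotientMap_mk
  have hQ : IsOpenQuotientMap (Prod.map (id : ℝ → ℝ)
      (Prod.map (fun x : ℝ => (x : UnitAddCircle)) (fun x : ℝ => (x : UnitAddCircle)))) :=
    IsOpenQuotientMap.id.prodMap (hq.prodMap hq)
  rw [← hQ.continuous_comp_iff]
  have h1 : (fun q : ℝ × T2 => ds (F q.1) q.2) ∘ (Prod.map (id : ℝ → ℝ)
      (Prod.map (fun x : ℝ => (x : UnitAddCircle)) (fun x : ℝ => (x : UnitAddCircle)))) =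
      fun q : ℝ × ℝ × ℝ => F q.1 q.2.1 q.2.2 := by
    funext q
    exact ds_coe (F q.1) (hF q.1) q.2.1 q.2.2
  rw [h1]
  exact hc

theorem continuous_ds (F : ℝ → ℝ → ℝ) (hF : Per F)
    (hc : Continuous (fun q : ℝ × ℝ => F q.1 q.2)) : Continuous (ds F) := by
  have h1 := continuous_ds2 (fun _ => F) (fun _ => hF) (hc.comp continuous_snd)
  exact h1.comp (continuous_const (y := (0 : ℝ)).prodMk continuous_id)

theorem integral_T2 (g : T2 → ℝ) (hg : Continuous g) :
    ∫ p, g p = ∫ x in (0:ℝ)..1, ∫ y in (0:ℝ)..1, g ((x : UnitAddCircle), (y : UnitAddCircle)) := by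
  have hint : Integrable g (volume : Measure T2) :=
    hg.integrable_of_hasCompactSupport (HasCompactSupport.of_compactSpace g)
  have e1 : ∀ f : UnitAddCircle → ℝ, ∫ a in (0 : ℝ)..1, f a = ∫ b : UnitAddCircle, f b := by
    intro f
    have := UnitAddCircle.intervalIntegral_preimage 0 f
    rwa [zero_add] at this
  have e2 : ∀ x : ℝ, ∫ y in (0:ℝ)..1, g ((x : UnitAddCircle), (y : UnitAddCircle)) =
      ∫ b : UnitAddCircle, g ((x : UnitAddCircle), b) := fun x =>
    e1 (fun b => g ((x : UnitAddCircle), b))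
  simp_rw [e2]
  rw [e1 (fun a => ∫ b : UnitAddCircle, g (a, b)), Measure.volume_eq_prod,
    integral_prod g (by rw [← Measure.volume_eq_prod]; exact hint)]

end JW0

end Pool.Agent.Helper118.Yud
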