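import Pool.Agent.Helper383.TY.TD
import Pool.Agent.Helper383.TY.T2a

set_option autoImplicit false

open MeasureTheory Complex Set Filter Topology

namespace Pool.Agent.Helper118.Yud

open JT2a (ek_add ek_sub_arg ek_conj continuous_ek ev_zero ev_add ev_neg ev_smul ev_sum ev_mul continuous_ev ev_bdd mult_add mult_smul mult_sum ev_mult)

namespace JW1

theorem ev_single' (k : ℤ × ℤ) (x : T2) :
    ev (AddMonoidAlgebra.single k (1 : ℂ)) x = ek k x := by
  unfold ev
  rw [AddMonoidAlgebra.coeff_single, Finsupp.sum_single_index] <;> simp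

theorem ek_zero' (x : T2) : ek 0 x = 1 := by
  unfold ek; simp

/-- formal conjugate -/
noncomputable def cjTP (f : TP) : TP :=
  ∑ k ∈ f.coeff.support, ((starRingEnd ℂ) (f.coeff k)) • AddMonoidAlgebra.single (-k) (1 : ℂ)

theorem ev_cjTP (f : TP) (x : T2) : ev (cjTP f) x = (starRingEnd ℂ) (ev f x) := by
  unfold cjTP
  rw [ev_sum]
  have : ev f x = ∑ k ∈ f.coeff.support, f.coeff k * ek k x := rfl
  rw [this, map_sum]
  refine Finset.sum_congr rfl fun k _ => ?_
  rw [ev_smul, ev_single', map_mul, ek_conj]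

/-- the star subalgebra of trigonometric polynomials -/
noncomputable def trigSA : StarSubalgebra ℂ C(T2, ℂ) where
  carrier := {F | ∃ f : TP, ∀ x, F x = ev f x}
  mul_mem' := by
    rintro F G ⟨f, hf⟩ ⟨g, hg⟩
    exact ⟨f * g, fun x => by rw [ev_mul, ContinuousMap.mul_apply, hf, hg]⟩
  add_mem' := by
    rintro F G ⟨f, hf⟩ ⟨g, hg⟩
    exact ⟨f + g, fun x => by rw [ev_add, ContinuousMap.add_apply, hf, hg]⟩
  algebraMap_mem' := fun r =>
    ⟨r • AddMonoidAlgebra.single 0 (1 : ℂ), fun x => by
      rw [ev_smul, ev_single', ek_zero', mul_one]; rfl⟩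
  star_mem' := by
    rintro F ⟨f, hf⟩
    exact ⟨cjTP f, fun x => by rw [ev_cjTP, ← hf x]; rfl⟩

theorem trigSA_sep : trigSA.SeparatesPoints := by
  intro x y hxy
  have hT : (1 : ℝ) ≠ 0 := one_ne_zero
  by_cases h1 : x.1 = y.1
  · have h2 : x.2 ≠ y.2 := fun h => hxy (Prod.ext h1 h)
    refine ⟨_, ⟨⟨ek (0, 1), continuous_ek _⟩,
      ⟨AddMonoidAlgebra.single (0, 1) (1 : ℂ), fun z => (ev_single' _ z).symm⟩, rfl⟩, ?_⟩
    change ek (0, 1) x ≠ ek (0, 1) y
    unfold ek
    simp only [fourier_zero, one_mul, fourier_one]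
    intro h
    rw [Circle.coe_inj] at h
    exact h2 (AddCircle.injective_toCircle hT h)
  · refine ⟨_, ⟨⟨ek (1, 0), continuous_ek _⟩,
      ⟨AddMonoidAlgebra.single (1, 0) (1 : ℂ), fun z => (ev_single' _ z).symm⟩, rfl⟩, ?_⟩
    change ek (1, 0) x ≠ ek (1, 0) y
    unfold ek
    simp only [fourier_zero, mul_one, fourier_one]
    intro h
    rw [Circle.coe_inj] at h
    exact h1 (AddCircle.injective_toCircle hT h)

theorem integral_fourier' (n : ℤ) :
    ∫ x : UnitAddCircle, (fourier n x : ℂ) = if n = 0 then 1 else 0 := by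
  split_ifs with h
  · subst h
    simp [measureReal_def]
  · have h1 := fourier_add_half_inv_index (T := (1:ℝ)) h (by norm_num)
    exact integral_eq_zero_of_add_right_eq_neg h1

theorem integral_ek' (k : ℤ × ℤ) : ∫ x : T2, ek k x = if k = 0 then 1 else 0 := by
  unfold ek
  have : ∫ x : T2, (fourier k.1 x.1 : ℂ) * fourier k.2 x.2 =
      (∫ x : UnitAddCircle, (fourier k.1 x : ℂ)) * (∫ x : UnitAddCircle, (fourier k.2 x : ℂ)) := by
    exact integral_prod_mul (fun x : UnitAddCircle => (fourier k.1 x : ℂ))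
      (fun x : UnitAddCircle => (fourier k.2 x : ℂ))
  rw [this, integral_fourier', integral_fourier']
  by_cases h1 : k.1 = 0
  · by_cases h2 : k.2 = 0
    · have : k = 0 := Prod.ext h1 h2
      simp [this]
    · have : k ≠ 0 := fun h => h2 (by rw [h]; rfl)
      simp [h2, this]
  · have : k ≠ 0 := fun h => h1 (by rw [h]; rfl)
    simp [h1, this]

theorem prob_T2 : IsProbabilityMeasure (volume : Measure T2) := by
  have : IsProbabilityMeasure (volume : Measure UnitAddCircle) := ⟨UnitAddCircle.measure_univ⟩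
  exact inferInstanceAs (IsProbabilityMeasure
    ((volume : Measure UnitAddCircle).prod (volume : Measure UnitAddCircle)))

theorem integrable_cont {F : T2 → ℂ} (hF : Continuous F) : Integrable F (volume : Measure T2) := by
  have := prob_T2
  exact hF.integrable_of_hasCompactSupport (HasCompactSupport.of_compactSpace F)

theorem integral_ev (f : TP) : ∫ x : T2, ev f x = f.coeff 0 := by
  have e : ∀ x, ev f x = ∑ k ∈ f.coeff.support, f.coeff k * ek k x := fun x => rfl
  simp only [e]
  rw [integral_finsetSum _ fun k _ => (integrable_cont (continuous_ek k)).const_mul _]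
  simp only [integral_const_mul, integral_ek']
  simp only [mul_ite, mul_one, mul_zero, Finset.sum_ite_eq', Finsupp.mem_support_iff]
  split_ifs with h
  · rfl
  · push Not at h
    exact h.symm

/-- uniform approximation of continuous zero mean real functions by trigonometric polynomials -/
theorem trig_dense (g : T2 → ℝ) (hg : Continuous g) (h0 : ∫ x, g x = 0) (ε : ℝ) (hε : 0 < ε) :
    ∃ f : TP, IsR f ∧ f.coeff 0 = 0 ∧ ∀ x, ‖(g x : ℂ) - ev f x‖ ≤ ε := by
  have := prob_T2
  have hcl := ContinuousMap.starSubalgebra_topologicalClosure_eq_top_of_separatesPoints trigSA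
    trigSA_sep
  set G : C(T2, ℂ) := ⟨fun x => (g x : ℂ), Complex.continuous_ofReal.comp hg⟩ with hG
  have hmem : G ∈ closure (trigSA : Set C(T2, ℂ)) := by
    rw [← StarSubalgebra.topologicalClosure_coe, hcl]
    trivial
  obtain ⟨F, ⟨f0, hf0⟩, hF⟩ := Metric.mem_closure_iff.1 hmem (ε / 2) (by positivity)
  have hF' : ∀ x, ‖(g x : ℂ) - ev f0 x‖ ≤ ε / 2 := by
    intro x
    rw [← hf0 x, ← dist_eq_norm]
    exact (ContinuousMap.dist_apply_le_dist (f := G) (g := F) x).trans hF.le
  -- the real part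
  set p : T2 → ℝ := fun x => (ev f0 x).re with hp
  have hptrig : IsTrig p := by
    refine ⟨((1 / 2 : ℂ) • (f0 + cjTP f0)).coeff, fun x => ?_⟩
    change (p x : ℂ) = ev ((1 / 2 : ℂ) • (f0 + cjTP f0)) x
    rw [ev_smul, ev_add, ev_cjTP, hp, Complex.re_eq_add_conj]
    ring
  obtain ⟨f1, hR, hf1⟩ := IsTrig.exists_ev p hptrig
  have hgp : ∀ x, |g x - p x| ≤ ε / 2 := by
    intro x
    refine le_trans ?_ (hF' x)
    have := Complex.abs_re_le_norm ((g x : ℂ) - ev f0 x)
    rwa [Complex.sub_re, Complex.ofReal_re] at this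
  have hpc : Continuous p := Complex.continuous_re.comp (continuous_ev f0)
  have ip : Integrable p (volume : Measure T2) :=
    hpc.integrable_of_hasCompactSupport (HasCompactSupport.of_compactSpace p)
  have ig : Integrable g (volume : Measure T2) :=
    hg.integrable_of_hasCompactSupport (HasCompactSupport.of_compactSpace g)
  have hmean : ‖f1.coeff 0‖ ≤ ε / 2 := by
    rw [← integral_ev]
    have e1 : ∫ x, ev f1 x = ((∫ x, p x : ℝ) : ℂ) := by
      rw [← integral_complex_ofReal]
      congr 1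
      funext x
      exact (hf1 x).symm
    rw [e1, Complex.norm_real]
    have e2 : ∫ x, p x = ∫ x, (p x - g x) := by
      rw [integral_sub ip ig, h0, sub_zero]
    rw [e2]
    have h3 := norm_integral_le_of_norm_le_const (μ := (volume : Measure T2))
      (f := fun x => p x - g x) (C := ε / 2) (Filter.Eventually.of_forall fun x => by
        rw [Real.norm_eq_abs, abs_sub_comm]; exact hgp x)
    simpa using h3
  have hreal : (starRingEnd ℂ) (f1.coeff 0) = f1.coeff 0 := by
    have := hR 0
    rw [neg_zero] at this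
    exact this.symm
  refine ⟨f1 - (f1.coeff 0) • AddMonoidAlgebra.single 0 (1 : ℂ), ?_, ?_, ?_⟩
  · intro k
    rw [AddMonoidAlgebra.coeff_sub, AddMonoidAlgebra.coeff_smul, AddMonoidAlgebra.coeff_single]
    simp only [Finsupp.coe_sub, Finsupp.coe_smul, Pi.sub_apply, Pi.smul_apply, smul_eq_mul,
      Finsupp.single_apply, map_sub, map_mul, hreal, hR k]
    by_cases hk : k = 0
    · simp [hk]
    · have h1 : ¬ (0 = k) := fun h => hk h.symm
      have h2 : ¬ (0 = -k) := fun h => hk (by rw [← neg_neg k, ← h, neg_zero])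
      simp [h1, h2]
  · rw [AddMonoidAlgebra.coeff_sub, AddMonoidAlgebra.coeff_smul, AddMonoidAlgebra.coeff_single]
    simp
  · intro x
    have e3 : ev (f1 - (f1.coeff 0) • AddMonoidAlgebra.single 0 (1 : ℂ)) x = (p x : ℂ) - f1.coeff 0 := by
      rw [sub_eq_add_neg, ev_add, ev_neg, ev_smul, ev_single', ek_zero', mul_one, ← hf1 x]
      ring
    rw [e3]
    have e4 : (g x : ℂ) - ((p x : ℂ) - f1.coeff 0) = ((g x - p x : ℝ) : ℂ) + f1.coeff 0 := by
      push_cast; ring
    rw [e4]
    refine (norm_add_le _ _).trans ?_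
    rw [Complex.norm_real, Real.norm_eq_abs]
    linarith [hgp x, hmean]

end JW1

end Pool.Agent.Helper118.Yud
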