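import Pool.Agent.Helper383.TY.WDefs
import Pool.Agent.Helper118.Yud.Defs

set_option autoImplicit false

namespace Pool.Agent.Helper118.Yud

open MeasureTheory Complex Set Filter Topology

/-- representative in `[0,1)` -/
noncomputable def rp (x : UnitAddCircle) : ℝ := (AddCircle.equivIco 1 0 x : ℝ)

/-- a periodic function as a function on the torus -/
noncomputable def ds (F : ℝ → ℝ → ℝ) (p : T2) : ℝ := F (rp p.1) (rp p.2)

/-- classical zero mean velocity `(U,V)` with vorticity `W` -/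
structure Clas (U V W : ℝ → ℝ → ℝ) : Prop where
  perU : Per U
  perV : Per V
  perW : Per W
  cU : ContDiff ℝ (⊤ : ℕ∞) (fun q : ℝ × ℝ => U q.1 q.2)
  cV : ContDiff ℝ (⊤ : ℕ∞) (fun q : ℝ × ℝ => V q.1 q.2)
  cW : ContDiff ℝ (⊤ : ℕ∞) (fun q : ℝ × ℝ => W q.1 q.2)
  div : ∀ x y, deriv (fun s => U s y) x + deriv (fun s => V x s) y = 0
  curl : ∀ x y, deriv (fun s => V s y) x - deriv (fun s => U x s) y = W x y
  meanU : ∫ x in (0:ℝ)..1, ∫ y in (0:ℝ)..1, U x y = 0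
  meanV : ∫ x in (0:ℝ)..1, ∫ y in (0:ℝ)..1, V x y = 0

/-- uniform limits of classical triples -/
structure UAp (u v w : ℝ → ℝ → ℝ) : Prop where
  peru : Per u
  perv : Per v
  perw : Per w
  cu : Continuous (fun q : ℝ × ℝ => u q.1 q.2)
  cv : Continuous (fun q : ℝ × ℝ => v q.1 q.2)
  cw : Continuous (fun q : ℝ × ℝ => w q.1 q.2)
  ap : ∀ ε : ℝ, 0 < ε → ∃ U V W : ℝ → ℝ → ℝ, Clas U V W ∧
    ∀ x y, |U x y - u x y| ≤ ε ∧ |V x y - v x y| ≤ ε ∧ |W x y - w x y| ≤ ε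

end Pool.Agent.Helper118.Yud
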