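import Pool.Agent.Helper383.TY.TD
import Pool.Agent.Helper383.TY.WH
import Pool.Agent.Helper383.TY.T2a
import Pool.Agent.Helper383.TY.T2b
import Pool.Agent.Helper383.TY.T2c

set_option autoImplicit false

open MeasureTheory Complex Set Filter Topology

namespace Pool.Agent.Helper118.Yud

open JT2a (ek_add ek_sub_arg ek_conj continuous_ek ev_zero ev_add ev_neg ev_smul ev_sum ev_mul continuous_ev ev_bdd mult_add mult_smul mult_sum ev_mult)
open JT2b (ev_conj ev_Uv_conj re_ev_Dz_Uv)
open JT2c (hasFDerivAt_ev norm_dfl_le dfl_one dfl_I dfl_apply)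

namespace JW2

theorem w2_ek (k : ℤ × ℤ) (x y : ℝ) : ek k ((x : UnitAddCircle), (y : UnitAddCircle)) =
    Complex.exp (2 * (Real.pi : ℂ) * I * ((k.1 : ℂ) * x + (k.2 : ℂ) * y)) := by
  simp only [ek, fourier_coe_apply]
  rw [← Complex.exp_add]
  congr 1
  push_cast
  ring

theorem w2_ev (g : TP) (x y : ℝ) : ev g ((x : UnitAddCircle), (y : UnitAddCircle)) =
    ∑ k ∈ g.coeff.support, g.coeff k *
      Complex.exp (2 * (Real.pi : ℂ) * I * ((k.1 : ℂ) * x + (k.2 : ℂ) * y)) := by
  unfold ev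
  rw [Finsupp.sum]
  exact Finset.sum_congr rfl fun k _ => by rw [w2_ek]

theorem w2_contDiff (g : TP) : ContDiff ℝ (⊤ : ℕ∞)
    (fun q : ℝ × ℝ => ev g ((q.1 : UnitAddCircle), (q.2 : UnitAddCircle))) := by
  simp only [w2_ev]
  refine ContDiff.sum fun k _ => ContDiff.mul contDiff_const ?_
  refine ContDiff.cexp ?_
  refine ContDiff.mul contDiff_const ?_
  exact (contDiff_const.mul (Complex.ofRealCLM.contDiff.comp contDiff_fst)).add
    (contDiff_const.mul (Complex.ofRealCLM.contDiff.comp contDiff_snd))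

theorem w2_arg (x y : ℝ) : (0 : T2) + pr ((x : ℂ) + (y : ℂ) * I) =
    ((x : UnitAddCircle), (y : UnitAddCircle)) := by
  rw [zero_add]
  unfold pr
  simp

theorem w2_px (g : TP) (x y : ℝ) :
    HasDerivAt (fun s : ℝ => ev g ((s : UnitAddCircle), (y : UnitAddCircle)))
    (ev (Dz g) ((x : UnitAddCircle), (y : UnitAddCircle)) +
      ev (Db g) ((x : UnitAddCircle), (y : UnitAddCircle))) x := by
  have h := hasFDerivAt_ev g 0 ((x : ℂ) + (y : ℂ) * I)
  have h2 : HasDerivAt (fun s : ℝ => (s : ℂ) + (y : ℂ) * I) 1 x :=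
    (Complex.ofRealCLM.hasDerivAt (x := x)).add_const _
  have h3 := h.comp_hasDerivAt x h2
  rw [dfl_one, w2_arg] at h3
  refine h3.congr_of_eventuallyEq (Filter.Eventually.of_forall fun s => ?_)
  simp only [Function.comp, w2_arg]

theorem w2_py (g : TP) (x y : ℝ) :
    HasDerivAt (fun s : ℝ => ev g ((x : UnitAddCircle), (s : UnitAddCircle)))
    ((ev (Dz g) ((x : UnitAddCircle), (y : UnitAddCircle)) -
      ev (Db g) ((x : UnitAddCircle), (y : UnitAddCircle))) * I) y := by
  have h := hasFDerivAt_ev g 0 ((x : ℂ) + (y : ℂ) * I)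
  have h2 : HasDerivAt (fun s : ℝ => (x : ℂ) + (s : ℂ) * I) I y := by
    have h4 : HasDerivAt (fun s : ℝ => (s : ℂ)) 1 y := Complex.ofRealCLM.hasDerivAt (x := y)
    have h5 := (h4.mul_const I).const_add (x : ℂ)
    rw [one_mul] at h5
    exact h5
  have h3 := h.comp_hasDerivAt y h2
  rw [dfl_I, w2_arg] at h3
  refine h3.congr_of_eventuallyEq (Filter.Eventually.of_forall fun s => ?_)
  simp only [Function.comp, w2_arg]

theorem w2_re {F : ℝ → ℂ} {c : ℂ} {x : ℝ} (h : HasDerivAt F c x) :
    HasDerivAt (fun s => (F s).re) c.re x := by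
  have := (Complex.reCLM.hasFDerivAt (x := F x)).comp_hasDerivAt x h
  exact this

theorem w2_im {F : ℝ → ℂ} {c : ℂ} {x : ℝ} (h : HasDerivAt F c x) :
    HasDerivAt (fun s => (F s).im) c.im x := by
  have := (Complex.imCLM.hasFDerivAt (x := F x)).comp_hasDerivAt x h
  exact this

theorem w2_A (f : TP) (h0 : f.coeff 0 = 0) (x : T2) :
    ev (Dz (Uv f)) x = (I / 2) * ev f x := by
  have hmul : Dz (Uv f) = mult (fun k => if k = 0 then 0 else I / 2) f := by
    unfold Dz Uv mult
    ext k
    simp only [Finsupp.onFinset_apply]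
    by_cases hk : k = 0
    · simp [hk]
    · have hne : ((k.1 : ℂ) - (k.2 : ℂ) * I) ≠ 0 := by
        intro h
        apply hk
        have h1 := congrArg Complex.re h
        have h2 := congrArg Complex.im h
        simp at h1 h2
        exact Prod.ext h1 h2
      have hpi : (Real.pi : ℂ) ≠ 0 := by exact_mod_cast Real.pi_ne_zero
      have hne' : ((k.1 : ℂ) - I * (k.2 : ℂ)) ≠ 0 := by
        rw [mul_comm I]; exact hne
      simp only [hk, if_false]
      field_simp
  rw [hmul, ev_mult]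
  unfold ev
  rw [Finsupp.sum, Finsupp.sum, Finset.mul_sum]
  refine Finset.sum_congr rfl fun k _ => ?_
  by_cases hk : k = 0
  · simp [hk, h0]
  · simp only [hk, if_false]
    ring

theorem w2_int (n : ℤ) : ∫ y in (0:ℝ)..1, Complex.exp (2 * (Real.pi : ℂ) * I * ((n : ℂ) * y)) =
    if n = 0 then 1 else 0 := by
  by_cases hn : n = 0
  · simp [hn]
  · rw [if_neg hn]
    have hc : (2 * (Real.pi : ℂ) * I * (n : ℂ)) ≠ 0 := by
      have hpi : (Real.pi : ℂ) ≠ 0 := by exact_mod_cast Real.pi_ne_zero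
      have hn' : (n : ℂ) ≠ 0 := by exact_mod_cast hn
      have hI := Complex.I_ne_zero
      simp [hpi, hn']
    have := integral_exp_mul_complex (a := 0) (b := 1) hc
    have h2 : ∀ y : ℝ, 2 * (Real.pi : ℂ) * I * ((n : ℂ) * y) = 2 * (Real.pi : ℂ) * I * (n : ℂ) * y := by
      intro y; ring
    simp only [h2]
    rw [this]
    have h3 : Complex.exp (2 * (Real.pi : ℂ) * I * (n : ℂ) * ((1:ℝ) : ℂ)) = 1 := by
      have := Complex.exp_int_mul_two_pi_mul_I n
      rw [← this]
      congr 1
      push_cast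
      ring
    rw [h3]
    simp

theorem w2_inner (g : TP) (x : ℝ) :
    ∫ y in (0:ℝ)..1, ev g ((x : UnitAddCircle), (y : UnitAddCircle)) =
    ∑ k ∈ g.coeff.support, (g.coeff k * (if k.2 = 0 then 1 else 0)) *
      Complex.exp (2 * (Real.pi : ℂ) * I * ((k.1 : ℂ) * x)) := by
  simp only [w2_ev]
  rw [intervalIntegral.integral_finsetSum]
  · refine Finset.sum_congr rfl fun k _ => ?_
    rw [intervalIntegral.integral_const_mul]
    have h2 : ∀ y : ℝ, Complex.exp (2 * (Real.pi : ℂ) * I * ((k.1 : ℂ) * x + (k.2 : ℂ) * y)) =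
        Complex.exp (2 * (Real.pi : ℂ) * I * ((k.1 : ℂ) * x)) *
        Complex.exp (2 * (Real.pi : ℂ) * I * ((k.2 : ℂ) * y)) := by
      intro y
      rw [← Complex.exp_add]
      congr 1
      ring
    simp only [h2]
    rw [intervalIntegral.integral_const_mul, w2_int]
    ring
  · intro k _
    apply Continuous.intervalIntegrable
    fun_prop

theorem w2_outer (g : TP) (h0 : g.coeff 0 = 0) :
    ∫ x in (0:ℝ)..1, ∫ y in (0:ℝ)..1, ev g ((x : UnitAddCircle), (y : UnitAddCircle)) = 0 := by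
  simp only [w2_inner]
  rw [intervalIntegral.integral_finsetSum]
  · refine Finset.sum_eq_zero fun k _ => ?_
    rw [intervalIntegral.integral_const_mul, w2_int]
    by_cases h1 : k.1 = 0
    · by_cases h2 : k.2 = 0
      · have : k = 0 := Prod.ext h1 h2
        rw [this, h0]
        simp
      · simp [h2]
    · simp [h1]
  · intro k _
    apply Continuous.intervalIntegrable
    fun_prop

theorem w2_cont (g : TP) : Continuous
    (fun q : ℝ × ℝ => ev g ((q.1 : UnitAddCircle), (q.2 : UnitAddCircle))) :=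
  (w2_contDiff g).continuous

theorem w2_mean (g : TP) (h0 : g.coeff 0 = 0) (L : ℂ →L[ℝ] ℝ) :
    ∫ x in (0:ℝ)..1, ∫ y in (0:ℝ)..1, L (ev g ((x : UnitAddCircle), (y : UnitAddCircle))) = 0 := by
  have h1 : ∀ x : ℝ, ∫ y in (0:ℝ)..1, L (ev g ((x : UnitAddCircle), (y : UnitAddCircle))) =
      L (∫ y in (0:ℝ)..1, ev g ((x : UnitAddCircle), (y : UnitAddCircle))) := by
    intro x
    apply ContinuousLinearMap.intervalIntegral_comp_comm
    apply Continuous.intervalIntegrable
    simp only [w2_ev]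
    fun_prop
  simp only [h1]
  rw [ContinuousLinearMap.intervalIntegral_comp_comm, w2_outer g h0, map_zero]
  apply Continuous.intervalIntegrable
  simp only [w2_inner]
  fun_prop

theorem w2_per (g : TP) (L : ℂ →L[ℝ] ℝ) :
    Per (fun x y => L (ev g ((x : UnitAddCircle), (y : UnitAddCircle)))) := by
  intro x y
  have key : ∀ t : ℝ, ((t + 1 : ℝ) : UnitAddCircle) = (t : UnitAddCircle) := fun t =>
    AddCircle.coe_add_period (1 : ℝ) t
  constructor
  · show L (ev g (((x + 1 : ℝ) : UnitAddCircle), (y : UnitAddCircle))) = _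
    rw [key x]
  · show L (ev g ((x : UnitAddCircle), ((y + 1 : ℝ) : UnitAddCircle))) = _
    rw [key y]

theorem w2_Uv0 (f : TP) : (Uv f).coeff 0 = 0 := by
  unfold Uv mult
  simp [Finsupp.onFinset_apply]

/-- real trigonometric polynomials with zero mean give classical triples -/
theorem clas_of_trig (f : TP) (hf : IsR f) (h0 : f.coeff 0 = 0) :
    Clas (fun x y => (ev (Uv f) ((x : UnitAddCircle), (y : UnitAddCircle))).re)
      (fun x y => (ev (Uv f) ((x : UnitAddCircle), (y : UnitAddCircle))).im)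
      (fun x y => (ev f ((x : UnitAddCircle), (y : UnitAddCircle))).re) := by
  refine ⟨w2_per (Uv f) Complex.reCLM, w2_per (Uv f) Complex.imCLM, w2_per f Complex.reCLM,
    Complex.reCLM.contDiff.comp (w2_contDiff (Uv f)), Complex.imCLM.contDiff.comp (w2_contDiff (Uv f)),
    Complex.reCLM.contDiff.comp (w2_contDiff f), ?_, ?_,
    w2_mean (Uv f) (w2_Uv0 f) Complex.reCLM, w2_mean (Uv f) (w2_Uv0 f) Complex.imCLM⟩
  · intro x y
    rw [(w2_re (w2_px (Uv f) x y)).deriv, (w2_im (w2_py (Uv f) x y)).deriv]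
    have := re_ev_Dz_Uv f hf ((x : UnitAddCircle), (y : UnitAddCircle))
    simp only [Complex.add_re, Complex.mul_im, Complex.sub_re, Complex.sub_im, Complex.I_re,
      Complex.I_im]
    linarith
  · intro x y
    rw [(w2_im (w2_px (Uv f) x y)).deriv, (w2_re (w2_py (Uv f) x y)).deriv]
    have hA := w2_A f h0 ((x : UnitAddCircle), (y : UnitAddCircle))
    have hA2 := congrArg Complex.im hA
    simp only [Complex.add_im, Complex.mul_re, Complex.mul_im, Complex.sub_re, Complex.sub_im,
      Complex.I_re, Complex.I_im] at hA2 ⊢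
    have e1 : (I / 2).re = 0 := by simp
    have e2 : (I / 2).im = 1 / 2 := by simp
    rw [e1, e2] at hA2
    linarith

end JW2

end Pool.Agent.Helper118.Yud
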