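import Pool.Agent.Helper383.TY.TD
import Pool.Agent.Helper383.TY.WH
import Pool.Agent.Helper383.TY.T2a
import Pool.Agent.Helper383.TY.T3
import Pool.Agent.Helper383.TY.W1
import Pool.Agent.Helper383.TY.W2

set_option autoImplicit false

open MeasureTheory Complex Set Filter Topology

namespace Pool.Agent.Helper118.Yud

open JT2a (ek_add ek_sub_arg ek_conj continuous_ek ev_zero ev_add ev_neg ev_smul ev_sum ev_mul continuous_ev ev_bdd mult_add mult_smul mult_sum ev_mult)
open JT3 (conv_ev conv_ev_mp)
open JW1 (trig_dense)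
open JW2 (clas_of_trig)

namespace JW3

instance negInv_W3 : (volume : Measure T2).IsNegInvariant := by
  have h1 : MeasurePreserving (fun x : UnitAddCircle => -x) volume volume :=
    Measure.measurePreserving_neg volume
  have h2 : MeasurePreserving (Prod.map (fun x : UnitAddCircle => -x) (fun x : UnitAddCircle => -x))
    (volume : Measure T2) (volume : Measure T2) := h1.prod h1
  refine ⟨?_⟩
  have h3 : (Prod.map (fun x : UnitAddCircle => -x) (fun x : UnitAddCircle => -x)) =
     (Neg.neg : T2 → T2) := by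
    funext x; rfl
  rw [h3] at h2
  exact h2.map_eq

instance addInv_W3 : (volume : Measure T2).IsAddLeftInvariant := by
  show (Measure.prod (volume : Measure UnitAddCircle) (volume : Measure UnitAddCircle)).IsAddLeftInvariant
  infer_instance

theorem conv_swap_W3 (K : T2 → ℂ) (g : T2 → ℝ) (x : T2) :
    ∫ b, (g b : ℂ) * K (x - b) = ∫ y, (g (x - y) : ℂ) * K y := by
  have h := integral_sub_left_eq_self (fun y : T2 => (g (x - y) : ℂ) * K y) volume x
  rw [← h]
  simp only [sub_sub_cancel]

theorem conv_cont_W3 {K : T2 → ℂ} (hKi : Integrable K volume) (g : T2 → ℝ)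
    (hg : Continuous g) : Continuous (fun x : T2 => ∫ b, (g b : ℂ) * K (x - b)) := by
  simp_rw [conv_swap_W3]
  obtain ⟨M, hM⟩ := isCompact_univ.exists_bound_of_continuousOn (hg.continuousOn (s := univ))
  apply continuous_of_dominated (bound := fun y => M * ‖K y‖)
  · intro x
    apply AEStronglyMeasurable.mul
    · apply Continuous.aestronglyMeasurable
      fun_prop
    · exact hKi.aestronglyMeasurable
  · intro x
    apply Eventually.of_forall
    intro y
    rw [norm_mul, Complex.norm_real]
    exact mul_le_mul_of_nonneg_right (hM _ (mem_univ _)) (norm_nonneg _)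
  · exact hKi.norm.const_mul M
  · apply Eventually.of_forall
    intro y
    fun_prop

theorem conv_close_W3 {K : T2 → ℂ} {C : ℝ} (hK : IsBS K C) (hKi : Integrable K volume) (g : T2 → ℝ)
    (hg : Continuous g) (f : TP) (δ : ℝ) (hf : ∀ x, ‖(g x : ℂ) - ev f x‖ ≤ δ) (x : T2) :
    ‖ev (Uv f) x - ∫ b, (g b : ℂ) * K (x - b)‖ ≤ δ * ∫ y, ‖K y‖ := by
  obtain ⟨M, hM⟩ := isCompact_univ.exists_bound_of_continuousOn (hg.continuousOn (s := univ))
  obtain ⟨B, hB0, hB⟩ := ev_bdd f
  have hKx : Integrable (fun y => K (x - y)) volume := hKi.comp_sub_left x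
  have h1 : Integrable (fun y => ev f y * K (x - y)) volume :=
    hKx.bdd_mul (continuous_ev f).aestronglyMeasurable (Eventually.of_forall hB)
  have h2 : Integrable (fun y => (g y : ℂ) * K (x - y)) volume := by
    apply hKx.bdd_mul (c := M)
    · apply Continuous.aestronglyMeasurable
      fun_prop
    · apply Eventually.of_forall
      intro y
      rw [Complex.norm_real]
      exact hM y (mem_univ _)
  rw [← conv_ev hK hKi f x, ← integral_sub h1 h2]
  calc ‖∫ y, (ev f y * K (x - y) - (g y : ℂ) * K (x - y))‖ 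
      ≤ ∫ y, δ * ‖K (x - y)‖ := by
        apply norm_integral_le_of_norm_le (hKx.norm.const_mul δ)
        apply Eventually.of_forall
        intro y
        rw [← sub_mul, norm_mul]
        apply mul_le_mul_of_nonneg_right _ (norm_nonneg _)
        rw [norm_sub_rev]
        exact hf y
    _ = δ * ∫ y, ‖K y‖ := by
        rw [integral_const_mul]
        congr 1
        exact integral_sub_left_eq_self (fun y : T2 => ‖K y‖) volume x

/-- Biot-Savart velocity of a continuous zero mean vorticity is a uniform limit of classical triples -/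
theorem uap_conv {K : T2 → ℂ} {C : ℝ} (hK : IsBS K C) (hKi : Integrable K volume) (g : T2 → ℝ)
    (hg : Continuous g) (h0 : ∫ x, g x = 0) :
    UAp (fun x y => (∫ b, (g b : ℂ) * K (((x : UnitAddCircle), (y : UnitAddCircle)) - b)).re)
      (fun x y => (∫ b, (g b : ℂ) * K (((x : UnitAddCircle), (y : UnitAddCircle)) - b)).im)
      (fun x y => g ((x : UnitAddCircle), (y : UnitAddCircle))) := by
  have hper : ∀ x : ℝ, ((x + 1 : ℝ) : UnitAddCircle) = (x : UnitAddCircle) := by
    intro x
    have := AddCircle.coe_add_period (1:ℝ) x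
    exact this
  have hcoe : Continuous (fun q : ℝ × ℝ => (((q.1 : ℝ) : UnitAddCircle), ((q.2 : ℝ) : UnitAddCircle))) := by
    apply Continuous.prodMk
    · exact (AddCircle.continuous_mk' (1:ℝ)).comp continuous_fst
    · exact (AddCircle.continuous_mk' (1:ℝ)).comp continuous_snd
  have hcc := conv_cont_W3 hKi g hg
  refine ⟨?_, ?_, ?_, ?_, ?_, ?_, ?_⟩
  · intro x y
    constructor
    · show (∫ b, (g b : ℂ) * K ((((x + 1 : ℝ) : UnitAddCircle), (y : UnitAddCircle)) - b)).re = _
      rw [hper]
    · show (∫ b, (g b : ℂ) * K (((x : UnitAddCircle), ((y + 1 : ℝ) : UnitAddCircle)) - b)).re = _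
      rw [hper]
  · intro x y
    constructor
    · show (∫ b, (g b : ℂ) * K ((((x + 1 : ℝ) : UnitAddCircle), (y : UnitAddCircle)) - b)).im = _
      rw [hper]
    · show (∫ b, (g b : ℂ) * K (((x : UnitAddCircle), ((y + 1 : ℝ) : UnitAddCircle)) - b)).im = _
      rw [hper]
  · intro x y
    constructor
    · show g (((x + 1 : ℝ) : UnitAddCircle), (y : UnitAddCircle)) = _
      rw [hper]
    · show g ((x : UnitAddCircle), ((y + 1 : ℝ) : UnitAddCircle)) = _
      rw [hper]
  · exact Complex.continuous_re.comp (hcc.comp hcoe)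
  · exact Complex.continuous_im.comp (hcc.comp hcoe)
  · exact hg.comp hcoe
  · intro ε hε
    have hI : 0 ≤ ∫ y, ‖K y‖ := integral_nonneg (fun y => norm_nonneg _)
    set δ := ε / (1 + ∫ y, ‖K y‖) with hδ
    have hδ0 : 0 < δ := by positivity
    have hδ1 : δ * (1 + ∫ y, ‖K y‖) = ε := by
      rw [hδ]; field_simp
    have hδ2 : δ ≤ ε := by nlinarith
    have hδ3 : δ * ∫ y, ‖K y‖ ≤ ε := by nlinarith
    obtain ⟨f, hfR, hf0, hf⟩ := trig_dense g hg h0 δ hδ0
    refine ⟨_, _, _, clas_of_trig f hfR hf0, ?_⟩
    intro x y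
    have h1 := conv_close_W3 hK hKi g hg f δ hf ((x : UnitAddCircle), (y : UnitAddCircle))
    have h2 := hf ((x : UnitAddCircle), (y : UnitAddCircle))
    refine ⟨?_, ?_, ?_⟩
    · rw [← Complex.sub_re]
      exact (Complex.abs_re_le_norm _).trans (h1.trans hδ3)
    · rw [← Complex.sub_im]
      exact (Complex.abs_im_le_norm _).trans (h1.trans hδ3)
    · have h3 := (Complex.abs_re_le_norm _).trans h2
      rw [Complex.sub_re, Complex.ofReal_re, abs_sub_comm] at h3
      exact h3.trans hδ2

end JW3

end Pool.Agent.Helper118.Yud
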