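import Pool.Agent.Helper383.TY.WH

set_option autoImplicit false

open MeasureTheory Complex Set Filter Topology

namespace Pool.Agent.Helper118.Yud


namespace JW4

theorem w4_hasx {P : ℝ → ℝ → ℝ} (c : ContDiff ℝ 1 (fun q : ℝ × ℝ => P q.1 q.2)) (x y : ℝ) :
    HasDerivAt (fun s => P s y) (deriv (fun s => P s y) x) x := by
  have h1 : Differentiable ℝ (fun q : ℝ × ℝ => P q.1 q.2) := c.differentiable (by norm_num)
  have h : Differentiable ℝ ((fun q : ℝ × ℝ => P q.1 q.2) ∘ (fun s : ℝ => ((s, y) : ℝ × ℝ))) :=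
    h1.comp (by fun_prop)
  exact (h x).hasDerivAt

theorem w4_hasy {P : ℝ → ℝ → ℝ} (c : ContDiff ℝ 1 (fun q : ℝ × ℝ => P q.1 q.2)) (x y : ℝ) :
    HasDerivAt (fun s => P x s) (deriv (fun s => P x s) y) y := by
  have h1 : Differentiable ℝ (fun q : ℝ × ℝ => P q.1 q.2) := c.differentiable (by norm_num)
  have h : Differentiable ℝ ((fun q : ℝ × ℝ => P q.1 q.2) ∘ (fun s : ℝ => ((x, s) : ℝ × ℝ))) :=
    h1.comp (by fun_prop)
  exact (h y).hasDerivAt

theorem w4_contx {P : ℝ → ℝ → ℝ} (c : ContDiff ℝ 1 (fun q : ℝ × ℝ => P q.1 q.2)) :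
    Continuous (fun q : ℝ × ℝ => deriv (fun s => P s q.2) q.1) := by
  have h1 : Continuous (fun q : ℝ × ℝ =>
      fderiv ℝ (fun q : ℝ × ℝ => P q.1 q.2) q ((1:ℝ), (0:ℝ))) :=
    (c.continuous_fderiv (by norm_num)).clm_apply continuous_const
  have e : (fun q : ℝ × ℝ => deriv (fun s => P s q.2) q.1) =
      fun q : ℝ × ℝ => fderiv ℝ (fun q : ℝ × ℝ => P q.1 q.2) q ((1:ℝ), (0:ℝ)) := by
    funext q
    have hd : HasFDerivAt (fun q : ℝ × ℝ => P q.1 q.2)
        (fderiv ℝ (fun q : ℝ × ℝ => P q.1 q.2) (q.1, q.2)) (q.1, q.2) :=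
      (c.differentiable (by norm_num) _).hasFDerivAt
    have h2 : HasDerivAt (fun s : ℝ => ((s, q.2) : ℝ × ℝ)) ((1:ℝ), (0:ℝ)) q.1 :=
      (hasDerivAt_id' q.1).prodMk (hasDerivAt_const q.1 q.2)
    exact (hd.comp_hasDerivAt q.1 h2).deriv
  rw [e]
  exact h1

theorem w4_conty {P : ℝ → ℝ → ℝ} (c : ContDiff ℝ 1 (fun q : ℝ × ℝ => P q.1 q.2)) :
    Continuous (fun q : ℝ × ℝ => deriv (fun s => P q.1 s) q.2) := by
  have h1 : Continuous (fun q : ℝ × ℝ =>
      fderiv ℝ (fun q : ℝ × ℝ => P q.1 q.2) q ((0:ℝ), (1:ℝ))) :=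
    (c.continuous_fderiv (by norm_num)).clm_apply continuous_const
  have e : (fun q : ℝ × ℝ => deriv (fun s => P q.1 s) q.2) =
      fun q : ℝ × ℝ => fderiv ℝ (fun q : ℝ × ℝ => P q.1 q.2) q ((0:ℝ), (1:ℝ)) := by
    funext q
    have hd : HasFDerivAt (fun q : ℝ × ℝ => P q.1 q.2)
        (fderiv ℝ (fun q : ℝ × ℝ => P q.1 q.2) (q.1, q.2)) (q.1, q.2) :=
      (c.differentiable (by norm_num) _).hasFDerivAt
    have h2 : HasDerivAt (fun s : ℝ => ((q.1, s) : ℝ × ℝ)) ((0:ℝ), (1:ℝ)) q.2 :=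
      (hasDerivAt_const q.2 q.1).prodMk (hasDerivAt_id' q.2)
    exact (hd.comp_hasDerivAt q.2 h2).deriv
  rw [e]
  exact h1

theorem w4_dx {P : ℝ → ℝ → ℝ} (c : ContDiff ℝ 1 (fun q : ℝ × ℝ => P q.1 q.2)) (hp : Per P) :
    ∫ x in (0:ℝ)..1, ∫ y in (0:ℝ)..1, deriv (fun s => P s y) x = 0 := by
  have hc := w4_contx c
  rw [intervalIntegral_intervalIntegral_swap]
  · have h0 : ∀ y, ∫ x in (0:ℝ)..1, deriv (fun s => P s y) x = 0 := by
      intro y
      rw [intervalIntegral.integral_eq_sub_of_hasDerivAt (f := fun s => P s y)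
        (fun x _ => w4_hasx c x y)]
      · have := (hp 0 y).1
        rw [zero_add] at this
        rw [this, sub_self]
      · exact (hc.comp (by fun_prop : Continuous fun x : ℝ => ((x, y) : ℝ × ℝ))).intervalIntegrable
          _ _
    simp [h0]
  · have hcomp : IsCompact (Icc (0:ℝ) 1 ×ˢ Icc (0:ℝ) 1) := isCompact_Icc.prod isCompact_Icc
    have hi : IntegrableOn (fun q : ℝ × ℝ => deriv (fun s => P s q.2) q.1)
        (Icc (0:ℝ) 1 ×ˢ Icc (0:ℝ) 1) := hc.continuousOn.integrableOn_compact hcomp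
    refine hi.mono_set ?_
    rw [uIoc_of_le zero_le_one]
    exact prod_mono Ioc_subset_Icc_self Ioc_subset_Icc_self

theorem w4_dy {P : ℝ → ℝ → ℝ} (c : ContDiff ℝ 1 (fun q : ℝ × ℝ => P q.1 q.2)) (hp : Per P) :
    ∫ x in (0:ℝ)..1, ∫ y in (0:ℝ)..1, deriv (fun s => P x s) y = 0 := by
  have hc := w4_conty c
  have h0 : ∀ x, ∫ y in (0:ℝ)..1, deriv (fun s => P x s) y = 0 := by
    intro x
    rw [intervalIntegral.integral_eq_sub_of_hasDerivAt (f := fun s => P x s)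
      (fun y _ => w4_hasy c x y)]
    · have := (hp x 0).2
      rw [zero_add] at this
      rw [this, sub_self]
    · exact (hc.comp (by fun_prop : Continuous fun y : ℝ => ((x, y) : ℝ × ℝ))).intervalIntegrable
        _ _
  simp [h0]

theorem w4_add (f g : ℝ → ℝ → ℝ) (hf : Continuous (fun q : ℝ × ℝ => f q.1 q.2))
    (hg : Continuous (fun q : ℝ × ℝ => g q.1 q.2)) :
    ∫ x in (0:ℝ)..1, ∫ y in (0:ℝ)..1, (f x y + g x y) =
      (∫ x in (0:ℝ)..1, ∫ y in (0:ℝ)..1, f x y) + ∫ x in (0:ℝ)..1, ∫ y in (0:ℝ)..1, g x y := by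
  have h1 : ∀ x, ∫ y in (0:ℝ)..1, (f x y + g x y) =
      (∫ y in (0:ℝ)..1, f x y) + ∫ y in (0:ℝ)..1, g x y := by
    intro x
    apply intervalIntegral.integral_add
    · exact (hf.comp (by fun_prop : Continuous fun y : ℝ => ((x, y) : ℝ × ℝ))).intervalIntegrable
        _ _
    · exact (hg.comp (by fun_prop : Continuous fun y : ℝ => ((x, y) : ℝ × ℝ))).intervalIntegrable
        _ _
  simp_rw [h1]
  apply intervalIntegral.integral_add
  · exact (intervalIntegral.continuous_parametric_intervalIntegral_of_continuous' (f := f) hf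
      0 1).intervalIntegrable _ _
  · exact (intervalIntegral.continuous_parametric_intervalIntegral_of_continuous' (f := g) hg
      0 1).intervalIntegrable _ _

theorem w4_main (P Q L S : ℝ → ℝ → ℝ) (cP : ContDiff ℝ 1 (fun q : ℝ × ℝ => P q.1 q.2))
    (cQ : ContDiff ℝ 1 (fun q : ℝ × ℝ => Q q.1 q.2)) (hP : Per P) (hQ : Per Q)
    (cL : Continuous (fun q : ℝ × ℝ => L q.1 q.2)) (cS : Continuous (fun q : ℝ × ℝ => S q.1 q.2))
    (h : ∀ x y, L x y + S x y = deriv (fun s => P s y) x + deriv (fun s => Q x s) y) :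
    ∫ x in (0:ℝ)..1, ∫ y in (0:ℝ)..1, L x y = - ∫ x in (0:ℝ)..1, ∫ y in (0:ℝ)..1, S x y := by
  have e1 := w4_add L S cL cS
  have e2 := w4_add (fun x y => deriv (fun s => P s y) x) (fun x y => deriv (fun s => Q x s) y)
    (w4_contx cP) (w4_conty cQ)
  have e3 : ∫ x in (0:ℝ)..1, ∫ y in (0:ℝ)..1, (L x y + S x y) =
      ∫ x in (0:ℝ)..1, ∫ y in (0:ℝ)..1,
        (deriv (fun s => P s y) x + deriv (fun s => Q x s) y) := by
    simp_rw [h]
  rw [w4_dx cP hP, w4_dy cQ hQ] at e2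
  linarith

/-- classical identity -/
theorem _root_.Pool.Agent.Helper118.Yud.Clas.mom {U V W : ℝ → ℝ → ℝ} (h : Clas U V W) (φ₁ φ₂ : ℝ → ℝ → ℝ) (h1 : Per φ₁) (h2 : Per φ₂)
    (c1 : ContDiff ℝ 1 (fun q : ℝ × ℝ => φ₁ q.1 q.2)) (c2 : ContDiff ℝ 1 (fun q : ℝ × ℝ => φ₂ q.1 q.2))
    (hd : ∀ x y, deriv (fun s => φ₁ s y) x + deriv (fun s => φ₂ x s) y = 0) :
    ∫ x in (0:ℝ)..1, ∫ y in (0:ℝ)..1,
      (U x y * U x y * deriv (fun s => φ₁ s y) x
        + U x y * V x y * (deriv (fun s => φ₁ x s) y + deriv (fun s => φ₂ s y) x)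
        + V x y * V x y * deriv (fun s => φ₂ x s) y) =
    - ∫ x in (0:ℝ)..1, ∫ y in (0:ℝ)..1, W x y * (U x y * φ₂ x y - V x y * φ₁ x y) := by
  have cU : ContDiff ℝ 1 (fun q : ℝ × ℝ => U q.1 q.2) := h.cU.of_le (by norm_cast)
  have cV : ContDiff ℝ 1 (fun q : ℝ × ℝ => V q.1 q.2) := h.cV.of_le (by norm_cast)
  have cW : ContDiff ℝ 1 (fun q : ℝ × ℝ => W q.1 q.2) := h.cW.of_le (by norm_cast)
  have kU := cU.continuous
  have kV := cV.continuous
  have kW := cW.continuous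
  have k1 := c1.continuous
  have k2 := c2.continuous
  apply w4_main
    (fun x y => U x y * U x y * φ₁ x y + U x y * V x y * φ₂ x y -
      (U x y * U x y + V x y * V x y) / 2 * φ₁ x y)
    (fun x y => U x y * V x y * φ₁ x y + V x y * V x y * φ₂ x y -
      (U x y * U x y + V x y * V x y) / 2 * φ₂ x y)
  · exact (((cU.mul cU).mul c1).add ((cU.mul cV).mul c2)).sub
      ((((cU.mul cU).add (cV.mul cV)).div_const 2).mul c1)
  · exact (((cU.mul cV).mul c1).add ((cV.mul cV).mul c2)).sub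
      ((((cU.mul cU).add (cV.mul cV)).div_const 2).mul c2)
  · intro x y
    simp only [(h.perU x y).1, (h.perU x y).2, (h.perV x y).1, (h.perV x y).2, (h1 x y).1,
      (h1 x y).2, (h2 x y).1, (h2 x y).2, and_self]
  · intro x y
    simp only [(h.perU x y).1, (h.perU x y).2, (h.perV x y).1, (h.perV x y).2, (h1 x y).1,
      (h1 x y).2, (h2 x y).1, (h2 x y).2, and_self]
  · exact (((kU.mul kU).mul (w4_contx c1)).add ((kU.mul kV).mul
      ((w4_conty c1).add (w4_contx c2)))).add ((kV.mul kV).mul (w4_conty c2))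
  · exact kW.mul ((kU.mul k2).sub (kV.mul k1))
  · intro x y
    have hUx := w4_hasx cU x y
    have hVx := w4_hasx cV x y
    have h1x := w4_hasx c1 x y
    have h2x := w4_hasx c2 x y
    have hUy := w4_hasy cU x y
    have hVy := w4_hasy cV x y
    have h1y := w4_hasy c1 x y
    have h2y := w4_hasy c2 x y
    have hPd : deriv (fun s => U s y * U s y * φ₁ s y + U s y * V s y * φ₂ s y -
      (U s y * U s y + V s y * V s y) / 2 * φ₁ s y) x = _ :=
      ((((hUx.mul hUx).mul h1x).add ((hUx.mul hVx).mul h2x)).sub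
        ((((hUx.mul hUx).add (hVx.mul hVx)).div_const 2).mul h1x)).deriv
    have hQd : deriv (fun s => U x s * V x s * φ₁ x s + V x s * V x s * φ₂ x s -
      (U x s * U x s + V x s * V x s) / 2 * φ₂ x s) y = _ :=
      ((((hUy.mul hVy).mul h1y).add ((hVy.mul hVy).mul h2y)).sub
        ((((hUy.mul hUy).add (hVy.mul hVy)).div_const 2).mul h2y)).deriv
    have E1 := h.div x y
    have E2 := h.curl x y
    have E3 := hd x y
    rw [hPd, hQd]
    simp only [Pi.mul_apply, Pi.add_apply]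
    linear_combination (-(U x y * φ₂ x y - V x y * φ₁ x y)) * E2 -
      (φ₁ x y * U x y + φ₂ x y * V x y) * E1 + (U x y * U x y + V x y * V x y) / 2 * E3

theorem _root_.Pool.Agent.Helper118.Yud.Clas.dv {U V W : ℝ → ℝ → ℝ} (h : Clas U V W) (ψ : ℝ → ℝ → ℝ) (hψ : Per ψ)
    (cψ : ContDiff ℝ 1 (fun q : ℝ × ℝ => ψ q.1 q.2)) :
    ∫ x in (0:ℝ)..1, ∫ y in (0:ℝ)..1,
      (U x y * deriv (fun s => ψ s y) x + V x y * deriv (fun s => ψ x s) y) = 0 := by
  have cU : ContDiff ℝ 1 (fun q : ℝ × ℝ => U q.1 q.2) := h.cU.of_le (by norm_cast)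
  have cV : ContDiff ℝ 1 (fun q : ℝ × ℝ => V q.1 q.2) := h.cV.of_le (by norm_cast)
  have kU := cU.continuous
  have kV := cV.continuous
  have hm := w4_main (fun x y => U x y * ψ x y) (fun x y => V x y * ψ x y)
    (fun x y => U x y * deriv (fun s => ψ s y) x + V x y * deriv (fun s => ψ x s) y)
    (fun _ _ => 0) (cU.mul cψ) (cV.mul cψ)
    (by
      intro x y
      simp only [(h.perU x y).1, (h.perU x y).2, (hψ x y).1, (hψ x y).2, and_self])
    (by
      intro x y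
      simp only [(h.perV x y).1, (h.perV x y).2, (hψ x y).1, (hψ x y).2, and_self])
    ((kU.mul (w4_contx cψ)).add (kV.mul (w4_conty cψ))) continuous_const
    (by
      intro x y
      have hUx := w4_hasx cU x y
      have hVy := w4_hasy cV x y
      have h1x := w4_hasx cψ x y
      have h1y := w4_hasy cψ x y
      have hPd : deriv (fun s => U s y * ψ s y) x = _ := (hUx.mul h1x).deriv
      have hQd : deriv (fun s => V x s * ψ x s) y = _ := (hVy.mul h1y).deriv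
      have E1 := h.div x y
      rw [hPd, hQd]
      linear_combination (-(ψ x y)) * E1)
  rw [hm]
  simp

theorem _root_.Pool.Agent.Helper118.Yud.Clas.cl {U V W : ℝ → ℝ → ℝ} (h : Clas U V W) (ψ : ℝ → ℝ → ℝ) (hψ : Per ψ)
    (cψ : ContDiff ℝ 1 (fun q : ℝ × ℝ => ψ q.1 q.2)) :
    ∫ x in (0:ℝ)..1, ∫ y in (0:ℝ)..1,
      (V x y * deriv (fun s => ψ s y) x - U x y * deriv (fun s => ψ x s) y) =
    - ∫ x in (0:ℝ)..1, ∫ y in (0:ℝ)..1, W x y * ψ x y := by
  have cU : ContDiff ℝ 1 (fun q : ℝ × ℝ => U q.1 q.2) := h.cU.of_le (by norm_cast)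
  have cV : ContDiff ℝ 1 (fun q : ℝ × ℝ => V q.1 q.2) := h.cV.of_le (by norm_cast)
  have cW : ContDiff ℝ 1 (fun q : ℝ × ℝ => W q.1 q.2) := h.cW.of_le (by norm_cast)
  have kU := cU.continuous
  have kV := cV.continuous
  apply w4_main (fun x y => V x y * ψ x y) (fun x y => -(U x y * ψ x y))
  · exact cV.mul cψ
  · exact (cU.mul cψ).neg
  · intro x y
    simp only [(h.perV x y).1, (h.perV x y).2, (hψ x y).1, (hψ x y).2, and_self]
  · intro x y
    simp only [(h.perU x y).1, (h.perU x y).2, (hψ x y).1, (hψ x y).2, and_self]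
  · exact (kV.mul (w4_contx cψ)).sub (kU.mul (w4_conty cψ))
  · exact cW.continuous.mul cψ.continuous
  · intro x y
    have hVx := w4_hasx cV x y
    have hUy := w4_hasy cU x y
    have h1x := w4_hasx cψ x y
    have h1y := w4_hasy cψ x y
    have hPd : deriv (fun s => V s y * ψ s y) x = _ := (hVx.mul h1x).deriv
    have hQd : deriv (fun s => -(U x s * ψ x s)) y = _ := (hUy.mul h1y).neg.deriv
    have E2 := h.curl x y
    rw [hPd, hQd]
    linear_combination (-(ψ x y)) * E2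

end JW4

end Pool.Agent.Helper118.Yud
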