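import Pool.Agent.Helper383.TY.WH
import Pool.Agent.Helper383.TY.W4

set_option autoImplicit false

open MeasureTheory Complex Set Filter Topology

namespace Pool.Agent.Helper118.Yud


namespace JW4b

noncomputable def CI (f : C(ℝ × ℝ, ℝ)) : ℝ := ∫ x in (0:ℝ)..1, ∫ y in (0:ℝ)..1, f (x, y)

theorem CI_cont : Continuous CI := by
  unfold CI
  apply intervalIntegral.continuous_parametric_intervalIntegral_of_continuous'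
  have : (Function.uncurry fun (f : C(ℝ × ℝ, ℝ)) (x : ℝ) => ∫ y in (0:ℝ)..1, f (x, y)) =
      fun p : C(ℝ × ℝ, ℝ) × ℝ => ∫ y in (0:ℝ)..1, p.1 (p.2, y) := rfl
  rw [this]
  apply intervalIntegral.continuous_parametric_intervalIntegral_of_continuous'
  have : (Function.uncurry fun (p : C(ℝ × ℝ, ℝ) × ℝ) (y : ℝ) => p.1 (p.2, y)) =
      fun q : (C(ℝ × ℝ, ℝ) × ℝ) × ℝ => q.1.1 (q.1.2, q.2) := rfl
  rw [this]
  exact (continuous_fst.comp continuous_fst).eval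
    ((continuous_snd.comp continuous_fst).prodMk continuous_snd)

theorem _root_.Pool.Agent.Helper118.Yud.UAp.seq {u v w : ℝ → ℝ → ℝ} (h : UAp u v w) :
    ∃ P : ℕ → C(ℝ × ℝ, ℝ) × C(ℝ × ℝ, ℝ) × C(ℝ × ℝ, ℝ),
      (∀ n, Clas (fun x y => (P n).1 (x, y)) (fun x y => (P n).2.1 (x, y)) (fun x y => (P n).2.2 (x, y))) ∧
      Tendsto P atTop (𝓝 ((⟨_, h.cu⟩ : C(ℝ × ℝ, ℝ)), (⟨_, h.cv⟩ : C(ℝ × ℝ, ℝ)), (⟨_, h.cw⟩ : C(ℝ × ℝ, ℝ)))) := by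
  have hn : ∀ n : ℕ, (0:ℝ) < 1 / ((n:ℝ) + 1) := fun n => by positivity
  choose U V W hC hb using fun n : ℕ => h.ap (1 / ((n:ℝ) + 1)) (hn n)
  refine ⟨fun n => ((⟨_, (hC n).cU.continuous⟩ : C(ℝ × ℝ, ℝ)), (⟨_, (hC n).cV.continuous⟩ : C(ℝ × ℝ, ℝ)),
    (⟨_, (hC n).cW.continuous⟩ : C(ℝ × ℝ, ℝ))), fun n => hC n, ?_⟩
  have key : ∀ (F : ℕ → C(ℝ × ℝ, ℝ)) (f : C(ℝ × ℝ, ℝ)),
      (∀ n x y, |F n (x, y) - f (x, y)| ≤ 1 / ((n:ℝ) + 1)) → Tendsto F atTop (𝓝 f) := by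
    intro F f hF
    apply ContinuousMap.tendsto_of_tendstoLocallyUniformly
    apply TendstoUniformly.tendstoLocallyUniformly
    rw [Metric.tendstoUniformly_iff]
    intro ε hε
    obtain ⟨N, hN⟩ := exists_nat_one_div_lt hε
    filter_upwards [eventually_ge_atTop N] with n hn q
    rw [dist_comm, Real.dist_eq]
    refine lt_of_le_of_lt (hF n q.1 q.2) (lt_of_le_of_lt ?_ hN)
    apply one_div_le_one_div_of_le (by positivity)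
    have : (N:ℝ) ≤ n := by exact_mod_cast hn
    linarith
  refine Tendsto.prodMk_nhds (key _ _ fun n x y => (hb n x y).1) (Tendsto.prodMk_nhds
    (key _ _ fun n x y => (hb n x y).2.1) (key _ _ fun n x y => (hb n x y).2.2))

theorem _root_.Pool.Agent.Helper118.Yud.UAp.ind {u v w : ℝ → ℝ → ℝ} (h : UAp u v w)
    (A B : C(ℝ × ℝ, ℝ) × C(ℝ × ℝ, ℝ) × C(ℝ × ℝ, ℝ) → ℝ) (hA : Continuous A) (hB : Continuous B)
    (hAB : ∀ P : C(ℝ × ℝ, ℝ) × C(ℝ × ℝ, ℝ) × C(ℝ × ℝ, ℝ),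
      Clas (fun x y => P.1 (x, y)) (fun x y => P.2.1 (x, y)) (fun x y => P.2.2 (x, y)) → A P = B P) :
    A ((⟨_, h.cu⟩ : C(ℝ × ℝ, ℝ)), (⟨_, h.cv⟩ : C(ℝ × ℝ, ℝ)), (⟨_, h.cw⟩ : C(ℝ × ℝ, ℝ))) =
    B ((⟨_, h.cu⟩ : C(ℝ × ℝ, ℝ)), (⟨_, h.cv⟩ : C(ℝ × ℝ, ℝ)), (⟨_, h.cw⟩ : C(ℝ × ℝ, ℝ))) := by
  obtain ⟨P, hP, ht⟩ := h.seq
  have h1 := (hA.tendsto _).comp ht
  have h2 := (hB.tendsto _).comp ht
  have h3 : A ∘ P = B ∘ P := by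
    funext n
    exact hAB (P n) (hP n)
  rw [h3] at h1
  exact tendsto_nhds_unique h1 h2

theorem dx_cont {φ : ℝ → ℝ → ℝ} (c : ContDiff ℝ 1 (fun q : ℝ × ℝ => φ q.1 q.2)) :
    Continuous (fun q : ℝ × ℝ => deriv (fun s => φ s q.2) q.1) := by
  have h1 : ∀ q : ℝ × ℝ, deriv (fun s => φ s q.2) q.1 =
      fderiv ℝ (fun q : ℝ × ℝ => φ q.1 q.2) q ((1:ℝ), (0:ℝ)) := by
    intro q
    have hd : HasFDerivAt (fun q : ℝ × ℝ => φ q.1 q.2) (fderiv ℝ (fun q : ℝ × ℝ => φ q.1 q.2) q) (q.1, q.2) :=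
      ((c.differentiable (by norm_num)) q).hasFDerivAt
    have hc : HasDerivAt (fun s : ℝ => ((s, q.2) : ℝ × ℝ)) ((1:ℝ), (0:ℝ)) q.1 :=
      (hasDerivAt_id q.1).prodMk (hasDerivAt_const q.1 q.2)
    exact (hd.comp_hasDerivAt q.1 hc).deriv
  simp_rw [h1]
  exact (c.continuous_fderiv (by norm_num)).clm_apply continuous_const

theorem dy_cont {φ : ℝ → ℝ → ℝ} (c : ContDiff ℝ 1 (fun q : ℝ × ℝ => φ q.1 q.2)) :
    Continuous (fun q : ℝ × ℝ => deriv (fun s => φ q.1 s) q.2) := by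
  have h1 : ∀ q : ℝ × ℝ, deriv (fun s => φ q.1 s) q.2 =
      fderiv ℝ (fun q : ℝ × ℝ => φ q.1 q.2) q ((0:ℝ), (1:ℝ)) := by
    intro q
    have hd : HasFDerivAt (fun q : ℝ × ℝ => φ q.1 q.2) (fderiv ℝ (fun q : ℝ × ℝ => φ q.1 q.2) q) (q.1, q.2) :=
      ((c.differentiable (by norm_num)) q).hasFDerivAt
    have hc : HasDerivAt (fun s : ℝ => ((q.1, s) : ℝ × ℝ)) ((0:ℝ), (1:ℝ)) q.2 :=
      (hasDerivAt_const q.2 q.1).prodMk (hasDerivAt_id q.2)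
    exact (hd.comp_hasDerivAt q.2 hc).deriv
  simp_rw [h1]
  exact (c.continuous_fderiv (by norm_num)).clm_apply continuous_const

/-- weak identities for uniform limits of classical triples -/
theorem _root_.Pool.Agent.Helper118.Yud.UAp.mom {u v w : ℝ → ℝ → ℝ} (h : UAp u v w) (φ₁ φ₂ : ℝ → ℝ → ℝ) (h1 : Per φ₁) (h2 : Per φ₂)
    (c1 : ContDiff ℝ 1 (fun q : ℝ × ℝ => φ₁ q.1 q.2)) (c2 : ContDiff ℝ 1 (fun q : ℝ × ℝ => φ₂ q.1 q.2))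
    (hd : ∀ x y, deriv (fun s => φ₁ s y) x + deriv (fun s => φ₂ x s) y = 0) :
    ∫ x in (0:ℝ)..1, ∫ y in (0:ℝ)..1,
      (u x y * u x y * deriv (fun s => φ₁ s y) x
        + u x y * v x y * (deriv (fun s => φ₁ x s) y + deriv (fun s => φ₂ s y) x)
        + v x y * v x y * deriv (fun s => φ₂ x s) y) =
    - ∫ x in (0:ℝ)..1, ∫ y in (0:ℝ)..1, w x y * (u x y * φ₂ x y - v x y * φ₁ x y) := by
  set a : C(ℝ × ℝ, ℝ) := ⟨_, dx_cont c1⟩ with ha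
  set b : C(ℝ × ℝ, ℝ) := ⟨_, dy_cont c1⟩ with hb
  set c : C(ℝ × ℝ, ℝ) := ⟨_, dx_cont c2⟩ with hc
  set d : C(ℝ × ℝ, ℝ) := ⟨_, dy_cont c2⟩ with hd'
  set e : C(ℝ × ℝ, ℝ) := ⟨_, c1.continuous⟩ with he
  set f : C(ℝ × ℝ, ℝ) := ⟨_, c2.continuous⟩ with hf
  have := h.ind
    (fun P => CI (P.1 * P.1 * a + P.1 * P.2.1 * (b + c) + P.2.1 * P.2.1 * d))
    (fun P => - CI (P.2.2 * (P.1 * f - P.2.1 * e)))
    (CI_cont.comp (by fun_prop)) (CI_cont.comp (by fun_prop)).neg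
    (fun P hP => hP.mom φ₁ φ₂ h1 h2 c1 c2 hd)
  exact this

theorem _root_.Pool.Agent.Helper118.Yud.UAp.dv {u v w : ℝ → ℝ → ℝ} (h : UAp u v w) (ψ : ℝ → ℝ → ℝ) (hψ : Per ψ)
    (cψ : ContDiff ℝ 1 (fun q : ℝ × ℝ => ψ q.1 q.2)) :
    ∫ x in (0:ℝ)..1, ∫ y in (0:ℝ)..1,
      (u x y * deriv (fun s => ψ s y) x + v x y * deriv (fun s => ψ x s) y) = 0 := by
  set a : C(ℝ × ℝ, ℝ) := ⟨_, dx_cont cψ⟩ with ha
  set b : C(ℝ × ℝ, ℝ) := ⟨_, dy_cont cψ⟩ with hb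
  have := h.ind (fun P => CI (P.1 * a + P.2.1 * b)) (fun P => 0)
    (CI_cont.comp (by fun_prop)) continuous_const
    (fun P hP => hP.dv ψ hψ cψ)
  exact this

theorem _root_.Pool.Agent.Helper118.Yud.UAp.cl {u v w : ℝ → ℝ → ℝ} (h : UAp u v w) (ψ : ℝ → ℝ → ℝ) (hψ : Per ψ)
    (cψ : ContDiff ℝ 1 (fun q : ℝ × ℝ => ψ q.1 q.2)) :
    ∫ x in (0:ℝ)..1, ∫ y in (0:ℝ)..1,
      (v x y * deriv (fun s => ψ s y) x - u x y * deriv (fun s => ψ x s) y) =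
    - ∫ x in (0:ℝ)..1, ∫ y in (0:ℝ)..1, w x y * ψ x y := by
  set a : C(ℝ × ℝ, ℝ) := ⟨_, dx_cont cψ⟩ with ha
  set b : C(ℝ × ℝ, ℝ) := ⟨_, dy_cont cψ⟩ with hb
  set e : C(ℝ × ℝ, ℝ) := ⟨_, cψ.continuous⟩ with he
  have := h.ind (fun P => CI (P.2.1 * a - P.1 * b)) (fun P => - CI (P.2.2 * e))
    (CI_cont.comp (by fun_prop)) (CI_cont.comp (by fun_prop)).neg
    (fun P hP => hP.cl ψ hψ cψ)
  exact this

theorem _root_.Pool.Agent.Helper118.Yud.UAp.mean {u v w : ℝ → ℝ → ℝ} (h : UAp u v w) :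
    (∫ x in (0:ℝ)..1, ∫ y in (0:ℝ)..1, u x y = 0) ∧ (∫ x in (0:ℝ)..1, ∫ y in (0:ℝ)..1, v x y = 0) := by
  constructor
  · exact h.ind (fun P => CI P.1) (fun P => 0) (CI_cont.comp (by fun_prop)) continuous_const
      (fun P hP => hP.meanU)
  · exact h.ind (fun P => CI P.2.1) (fun P => 0) (CI_cont.comp (by fun_prop)) continuous_const
      (fun P hP => hP.meanV)

end JW4b

end Pool.Agent.Helper118.Yud
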