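import Pool.Agent.Helper383.TY.WDefs

set_option autoImplicit false

open MeasureTheory Complex Set Filter Topology

namespace Pool.Agent.Helper118.Yud


namespace JW5

private theorem pint {P : Type} [NormedAddCommGroup P] [NormedSpace ℝ P] (G : P × ℝ → ℝ)
    (hG : ContDiff ℝ (⊤ : ℕ∞) G) :
    ContDiff ℝ (⊤ : ℕ∞) (fun p => ∫ s in (0:ℝ)..1, G (p, s)) := by
  let χ : ContDiffBump (0 : ℝ) := ⟨2, 3, by norm_num, by norm_num⟩
  have hχ : ContDiff ℝ (⊤ : ℕ∞) χ := χ.contDiff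
  have key := contDiffOn_convolution_right_with_param_comp (μ := volume)
    (ContinuousLinearMap.mul ℝ ℝ) (s := (univ : Set P)) (n := (⊤ : ℕ∞)) (v := fun _ : P => (0 : ℝ))
    contDiffOn_const (f := (Icc (-1 : ℝ) 0).indicator (fun _ => (1 : ℝ)))
    (g := fun p s => χ s * G (p, s)) (k := Metric.closedBall (0 : ℝ) 3) isOpen_univ
    (isCompact_closedBall _ _)
    (by
      intro p x _ hx
      have : χ x = 0 := by
        apply χ.zero_of_le_dist
        have h3 : ¬ dist x 0 ≤ 3 := hx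
        exact (not_le.1 h3).le
      rw [this, zero_mul])
    (by
      apply Integrable.locallyIntegrable
      exact (integrable_indicator_iff measurableSet_Icc).2 (integrableOn_const (by simp)))
    (by
      apply ContDiff.contDiffOn
      have h1 : ContDiff ℝ (⊤ : ℕ∞) (fun q : P × ℝ => χ q.2) := hχ.comp contDiff_snd
      exact h1.mul hG)
  rw [contDiffOn_univ] at key
  convert key using 1
  funext p
  symm
  rw [convolution_def]
  have e1 : ∀ t : ℝ, ((ContinuousLinearMap.mul ℝ ℝ)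
      ((Icc (-1 : ℝ) 0).indicator (fun _ => (1 : ℝ)) t)) (χ (0 - t) * G (p, 0 - t)) =
      (Icc (-1 : ℝ) 0).indicator (fun t => G (p, -t)) t := by
    intro t
    by_cases ht : t ∈ Icc (-1 : ℝ) 0
    · rw [indicator_of_mem ht, indicator_of_mem ht]
      have : χ (0 - t) = 1 := by
        apply χ.one_of_mem_closedBall
        rw [mem_closedBall_zero_iff, Real.norm_eq_abs, abs_le]
        show -2 ≤ 0 - t ∧ 0 - t ≤ 2
        constructor <;> linarith [ht.1, ht.2]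
      rw [this]
      simp
    · rw [indicator_of_notMem ht, indicator_of_notMem ht]
      simp
  simp_rw [e1]
  rw [integral_indicator measurableSet_Icc, integral_Icc_eq_integral_Ioc,
    ← intervalIntegral.integral_of_le (by norm_num)]
  have := intervalIntegral.integral_comp_neg (a := (0 : ℝ)) (b := 1) (fun t => G (p, -t))
  simp only [neg_neg, neg_zero] at this
  exact this.symm

private theorem dui (g g' : ℝ → ℝ → ℝ) (hg : ∀ y, Continuous (g y))
    (hg' : Continuous (fun q : ℝ × ℝ => g' q.1 q.2))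
    (hd : ∀ y s, HasDerivAt (fun y => g y s) (g' y s) y) (a b y : ℝ) :
    HasDerivAt (fun y => ∫ s in a..b, g y s) (∫ s in a..b, g' y s) y := by
  have hK : IsCompact (Metric.closedBall y 1 ×ˢ uIcc a b) :=
    (isCompact_closedBall _ _).prod isCompact_uIcc
  obtain ⟨C, hC⟩ := hK.exists_bound_of_continuousOn hg'.continuousOn
  refine (intervalIntegral.hasDerivAt_integral_of_dominated_loc_of_deriv_le
    (F := g) (F' := g') (bound := fun _ => C) (Metric.closedBall_mem_nhds y one_pos)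
    (Eventually.of_forall fun z => (hg z).aestronglyMeasurable)
    ((hg y).intervalIntegrable _ _)
    ((hg'.comp (by fun_prop : Continuous fun s => (y, s))).aestronglyMeasurable)
    (Eventually.of_forall fun s hs z hz => hC (z, s) ⟨hz, uIoc_subset_uIcc hs⟩)
    intervalIntegrable_const
    (Eventually.of_forall fun s _ z _ => hd z s)).2

private theorem mix (g : ℝ → ℝ → ℝ)
    (hg : ContDiff ℝ (⊤ : ℕ∞) (fun q : ℝ × ℝ => g q.1 q.2)) (t x : ℝ) :
    deriv (fun r => deriv (fun s => g s r) t) x = deriv (fun s => deriv (fun r => g s r) x) t := by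
  set F : ℝ × ℝ → ℝ := fun q => g q.1 q.2 with hF
  have hd : Differentiable ℝ F := hg.differentiable (by simp)
  have h1 : ∀ r, deriv (fun s => g s r) t = fderiv ℝ F (t, r) (1, 0) := by
    intro r
    have e : HasDerivAt (fun s : ℝ => (s, r)) ((1 : ℝ), (0 : ℝ)) t :=
      (hasDerivAt_id t).prodMk (hasDerivAt_const t r)
    exact ((hd (t, r)).hasFDerivAt.comp_hasDerivAt t e).deriv
  have h2 : ∀ s, deriv (fun r => g s r) x = fderiv ℝ F (s, x) (0, 1) := by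
    intro s
    have e : HasDerivAt (fun r : ℝ => (s, r)) ((0 : ℝ), (1 : ℝ)) x :=
      (hasDerivAt_const x s).prodMk (hasDerivAt_id x)
    exact ((hd (s, x)).hasFDerivAt.comp_hasDerivAt x e).deriv
  have hd2 : Differentiable ℝ (fderiv ℝ F) :=
    (hg.fderiv_right (m := 1) (by norm_cast)).differentiable (by norm_num)
  simp_rw [h1, h2]
  have e1 : HasDerivAt (fun r : ℝ => (t, r)) ((0 : ℝ), (1 : ℝ)) x :=
    (hasDerivAt_const x t).prodMk (hasDerivAt_id x)
  have e2 : HasDerivAt (fun s : ℝ => (s, x)) ((1 : ℝ), (0 : ℝ)) t :=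
    (hasDerivAt_id t).prodMk (hasDerivAt_const t x)
  have f1 := (((hd2 (t, x)).hasFDerivAt.comp_hasDerivAt x e1).clm_apply
    (hasDerivAt_const x ((1 : ℝ), (0 : ℝ)))).deriv
  have f2 := (((hd2 (t, x)).hasFDerivAt.comp_hasDerivAt t e2).clm_apply
    (hasDerivAt_const t ((0 : ℝ), (1 : ℝ)))).deriv
  simp only [Function.comp_def, map_zero, add_zero] at f1 f2
  rw [f1, f2]
  have hs : IsSymmSndFDerivAt ℝ F (t, x) :=
    (hg.contDiffAt).isSymmSndFDerivAt (by simp; exact WithTop.coe_le_coe.2 le_top)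
  exact hs _ _

private theorem pd1 (F : ℝ × ℝ × ℝ → ℝ) (hF : ContDiff ℝ (⊤ : ℕ∞) F) (t x y : ℝ) :
    HasDerivAt (fun s => F (s, x, y)) (fderiv ℝ F (t, x, y) (1, 0, 0)) t := by
  have hd : Differentiable ℝ F := hF.differentiable (by simp)
  have e : HasDerivAt (fun s : ℝ => (s, x, y)) ((1 : ℝ), (0 : ℝ), (0 : ℝ)) t :=
    (hasDerivAt_id t).prodMk ((hasDerivAt_const t x).prodMk (hasDerivAt_const t y))
  exact (hd (t, x, y)).hasFDerivAt.comp_hasDerivAt t e

private theorem pd2 (F : ℝ × ℝ × ℝ → ℝ) (hF : ContDiff ℝ (⊤ : ℕ∞) F) (t x y : ℝ) :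
    HasDerivAt (fun s => F (t, s, y)) (fderiv ℝ F (t, x, y) (0, 1, 0)) x := by
  have hd : Differentiable ℝ F := hF.differentiable (by simp)
  have e : HasDerivAt (fun s : ℝ => (t, s, y)) ((0 : ℝ), (1 : ℝ), (0 : ℝ)) x :=
    (hasDerivAt_const x t).prodMk ((hasDerivAt_id x).prodMk (hasDerivAt_const x y))
  exact (hd (t, x, y)).hasFDerivAt.comp_hasDerivAt x e

private theorem pd3 (F : ℝ × ℝ × ℝ → ℝ) (hF : ContDiff ℝ (⊤ : ℕ∞) F) (t x y : ℝ) :
    HasDerivAt (fun s => F (t, x, s)) (fderiv ℝ F (t, x, y) (0, 0, 1)) y := by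
  have hd : Differentiable ℝ F := hF.differentiable (by simp)
  have e : HasDerivAt (fun s : ℝ => (t, x, s)) ((0 : ℝ), (0 : ℝ), (1 : ℝ)) y :=
    (hasDerivAt_const y t).prodMk ((hasDerivAt_const y x).prodMk (hasDerivAt_id y))
  exact (hd (t, x, y)).hasFDerivAt.comp_hasDerivAt y e

private theorem contF (F : ℝ × ℝ × ℝ → ℝ) (hF : ContDiff ℝ (⊤ : ℕ∞) F) (v : ℝ × ℝ × ℝ) :
    Continuous (fun q => fderiv ℝ F q v) :=
  (hF.continuous_fderiv (by simp)).clm_apply continuous_const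

/-- stream function of a divergence free periodic test field -/
theorem exists_stream (φ₁ φ₂ : ℝ → ℝ → ℝ → ℝ)
    (c1 : ContDiff ℝ (⊤ : ℕ∞) (fun q : ℝ × ℝ × ℝ => φ₁ q.1 q.2.1 q.2.2))
    (c2 : ContDiff ℝ (⊤ : ℕ∞) (fun q : ℝ × ℝ × ℝ => φ₂ q.1 q.2.1 q.2.2))
    (hp : ∀ t, Per (φ₁ t) ∧ Per (φ₂ t))
    (hs : ∃ R : ℝ, ∀ t, R ≤ |t| → ∀ x y, φ₁ t x y = 0 ∧ φ₂ t x y = 0)
    (hd : ∀ t x y, deriv (fun s => φ₁ t s y) x + deriv (fun s => φ₂ t x s) y = 0) :
    ∃ (ψ : ℝ → ℝ → ℝ → ℝ) (m₁ m₂ : ℝ → ℝ),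
      ContDiff ℝ 1 (fun q : ℝ × ℝ × ℝ => ψ q.1 q.2.1 q.2.2) ∧
      (∀ t, Per (ψ t)) ∧ (∃ R : ℝ, ∀ t, R ≤ |t| → ∀ x y, ψ t x y = 0) ∧
      (∀ t x y, deriv (fun s => ψ t s y) x = φ₂ t x y - m₂ t) ∧
      (∀ t x y, deriv (fun s => ψ t x s) y = -(φ₁ t x y - m₁ t)) ∧
      (∀ t, ContDiff ℝ 1 (fun q : ℝ × ℝ => deriv (fun s => ψ s q.1 q.2) t)) ∧
      (∀ t x y, deriv (fun r => deriv (fun s => ψ s r y) t) x =
        deriv (fun s => φ₂ s x y) t - deriv m₂ t) ∧
      (∀ t x y, deriv (fun r => deriv (fun s => ψ s x r) t) y =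
        -(deriv (fun s => φ₁ s x y) t - deriv m₁ t)) := by
  classical
  set F1 : ℝ × ℝ × ℝ → ℝ := fun q => φ₁ q.1 q.2.1 q.2.2 with hF1
  set F2 : ℝ × ℝ × ℝ → ℝ := fun q => φ₂ q.1 q.2.1 q.2.2 with hF2
  have cc1 : Continuous F1 := c1.continuous
  have cc2 : Continuous F2 := c2.continuous
  let m₂ : ℝ → ℝ := fun t => ∫ s in (0:ℝ)..1, φ₂ t s 0
  let m₁ : ℝ → ℝ := fun t => ∫ s in (0:ℝ)..1, φ₁ t 0 s
  let ψ : ℝ → ℝ → ℝ → ℝ := fun t x y =>
    (x * ∫ θ in (0:ℝ)..1, φ₂ t (θ * x) y) - x * m₂ t -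
      ((y * ∫ θ in (0:ℝ)..1, φ₁ t 0 (θ * y)) - y * m₁ t)
  have hm2 : ContDiff ℝ (⊤ : ℕ∞) m₂ :=
    pint (fun z : ℝ × ℝ => F2 (z.1, z.2, 0)) (c2.comp (by fun_prop))
  have hm1 : ContDiff ℝ (⊤ : ℕ∞) m₁ :=
    pint (fun z : ℝ × ℝ => F1 (z.1, 0, z.2)) (c1.comp (by fun_prop))
  have hψ : ContDiff ℝ (⊤ : ℕ∞) (fun q : ℝ × ℝ × ℝ => ψ q.1 q.2.1 q.2.2) := by
    have h1 : ContDiff ℝ (⊤ : ℕ∞) (fun q : ℝ × ℝ × ℝ =>
        ∫ θ in (0:ℝ)..1, φ₂ q.1 (θ * q.2.1) q.2.2) :=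
      pint (fun z : (ℝ × ℝ × ℝ) × ℝ => F2 (z.1.1, z.2 * z.1.2.1, z.1.2.2))
        (c2.comp (by fun_prop))
    have h2 : ContDiff ℝ (⊤ : ℕ∞) (fun q : ℝ × ℝ × ℝ =>
        ∫ θ in (0:ℝ)..1, φ₁ q.1 0 (θ * q.2.2)) :=
      pint (fun z : (ℝ × ℝ × ℝ) × ℝ => F1 (z.1.1, 0, z.2 * z.1.2.2))
        (c1.comp (by fun_prop))
    have h3 : ContDiff ℝ (⊤ : ℕ∞) (fun q : ℝ × ℝ × ℝ => m₂ q.1) := hm2.comp contDiff_fst
    have h4 : ContDiff ℝ (⊤ : ℕ∞) (fun q : ℝ × ℝ × ℝ => m₁ q.1) := hm1.comp contDiff_fst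
    have h5 : ContDiff ℝ (⊤ : ℕ∞) (fun q : ℝ × ℝ × ℝ => q.2.1) := by fun_prop
    have h6 : ContDiff ℝ (⊤ : ℕ∞) (fun q : ℝ × ℝ × ℝ => q.2.2) := by fun_prop
    exact ((h5.mul h1).sub (h5.mul h3)).sub ((h6.mul h2).sub (h6.mul h4))
  have hψf : ∀ t x y, ψ t x y = (∫ s in (0:ℝ)..x, φ₂ t s y) - x * m₂ t -
      ((∫ s in (0:ℝ)..y, φ₁ t 0 s) - y * m₁ t) := by
    intro t x y
    show (x * ∫ θ in (0:ℝ)..1, φ₂ t (θ * x) y) - x * m₂ t -
      ((y * ∫ θ in (0:ℝ)..1, φ₁ t 0 (θ * y)) - y * m₁ t) = _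
    rw [intervalIntegral.mul_integral_comp_mul_right (f := fun s => φ₂ t s y) x,
      intervalIntegral.mul_integral_comp_mul_right (f := fun s => φ₁ t 0 s) y]
    simp
  have k2x : ∀ t y, Continuous (fun s => φ₂ t s y) := fun t y =>
    cc2.comp (by fun_prop : Continuous fun s : ℝ => (t, s, y))
  have k1y : ∀ t x, Continuous (fun s => φ₁ t x s) := fun t x =>
    cc1.comp (by fun_prop : Continuous fun s : ℝ => (t, x, s))
  -- derivative of the integral of `φ₂` in `y`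
  have hdiv : ∀ t x y, fderiv ℝ F2 (t, x, y) (0, 0, 1) = - fderiv ℝ F1 (t, x, y) (0, 1, 0) := by
    intro t x y
    have h := hd t x y
    have e1 := (pd2 F1 c1 t x y).deriv
    have e2 := (pd3 F2 c2 t x y).deriv
    have e1' : deriv (fun s => φ₁ t s y) x = fderiv ℝ F1 (t, x, y) (0, 1, 0) := e1
    have e2' : deriv (fun s => φ₂ t x s) y = fderiv ℝ F2 (t, x, y) (0, 0, 1) := e2
    rw [e1', e2'] at h
    linarith
  have hInt : ∀ t x y, HasDerivAt (fun y => ∫ s in (0:ℝ)..x, φ₂ t s y)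
      (-(φ₁ t x y - φ₁ t 0 y)) y := by
    intro t x y
    have h := dui (fun y s => φ₂ t s y) (fun y s => fderiv ℝ F2 (t, s, y) (0, 0, 1))
      (fun y => k2x t y)
      ((contF F2 c2 (0, 0, 1)).comp (by fun_prop : Continuous fun q : ℝ × ℝ => (t, q.2, q.1)))
      (fun y s => pd3 F2 c2 t s y) 0 x y
    have e : ∫ s in (0:ℝ)..x, fderiv ℝ F2 (t, s, y) (0, 0, 1) = -(φ₁ t x y - φ₁ t 0 y) := by
      simp_rw [hdiv]
      rw [intervalIntegral.integral_neg]
      congr 1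
      apply intervalIntegral.integral_eq_sub_of_hasDerivAt (f := fun s => φ₁ t s y)
      · intro s _
        exact pd2 F1 c1 t s y
      · exact ((contF F1 c1 (0, 1, 0)).comp
          (by fun_prop : Continuous fun s : ℝ => (t, s, y))).intervalIntegrable _ _
    rw [e] at h
    exact h
  have hmean : ∀ t y, ∫ s in (0:ℝ)..1, φ₂ t s y = m₂ t := by
    intro t y
    have h0 : ∀ y, HasDerivAt (fun y => ∫ s in (0:ℝ)..1, φ₂ t s y) 0 y := by
      intro y
      have h := hInt t 1 y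
      have e : φ₁ t 1 y = φ₁ t 0 y := by
        have := ((hp t).1 0 y).1
        rwa [zero_add] at this
      rw [e, sub_self, neg_zero] at h
      exact h
    exact is_const_of_deriv_eq_zero (fun y => (h0 y).differentiableAt) (fun y => (h0 y).deriv) y 0
  have hdx : ∀ t x y, deriv (fun s => ψ t s y) x = φ₂ t x y - m₂ t := by
    intro t x y
    have e : (fun s => ψ t s y) = fun x => (∫ s in (0:ℝ)..x, φ₂ t s y) - x * m₂ t -
      ((∫ s in (0:ℝ)..y, φ₁ t 0 s) - y * m₁ t) := funext fun x => hψf t x y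
    rw [e]
    have h1 := ((k2x t y).integral_hasStrictDerivAt 0 x).hasDerivAt
    have h2 := ((h1.sub ((hasDerivAt_id x).mul_const (m₂ t))).sub_const
      ((∫ s in (0:ℝ)..y, φ₁ t 0 s) - y * m₁ t)).deriv
    simp only [id, one_mul] at h2
    exact h2
  have hdy : ∀ t x y, deriv (fun s => ψ t x s) y = -(φ₁ t x y - m₁ t) := by
    intro t x y
    have e : (fun s => ψ t x s) = fun y => (∫ s in (0:ℝ)..x, φ₂ t s y) - x * m₂ t -
      ((∫ s in (0:ℝ)..y, φ₁ t 0 s) - y * m₁ t) := funext fun y => hψf t x y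
    rw [e]
    have h1 := ((k1y t 0).integral_hasStrictDerivAt 0 y).hasDerivAt
    have h2 := (((hInt t x y).sub_const (x * m₂ t)).sub
      (h1.sub ((hasDerivAt_id y).mul_const (m₁ t)))).deriv
    simp only [id, one_mul] at h2
    refine Eq.trans h2 ?_
    ring
  refine ⟨ψ, m₁, m₂, hψ.of_le (by norm_cast), ?_, ?_, hdx, hdy, ?_, ?_, ?_⟩
  · intro t x y
    constructor
    · rw [hψf, hψf]
      have h1 : ∫ s in x..(x + 1), φ₂ t s y = m₂ t := by
        have hper : Function.Periodic (fun s => φ₂ t s y) 1 := fun s => ((hp t).2 s y).1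
        rw [hper.intervalIntegral_add_eq x 0, zero_add]
        exact hmean t y
      have h2 := intervalIntegral.integral_add_adjacent_intervals
        ((k2x t y).intervalIntegrable (μ := volume) 0 x)
        ((k2x t y).intervalIntegrable (μ := volume) x (x + 1))
      rw [← h2, h1]
      ring
    · rw [hψf, hψf]
      have h0 : ∀ s, φ₂ t s (y + 1) = φ₂ t s y := fun s => ((hp t).2 s y).2
      have h1 : ∫ s in y..(y + 1), φ₁ t 0 s = m₁ t := by
        have hper : Function.Periodic (fun s => φ₁ t 0 s) 1 := fun s => ((hp t).1 0 s).2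
        rw [hper.intervalIntegral_add_eq y 0, zero_add]
      have h2 := intervalIntegral.integral_add_adjacent_intervals
        ((k1y t 0).intervalIntegrable (μ := volume) 0 y)
        ((k1y t 0).intervalIntegrable (μ := volume) y (y + 1))
      simp_rw [h0]
      rw [← h2, h1]
      ring
  · obtain ⟨R, hR⟩ := hs
    refine ⟨R, fun t ht x y => ?_⟩
    have h1 : ∀ x y, φ₁ t x y = 0 := fun x y => (hR t ht x y).1
    have h2 : ∀ x y, φ₂ t x y = 0 := fun x y => (hR t ht x y).2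
    rw [hψf]
    have e1 : m₁ t = 0 := by
      show ∫ s in (0:ℝ)..1, φ₁ t 0 s = 0
      simp [h1]
    have e2 : m₂ t = 0 := by
      show ∫ s in (0:ℝ)..1, φ₂ t s 0 = 0
      simp [h2]
    rw [e1, e2]
    simp [h1, h2]
  · intro t
    have e : (fun q : ℝ × ℝ => deriv (fun s => ψ s q.1 q.2) t) =
        fun q : ℝ × ℝ => fderiv ℝ (fun q : ℝ × ℝ × ℝ => ψ q.1 q.2.1 q.2.2) (t, q.1, q.2) (1, 0, 0) := by
      funext q
      exact (pd1 (fun q : ℝ × ℝ × ℝ => ψ q.1 q.2.1 q.2.2) hψ t q.1 q.2).deriv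
    rw [e]
    have h1 : ContDiff ℝ 1 (fderiv ℝ (fun q : ℝ × ℝ × ℝ => ψ q.1 q.2.1 q.2.2)) :=
      hψ.fderiv_right (m := 1) (by norm_cast)
    exact (h1.comp (by fun_prop : ContDiff ℝ 1 fun q : ℝ × ℝ => (t, q.1, q.2))).clm_apply
      contDiff_const
  · intro t x y
    have h := mix (fun s r => ψ s r y)
      (hψ.comp (by fun_prop : ContDiff ℝ (⊤ : ℕ∞) fun q : ℝ × ℝ => (q.1, q.2, y))) t x
    rw [h]
    simp_rw [hdx]
    rw [deriv_fun_sub (pd1 F2 c2 t x y).differentiableAt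
      ((hm2.differentiable (by simp)) t)]
  · intro t x y
    have h := mix (fun s r => ψ s x r)
      (hψ.comp (by fun_prop : ContDiff ℝ (⊤ : ℕ∞) fun q : ℝ × ℝ => (q.1, x, q.2))) t y
    rw [h]
    simp_rw [hdy]
    rw [deriv.fun_neg, deriv_fun_sub (pd1 F1 c1 t x y).differentiableAt
      ((hm1.differentiable (by simp)) t)]

end JW5

end Pool.Agent.Helper118.Yud
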