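import Pool.Agent.Helper383.TY.WDefs
import Pool.Agent.Helper118.Yud.E1
import Pool.Agent.Helper118.Yud.E4
import Pool.Agent.Helper118.Yud.E5
import Pool.Agent.Helper118.Yud.E6

set_option autoImplicit false

open MeasureTheory Complex Set Filter Topology

namespace Pool.Agent.Helper118.Yud


namespace JW7

theorem w7_haar_10859 : (volume : Measure T2).IsAddHaarMeasure := by
  rw [Measure.volume_eq_prod]
  infer_instance

theorem w7_neg_10859 : (volume : Measure T2).IsNegInvariant := by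
  have h1 : (volume : Measure T2).IsAddHaarMeasure := w7_haar_10859
  have h2 : IsFiniteMeasure (volume : Measure T2) := by
    rw [Measure.volume_eq_prod]
    infer_instance
  have h3 : Measure.InnerRegular (volume : Measure T2) := inferInstance
  infer_instance

theorem w7_pr_cont_10859 : Continuous pr := by
  unfold pr
  exact ((AddCircle.continuous_mk' (1 : ℝ)).comp Complex.continuous_re).prodMk
    ((AddCircle.continuous_mk' (1 : ℝ)).comp Complex.continuous_im)

theorem w7_mv_cont_10859 {ξ : ℝ → T2 → ℂ} (h : Continuous (Function.uncurry ξ)) :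
    Continuous (fun p : ℝ × T2 => mv (ξ p.1) p.2) := by
  unfold mv
  exact continuous_snd.add (w7_pr_cont_10859.comp h)

theorem w7_bd_10859 (ω : T2 → ℝ) (hω : Continuous ω) : ∃ M : ℝ, ∀ x, |ω x| ≤ M :=
  ⟨‖(⟨ω, hω⟩ : C(T2, ℝ))‖, fun x => (⟨ω, hω⟩ : C(T2, ℝ)).norm_coe_le_norm x⟩

/-- inverse flow -/
theorem exists_inv {K : T2 → ℂ} {C : ℝ} (hK : IsBS K C) (ω : T2 → ℝ) (hω : Continuous ω)
    (ξ : ℝ → T2 → ℂ) (hξ : Lagr K ω ξ) :
    ∃ Y : ℝ → T2 → T2, Continuous (Function.uncurry Y) ∧ (∀ t b, Y t (mv (ξ t) b) = b) ∧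
      (∀ t x, mv (ξ t) (Y t x) = x) := by
  have i1 := w7_haar_10859
  obtain ⟨M, hM⟩ := w7_bd_10859 ω hω
  have hXc := w7_mv_cont_10859 hξ.cont
  have hXt : ∀ t, Continuous (mv (ξ t)) := fun t =>
    hXc.comp (continuous_const.prodMk continuous_id)
  have hinj := fun t => lagr_injective hK ω hω.measurable M hM ξ hξ t
  have hsurj : ∀ t, Function.Surjective (mv (ξ t)) := by
    intro t
    have hcl : IsClosed (Set.range (mv (ξ t))) := (isCompact_range (hXt t)).isClosed
    have hop : IsOpen (Set.range (mv (ξ t)))ᶜ := hcl.isOpen_compl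
    have h0 : volume (Set.range (mv (ξ t)))ᶜ = 0 := by
      rw [← (hξ.mp t).measure_preimage hop.measurableSet.nullMeasurableSet]
      have : mv (ξ t) ⁻¹' (Set.range (mv (ξ t)))ᶜ = ∅ := by
        ext b
        simp
      rw [this, measure_empty]
    have h1 : (Set.range (mv (ξ t)))ᶜ = ∅ := (hop.measure_eq_zero_iff (μ := volume)).1 h0
    rw [Set.compl_empty_iff] at h1
    exact Set.range_eq_univ.1 h1
  choose Y hY' using hsurj
  have hY : ∀ t b, Y t (mv (ξ t) b) = b := fun t b => hinj t (hY' t _)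
  refine ⟨Y, ?_, hY, hY'⟩
  rw [continuous_iff_isClosed]
  intro s hs
  have e : Function.uncurry Y ⁻¹' s = Prod.fst '' {q : (ℝ × T2) × T2 |
      mv (ξ q.1.1) q.2 = q.1.2 ∧ q.2 ∈ s} := by
    ext ⟨t, x⟩
    constructor
    · intro h
      exact ⟨((t, x), Y t x), ⟨hY' t x, h⟩, rfl⟩
    · rintro ⟨⟨⟨t', x'⟩, b⟩, ⟨h1, h2⟩, h3⟩
      have h4 : (t', x') = (t, x) := h3
      rw [Prod.mk.injEq] at h4
      obtain ⟨rfl, rfl⟩ := h4
      show Y t' x' ∈ s
      have h5 : mv (ξ t') b = x' := h1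
      rw [← h5, hY]
      exact h2
  rw [e]
  refine isClosedMap_fst_of_compactSpace _ (IsClosed.inter ?_ ?_)
  · refine isClosed_eq ?_ ?_
    · exact hXc.comp ((continuous_fst.comp continuous_fst).prodMk continuous_snd)
    · exact continuous_snd.comp continuous_fst
  · exact hs.preimage continuous_snd

/-- the velocity is jointly continuous -/
theorem continuous_vel {K : T2 → ℂ} {C : ℝ} (hK : IsBS K C) (ω : T2 → ℝ) (hω : Continuous ω)
    (ξ : ℝ → T2 → ℂ) (hξ : Lagr K ω ξ) : Continuous (fun q : ℝ × T2 => vel K ω (ξ q.1) q.2) := by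
  obtain ⟨M, hM⟩ := w7_bd_10859 ω hω
  rw [continuous_iff_continuousAt]
  rintro ⟨t, x⟩
  have h := vel_continuousOn hK ω hω.measurable M hM (|t| + 1) ξ hξ.cont (fun s _ => hξ.mp s)
  refine h.continuousAt (prod_mem_nhds (Icc_mem_nhds ?_ ?_) univ_mem)
  · have := neg_abs_le t
    linarith
  · have := le_abs_self t
    linarith

/-- Eulerian form of the velocity -/
theorem vel_eq_conv {K : T2 → ℂ} {C : ℝ} (hK : IsBS K C) (ω : T2 → ℝ) (hω : Continuous ω)
    (ξ : ℝ → T2 → ℂ) (hξ : Lagr K ω ξ) (Y : ℝ → T2 → T2) (hYc : Continuous (Function.uncurry Y))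
    (hY : ∀ t b, Y t (mv (ξ t) b) = b) (hY' : ∀ t x, mv (ξ t) (Y t x) = x) (t : ℝ) (x : T2) :
    vel K ω (ξ t) x = ∫ b, ((ω (Y t b) - ∫ c, ω c : ℝ) : ℂ) * K (x - b) := by
  have i1 := w7_haar_10859
  have i2 := w7_neg_10859
  obtain ⟨M, hM⟩ := w7_bd_10859 ω hω
  have hYt : Continuous (Y t) := hYc.comp (continuous_const.prodMk continuous_id)
  have hint : Integrable (fun b => K (x - b)) volume := hK.integrable.comp_sub_left x
  have hwm : Measurable (fun b => ((ω (Y t b) : ℝ) : ℂ)) :=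
    (Complex.continuous_ofReal.comp (hω.comp hYt)).measurable
  have hhint : Integrable (fun b => ((ω (Y t b) : ℝ) : ℂ) * K (x - b)) volume := by
    refine hint.bdd_mul (c := M) hwm.aestronglyMeasurable (Filter.Eventually.of_forall fun b => ?_)
    rw [Complex.norm_real]
    exact hM _
  have h1 : vel K ω (ξ t) x = ∫ b, ((ω (Y t b) : ℝ) : ℂ) * K (x - b) := by
    unfold vel
    have h2 : ∫ y, ((ω (Y t y) : ℝ) : ℂ) * K (x - y) ∂(Measure.map (mv (ξ t)) volume) =
        ∫ b, ((ω (Y t (mv (ξ t) b)) : ℝ) : ℂ) * K (x - mv (ξ t) b) := by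
      refine integral_map (hξ.mp t).measurable.aemeasurable ?_
      rw [(hξ.mp t).map_eq]
      exact hhint.aestronglyMeasurable
    rw [(hξ.mp t).map_eq] at h2
    rw [h2]
    simp only [hY]
  have h3 : ∫ b, K (x - b) = 0 := by
    rw [integral_sub_left_eq_self K volume x, hK.fc0]
  rw [h1]
  have h4 : ∀ b, ((ω (Y t b) - ∫ c, ω c : ℝ) : ℂ) * K (x - b) =
      ((ω (Y t b) : ℝ) : ℂ) * K (x - b) - ((∫ c, ω c : ℝ) : ℂ) * K (x - b) := by
    intro b
    push_cast
    ring
  simp only [h4]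
  rw [integral_sub hhint (hint.const_mul _), integral_const_mul, h3, mul_zero, sub_zero]

theorem integral_comp_Y {K : T2 → ℂ} {C : ℝ} (hK : IsBS K C) (ω : T2 → ℝ) (hω : Continuous ω)
    (ξ : ℝ → T2 → ℂ) (hξ : Lagr K ω ξ) (Y : ℝ → T2 → T2) (hYc : Continuous (Function.uncurry Y))
    (hY : ∀ t b, Y t (mv (ξ t) b) = b) (hY' : ∀ t x, mv (ξ t) (Y t x) = x) (t : ℝ)
    (G : T2 → ℝ) (hG : Continuous G) :
    ∫ b, (ω b - ∫ c, ω c) * G (mv (ξ t) b) = ∫ x, (ω (Y t x) - ∫ c, ω c) * G x := by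
  have hYt : Continuous (Y t) := hYc.comp (continuous_const.prodMk continuous_id)
  have hc : Continuous (fun x => (ω (Y t x) - ∫ c, ω c) * G x) :=
    ((hω.comp hYt).sub continuous_const).mul hG
  have h2 : ∫ y, (ω (Y t y) - ∫ c, ω c) * G y ∂(Measure.map (mv (ξ t)) volume) =
      ∫ b, (ω (Y t (mv (ξ t) b)) - ∫ c, ω c) * G (mv (ξ t) b) :=
    integral_map (hξ.mp t).measurable.aemeasurable hc.aestronglyMeasurable
  rw [(hξ.mp t).map_eq] at h2
  rw [h2]
  simp only [hY]

end JW7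

end Pool.Agent.Helper118.Yud
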