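import Pool.Agent.Helper383.TY.WH
import Pool.Agent.Helper118.Yud.E6
import Pool.Agent.Helper383.TY.W0
import Pool.Agent.Helper383.TY.W7

set_option autoImplicit false

open MeasureTheory Complex Set Filter Topology

namespace Pool.Agent.Helper118.Yud

open JW0 (ds_coe ds_add_pr continuous_ds2 continuous_ds integral_T2)
open JW7 (exists_inv continuous_vel vel_eq_conv integral_comp_Y)

namespace JW6

/-- the derivative of the test function along the flow -/
noncomputable def FF_10858 (K : T2 → ℂ) (ω : T2 → ℝ) (ξ : ℝ → T2 → ℂ) (ψ : ℝ → ℝ → ℝ → ℝ)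
    (t x y : ℝ) : ℝ :=
  deriv (fun s => ψ s x y) t
    + (vel K ω (ξ t) ((x : UnitAddCircle), (y : UnitAddCircle))).re * deriv (fun s => ψ t s y) x
    + (vel K ω (ξ t) ((x : UnitAddCircle), (y : UnitAddCircle))).im * deriv (fun s => ψ t x s) y

theorem pd_10858 (ψ : ℝ → ℝ → ℝ → ℝ)
    (hψ : ContDiff ℝ 1 (fun q : ℝ × ℝ × ℝ => ψ q.1 q.2.1 q.2.2)) (t x y : ℝ) :
    deriv (fun s => ψ s x y) t =
      fderiv ℝ (fun q : ℝ × ℝ × ℝ => ψ q.1 q.2.1 q.2.2) (t, x, y) (1, 0, 0) ∧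
    deriv (fun s => ψ t s y) x =
      fderiv ℝ (fun q : ℝ × ℝ × ℝ => ψ q.1 q.2.1 q.2.2) (t, x, y) (0, 1, 0) ∧
    deriv (fun s => ψ t x s) y =
      fderiv ℝ (fun q : ℝ × ℝ × ℝ => ψ q.1 q.2.1 q.2.2) (t, x, y) (0, 0, 1) := by
  have hd := ((hψ.differentiable one_ne_zero) (t, x, y)).hasFDerivAt
  refine ⟨?_, ?_, ?_⟩
  · have h : HasDerivAt (fun s : ℝ => (s, x, y)) (1, 0, 0) t :=
      (hasDerivAt_id t).prodMk ((hasDerivAt_const t x).prodMk (hasDerivAt_const t y))
    exact (HasFDerivAt.comp_hasDerivAt t hd h).deriv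
  · have h : HasDerivAt (fun s : ℝ => (t, s, y)) (0, 1, 0) x :=
      (hasDerivAt_const x t).prodMk ((hasDerivAt_id x).prodMk (hasDerivAt_const x y))
    exact (HasFDerivAt.comp_hasDerivAt x hd h).deriv
  · have h : HasDerivAt (fun s : ℝ => (t, x, s)) (0, 0, 1) y :=
      (hasDerivAt_const y t).prodMk ((hasDerivAt_const y x).prodMk (hasDerivAt_id y))
    exact (HasFDerivAt.comp_hasDerivAt y hd h).deriv

theorem cc_10858 : Continuous (fun x : ℝ => (x : UnitAddCircle)) :=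
  continuous_quotient_mk'

theorem FF_cont_10858 (K : T2 → ℂ) (ω : T2 → ℝ) (ξ : ℝ → T2 → ℂ)
    (hv : Continuous (fun q : ℝ × T2 => vel K ω (ξ q.1) q.2))
    (ψ : ℝ → ℝ → ℝ → ℝ) (hψ : ContDiff ℝ 1 (fun q : ℝ × ℝ × ℝ => ψ q.1 q.2.1 q.2.2)) :
    Continuous (fun q : ℝ × ℝ × ℝ => FF_10858 K ω ξ ψ q.1 q.2.1 q.2.2) := by
  have hf := hψ.continuous_fderiv one_ne_zero
  have hc : Continuous (fun q : ℝ × ℝ × ℝ =>
      vel K ω (ξ q.1) ((q.2.1 : UnitAddCircle), (q.2.2 : UnitAddCircle))) :=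
    hv.comp (continuous_fst.prodMk ((cc_10858.comp (continuous_fst.comp continuous_snd)).prodMk
      (cc_10858.comp (continuous_snd.comp continuous_snd))))
  have e : (fun q : ℝ × ℝ × ℝ => FF_10858 K ω ξ ψ q.1 q.2.1 q.2.2) = fun q =>
      fderiv ℝ (fun q : ℝ × ℝ × ℝ => ψ q.1 q.2.1 q.2.2) q (1, 0, 0)
      + (vel K ω (ξ q.1) ((q.2.1 : UnitAddCircle), (q.2.2 : UnitAddCircle))).re *
        fderiv ℝ (fun q : ℝ × ℝ × ℝ => ψ q.1 q.2.1 q.2.2) q (0, 1, 0)
      + (vel K ω (ξ q.1) ((q.2.1 : UnitAddCircle), (q.2.2 : UnitAddCircle))).im *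
        fderiv ℝ (fun q : ℝ × ℝ × ℝ => ψ q.1 q.2.1 q.2.2) q (0, 0, 1) := by
    funext q
    obtain ⟨h1, h2, h3⟩ := pd_10858 ψ hψ q.1 q.2.1 q.2.2
    unfold FF_10858
    rw [h1, h2, h3]
  rw [e]
  exact ((hf.clm_apply continuous_const).add
    ((Complex.continuous_re.comp hc).mul (hf.clm_apply continuous_const))).add
    ((Complex.continuous_im.comp hc).mul (hf.clm_apply continuous_const))

theorem FF_per_10858 (K : T2 → ℂ) (ω : T2 → ℝ) (ξ : ℝ → T2 → ℂ)
    (ψ : ℝ → ℝ → ℝ → ℝ) (hp : ∀ t, Per (ψ t)) (t : ℝ) : Per (FF_10858 K ω ξ ψ t) := by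
  intro x y
  have hc : ∀ x : ℝ, ((x + 1 : ℝ) : UnitAddCircle) = (x : UnitAddCircle) := fun x => by
    exact AddCircle.coe_add_period 1 x
  constructor
  · unfold FF_10858
    rw [hc]
    have h1 : (fun s => ψ s (x + 1) y) = fun s => ψ s x y := funext fun s => (hp s x y).1
    have h2 : deriv (fun s => ψ t s y) (x + 1) = deriv (fun s => ψ t s y) x := by
      rw [← deriv_comp_add_const (f := fun s => ψ t s y) (a := 1)]
      congr 1
      funext s
      exact (hp t s y).1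
    have h3 : (fun s => ψ t (x + 1) s) = fun s => ψ t x s := funext fun s => (hp t x s).1
    rw [h1, h2, h3]
  · unfold FF_10858
    rw [hc]
    have h1 : (fun s => ψ s x (y + 1)) = fun s => ψ s x y := funext fun s => (hp s x y).2
    have h2 : deriv (fun s => ψ t x s) (y + 1) = deriv (fun s => ψ t x s) y := by
      rw [← deriv_comp_add_const (f := fun s => ψ t x s) (a := 1)]
      congr 1
      funext s
      exact (hp t x s).2
    have h3 : (fun s => ψ t s (y + 1)) = fun s => ψ t s y := funext fun s => (hp t s y).2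
    rw [h1, h2, h3]

theorem rp_add_10858 (b : T2) (z : ℂ) :
    (((rp b.1 + z.re : ℝ) : UnitAddCircle), ((rp b.2 + z.im : ℝ) : UnitAddCircle)) =
      b + pr z := by
  have h : ∀ c : UnitAddCircle, ((rp c : ℝ) : UnitAddCircle) = c := fun c => AddCircle.coe_equivIco
  refine Prod.ext ?_ ?_
  · show ((rp b.1 + z.re : ℝ) : UnitAddCircle) = b.1 + ((z.re : ℝ) : UnitAddCircle)
    rw [AddCircle.coe_add, h]
  · show ((rp b.2 + z.im : ℝ) : UnitAddCircle) = b.2 + ((z.im : ℝ) : UnitAddCircle)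
    rw [AddCircle.coe_add, h]

theorem flow_deriv_10858 {K : T2 → ℂ} {C : ℝ} (hK : IsBS K C) (ω : T2 → ℝ) (hω : Measurable ω)
    (M : ℝ) (hM : ∀ x, |ω x| ≤ M)
    (ξ : ℝ → T2 → ℂ) (hξ : Lagr K ω ξ)
    (ψ : ℝ → ℝ → ℝ → ℝ) (hψ : ContDiff ℝ 1 (fun q : ℝ × ℝ × ℝ => ψ q.1 q.2.1 q.2.2))
    (hp : ∀ t, Per (ψ t)) (b : T2) (t : ℝ) :
    HasDerivAt (fun t => ds (ψ t) (mv (ξ t) b)) (ds (FF_10858 K ω ξ ψ t) (mv (ξ t) b)) t := by
  have e1 : (fun t => ds (ψ t) (mv (ξ t) b)) =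
      fun t => ψ t (rp b.1 + (ξ t b).re) (rp b.2 + (ξ t b).im) :=
    funext fun t => ds_add_pr (ψ t) (hp t) b (ξ t b)
  have e2 : ds (FF_10858 K ω ξ ψ t) (mv (ξ t) b) =
      FF_10858 K ω ξ ψ t (rp b.1 + (ξ t b).re) (rp b.2 + (ξ t b).im) :=
    ds_add_pr _ (FF_per_10858 K ω ξ ψ hp t) b (ξ t b)
  rw [e1, e2]
  have hx := Lagr.hasDerivAt hK ω hω M hM ξ hξ t b
  set v := vel K ω (ξ t) (mv (ξ t) b) with hvd
  have hre : HasDerivAt (fun s => (ξ s b).re) v.re t :=
    (Complex.reCLM.hasFDerivAt.comp_hasDerivAt t hx)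
  have him : HasDerivAt (fun s => (ξ s b).im) v.im t :=
    (Complex.imCLM.hasFDerivAt.comp_hasDerivAt t hx)
  have hγ : HasDerivAt (fun s : ℝ => (s, rp b.1 + (ξ s b).re, rp b.2 + (ξ s b).im))
      (1, v.re, v.im) t :=
    (hasDerivAt_id t).prodMk ((hre.const_add _).prodMk (him.const_add _))
  have hd := ((hψ.differentiable one_ne_zero)
    (t, rp b.1 + (ξ t b).re, rp b.2 + (ξ t b).im)).hasFDerivAt
  have h := HasFDerivAt.comp_hasDerivAt t hd hγ
  have e3 : ((1, v.re, v.im) : ℝ × ℝ × ℝ) = (1, 0, 0) + v.re • (0, 1, 0) + v.im • (0, 0, 1) := by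
    simp
  have e4 : vel K ω (ξ t) (((rp b.1 + (ξ t b).re : ℝ) : UnitAddCircle),
      ((rp b.2 + (ξ t b).im : ℝ) : UnitAddCircle)) = v := by
    rw [rp_add_10858]
    rfl
  obtain ⟨h1, h2, h3⟩ := pd_10858 ψ hψ t (rp b.1 + (ξ t b).re) (rp b.2 + (ξ t b).im)
  rw [e3, map_add, map_add, map_smul, map_smul, ← h1, ← h2, ← h3] at h
  unfold FF_10858
  rw [e4]
  exact h

/-- weak vorticity equation -/
theorem vort_weak {K : T2 → ℂ} {C : ℝ} (hK : IsBS K C) (ω : T2 → ℝ) (hω : Continuous ω)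
    (ξ : ℝ → T2 → ℂ) (hξ : Lagr K ω ξ) (Y : ℝ → T2 → T2) (hYc : Continuous (Function.uncurry Y))
    (hY : ∀ t b, Y t (mv (ξ t) b) = b) (hY' : ∀ t x, mv (ξ t) (Y t x) = x)
    (hv : Continuous (fun q : ℝ × T2 => vel K ω (ξ q.1) q.2))
    (ψ : ℝ → ℝ → ℝ → ℝ) (hψ : ContDiff ℝ 1 (fun q : ℝ × ℝ × ℝ => ψ q.1 q.2.1 q.2.2))
    (hp : ∀ t, Per (ψ t)) (hs : ∃ R : ℝ, ∀ t, R ≤ |t| → ∀ x y, ψ t x y = 0) :
    ∫ t : ℝ, ∫ x in (0:ℝ)..1, ∫ y in (0:ℝ)..1,
      (ω (Y t ((x : UnitAddCircle), (y : UnitAddCircle))) - ∫ b, ω b) *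
      (deriv (fun s => ψ s x y) t
        + (vel K ω (ξ t) ((x : UnitAddCircle), (y : UnitAddCircle))).re * deriv (fun s => ψ t s y) x
        + (vel K ω (ξ t) ((x : UnitAddCircle), (y : UnitAddCircle))).im * deriv (fun s => ψ t x s) y) = 0 := by
  obtain ⟨M, hM⟩ : ∃ M : ℝ, ∀ x, |ω x| ≤ M := by
    obtain ⟨M, hM⟩ := isCompact_univ.exists_bound_of_continuousOn hω.continuousOn
    exact ⟨M, fun x => hM x (mem_univ _)⟩
  obtain ⟨R, hR⟩ := hs
  set m : ℝ := ∫ b, ω b with hm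
  have hPer := FF_per_10858 K ω ξ ψ hp
  have hFc := FF_cont_10858 K ω ξ hv ψ hψ
  have hpr : Continuous pr :=
    (cc_10858.comp Complex.continuous_re).prodMk (cc_10858.comp Complex.continuous_im)
  have hmv : Continuous (fun q : ℝ × T2 => mv (ξ q.1) q.2) :=
    continuous_snd.add (hpr.comp hξ.cont)
  have hc1 : Continuous (fun q : ℝ × T2 => (ω q.2 - m) * ds (FF_10858 K ω ξ ψ q.1) (mv (ξ q.1) q.2)) :=
    ((hω.comp continuous_snd).sub continuous_const).mul
      ((continuous_ds2 _ hPer hFc).comp (continuous_fst.prodMk hmv))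
  have hc2 : Continuous (fun q : ℝ × T2 => (ω q.2 - m) * ds (ψ q.1) (mv (ξ q.1) q.2)) :=
    ((hω.comp continuous_snd).sub continuous_const).mul
      ((continuous_ds2 _ hp hψ.continuous).comp (continuous_fst.prodMk hmv))
  have hc1' : ∀ t, Continuous (fun b : T2 => (ω b - m) * ds (FF_10858 K ω ξ ψ t) (mv (ξ t) b)) :=
    fun t => hc1.comp (continuous_const.prodMk continuous_id)
  have hc2' : ∀ t, Continuous (fun b : T2 => (ω b - m) * ds (ψ t) (mv (ξ t) b)) :=
    fun t => hc2.comp (continuous_const.prodMk continuous_id)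
  set g : ℝ → ℝ := fun t => ∫ b, (ω b - m) * ds (ψ t) (mv (ξ t) b) with hg
  set g' : ℝ → ℝ := fun t => ∫ b, (ω b - m) * ds (FF_10858 K ω ξ ψ t) (mv (ξ t) b) with hg'
  have hder : ∀ t, HasDerivAt g (g' t) t := by
    intro t
    obtain ⟨B, hB⟩ := ((isCompact_closedBall t 1).prod
      (isCompact_univ (X := T2))).exists_bound_of_continuousOn hc1.continuousOn
    refine (hasDerivAt_integral_of_dominated_loc_of_deriv_le
      (F := fun t b => (ω b - m) * ds (ψ t) (mv (ξ t) b))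
      (F' := fun t b => (ω b - m) * ds (FF_10858 K ω ξ ψ t) (mv (ξ t) b))
      (bound := fun _ => B) (Metric.ball_mem_nhds t one_pos)
      (Filter.Eventually.of_forall fun s => (hc2' s).aestronglyMeasurable)
      ((hc2' t).integrable_of_hasCompactSupport (HasCompactSupport.of_compactSpace _))
      (hc1' t).aestronglyMeasurable
      (Filter.Eventually.of_forall fun b s hs => hB (s, b)
        ⟨Metric.ball_subset_closedBall hs, mem_univ _⟩)
      (integrable_const B)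
      (Filter.Eventually.of_forall fun b s _ =>
        (flow_deriv_10858 hK ω hω.measurable M hM ξ hξ ψ hψ hp b s).const_mul (ω b - m))).2
  have hg0 : ∀ t, R ≤ |t| → g t = 0 := by
    intro t ht
    have : (fun b => (ω b - m) * ds (ψ t) (mv (ξ t) b)) = fun _ => 0 := by
      funext b
      unfold ds
      rw [hR t ht, mul_zero]
    simp only [hg, this, integral_zero]
  have hg'0 : ∀ t, R < |t| → g' t = 0 := by
    intro t ht
    have h1 : g =ᶠ[𝓝 t] fun _ => 0 := by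
      have h2 : ∀ᶠ s in 𝓝 t, R < |s| :=
        (continuous_abs.tendsto t).eventually (lt_mem_nhds ht)
      filter_upwards [h2] with s hs
      exact hg0 s hs.le
    have h3 : HasDerivAt g 0 t := (hasDerivAt_const t (0 : ℝ)).congr_of_eventuallyEq h1
    exact (hder t).unique h3
  have hg'c : Continuous g' := by
    have := continuous_parametric_integral_of_continuous (μ := (volume : Measure T2))
      (f := fun t b => (ω b - m) * ds (FF_10858 K ω ξ ψ t) (mv (ξ t) b)) hc1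
      (isCompact_univ (X := T2))
    simpa only [Measure.restrict_univ] using this
  have hg'i : Integrable g' := by
    refine hg'c.integrable_of_hasCompactSupport ?_
    refine HasCompactSupport.intro (isCompact_Icc (a := -R) (b := R)) fun t ht => hg'0 t ?_
    by_contra h
    exact ht (abs_le.1 (not_lt.1 h))
  have hbot : Tendsto g atBot (𝓝 0) := by
    refine tendsto_const_nhds.congr' ?_
    filter_upwards [eventually_le_atBot (-R)] with s hs
    exact (hg0 s (le_abs.2 (Or.inr (by linarith)))).symm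
  have htop : Tendsto g atTop (𝓝 0) := by
    refine tendsto_const_nhds.congr' ?_
    filter_upwards [eventually_ge_atTop R] with s hs
    exact (hg0 s (le_abs.2 (Or.inl hs))).symm
  have hfin := integral_of_hasDerivAt_of_tendsto hder hg'i hbot htop
  rw [sub_zero] at hfin
  refine Eq.trans ?_ hfin
  refine integral_congr_ae (Filter.Eventually.of_forall fun t => ?_)
  have hYt : Continuous (Y t) := hYc.comp (continuous_const.prodMk continuous_id)
  have hGc : Continuous (ds (FF_10858 K ω ξ ψ t)) :=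
    continuous_ds _ (hPer t) (hFc.comp (continuous_const.prodMk continuous_id))
  have e1 := integral_comp_Y hK ω hω ξ hξ Y hYc hY hY' t (ds (FF_10858 K ω ξ ψ t)) hGc
  have e2 := integral_T2 (fun x => (ω (Y t x) - m) * ds (FF_10858 K ω ξ ψ t) x)
    (((hω.comp hYt).sub continuous_const).mul hGc)
  simp only [ds_coe _ (hPer t)] at e2
  show _ = ∫ b, (ω b - m) * ds (FF_10858 K ω ξ ψ t) (mv (ξ t) b)
  rw [e1, e2]
  rfl

end JW6

end Pool.Agent.Helper118.Yud
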