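import Pool.Agent.Helper383.TY.WH
import Pool.Agent.Helper383.TY.W4b

set_option autoImplicit false

open MeasureTheory Complex Set Filter Topology

namespace Pool.Agent.Helper118.Yud


namespace JW8a

theorem II_add (f g : ℝ → ℝ → ℝ) (hf : Continuous (fun q : ℝ × ℝ => f q.1 q.2))
    (hg : Continuous (fun q : ℝ × ℝ => g q.1 q.2)) :
    ∫ x in (0:ℝ)..1, ∫ y in (0:ℝ)..1, (f x y + g x y) =
      (∫ x in (0:ℝ)..1, ∫ y in (0:ℝ)..1, f x y) + ∫ x in (0:ℝ)..1, ∫ y in (0:ℝ)..1, g x y := by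
  have h1 : ∀ x, (∫ y in (0:ℝ)..1, (f x y + g x y)) =
      (∫ y in (0:ℝ)..1, f x y) + ∫ y in (0:ℝ)..1, g x y := by
    intro x
    apply intervalIntegral.integral_add
    · exact (hf.comp (continuous_const.prodMk continuous_id)).intervalIntegrable _ _
    · exact (hg.comp (continuous_const.prodMk continuous_id)).intervalIntegrable _ _
  simp only [h1]
  apply intervalIntegral.integral_add
  · exact (intervalIntegral.continuous_parametric_intervalIntegral_of_continuous'
      (f := f) (by exact hf) 0 1).intervalIntegrable _ _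
  · exact (intervalIntegral.continuous_parametric_intervalIntegral_of_continuous'
      (f := g) (by exact hg) 0 1).intervalIntegrable _ _

theorem II_cmul (c : ℝ) (f : ℝ → ℝ → ℝ) :
    ∫ x in (0:ℝ)..1, ∫ y in (0:ℝ)..1, (c * f x y) =
      c * ∫ x in (0:ℝ)..1, ∫ y in (0:ℝ)..1, f x y := by
  simp only [intervalIntegral.integral_const_mul]

theorem key_fixed {u v w : ℝ → ℝ → ℝ} (h : UAp u v w) (φ₁ φ₂ A B P ψx ψy : ℝ → ℝ → ℝ)
    (h1 : Per φ₁) (h2 : Per φ₂)
    (c1 : ContDiff ℝ 1 (fun q : ℝ × ℝ => φ₁ q.1 q.2)) (c2 : ContDiff ℝ 1 (fun q : ℝ × ℝ => φ₂ q.1 q.2))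
    (hd : ∀ x y, deriv (fun s => φ₁ s y) x + deriv (fun s => φ₂ x s) y = 0)
    (hP : Per P) (cP : ContDiff ℝ 1 (fun q : ℝ × ℝ => P q.1 q.2)) (m1 m2 a b : ℝ)
    (cA : Continuous (fun q : ℝ × ℝ => A q.1 q.2)) (cB : Continuous (fun q : ℝ × ℝ => B q.1 q.2))
    (hPx : ∀ x y, deriv (fun s => P s y) x = B x y - b)
    (hPy : ∀ x y, deriv (fun s => P x s) y = -(A x y - a))
    (hψx : ∀ x y, ψx x y = φ₂ x y - m2) (hψy : ∀ x y, ψy x y = -(φ₁ x y - m1)) :
    (∫ x in (0:ℝ)..1, ∫ y in (0:ℝ)..1,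
      (u x y * A x y + v x y * B x y
        + u x y * u x y * deriv (fun s => φ₁ s y) x
        + u x y * v x y * (deriv (fun s => φ₁ x s) y + deriv (fun s => φ₂ s y) x)
        + v x y * v x y * deriv (fun s => φ₂ x s) y)) =
      - ∫ x in (0:ℝ)..1, ∫ y in (0:ℝ)..1, w x y * (P x y
        + u x y * ψx x y + v x y * ψy x y) := by
  have cu := h.cu
  have cv := h.cv
  have cw := h.cw
  have cφ1 := c1.continuous
  have cφ2 := c2.continuous
  have cPc := cP.continuous
  have dx : ∀ F : ℝ → ℝ → ℝ, ContDiff ℝ 1 (fun q : ℝ × ℝ => F q.1 q.2) →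
      Continuous (fun q : ℝ × ℝ => deriv (fun s => F s q.2) q.1) := by
    intro F hF
    have e1 : ∀ q : ℝ × ℝ, deriv (fun s => F s q.2) q.1 = fderiv ℝ (fun q : ℝ × ℝ => F q.1 q.2) q (1, 0) := by
      intro q
      have g1 : HasDerivAt (fun s : ℝ => (s, q.2)) ((1 : ℝ), (0 : ℝ)) q.1 :=
        (hasDerivAt_id q.1).prodMk (hasDerivAt_const q.1 q.2)
      have g2 := ((hF.differentiable one_ne_zero) (q.1, q.2)).hasFDerivAt.comp_hasDerivAt q.1 g1
      exact g2.deriv
    simp only [e1]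
    exact (hF.continuous_fderiv one_ne_zero).clm_apply continuous_const
  have dy : ∀ F : ℝ → ℝ → ℝ, ContDiff ℝ 1 (fun q : ℝ × ℝ => F q.1 q.2) →
      Continuous (fun q : ℝ × ℝ => deriv (fun s => F q.1 s) q.2) := by
    intro F hF
    have e1 : ∀ q : ℝ × ℝ, deriv (fun s => F q.1 s) q.2 = fderiv ℝ (fun q : ℝ × ℝ => F q.1 q.2) q (0, 1) := by
      intro q
      have g1 : HasDerivAt (fun s : ℝ => (q.1, s)) ((0 : ℝ), (1 : ℝ)) q.2 :=
        (hasDerivAt_const q.2 q.1).prodMk (hasDerivAt_id q.2)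
      have g2 := ((hF.differentiable one_ne_zero) (q.1, q.2)).hasFDerivAt.comp_hasDerivAt q.2 g1
      exact g2.deriv
    simp only [e1]
    exact (hF.continuous_fderiv one_ne_zero).clm_apply continuous_const
  have hmom := h.mom φ₁ φ₂ h1 h2 c1 c2 hd
  have hcl := h.cl P hP cP
  obtain ⟨mu, mv'⟩ := h.mean
  have hw1 : ∫ x in (0:ℝ)..1, ∫ y in (0:ℝ)..1, w x y * u x y = 0 := by
    have := h.mom (fun _ _ => 0) (fun _ _ => 1) (fun _ _ => ⟨rfl, rfl⟩) (fun _ _ => ⟨rfl, rfl⟩)
      contDiff_const contDiff_const (by simp)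
    simp at this
    simpa using this
  have hw2 : ∫ x in (0:ℝ)..1, ∫ y in (0:ℝ)..1, w x y * v x y = 0 := by
    have := h.mom (fun _ _ => 1) (fun _ _ => 0) (fun _ _ => ⟨rfl, rfl⟩) (fun _ _ => ⟨rfl, rfl⟩)
      contDiff_const contDiff_const (by simp)
    simp at this
    exact this.symm
  have cQ : Continuous (fun q : ℝ × ℝ => u q.1 q.2 * u q.1 q.2 * deriv (fun s => φ₁ s q.2) q.1
        + u q.1 q.2 * v q.1 q.2 * (deriv (fun s => φ₁ q.1 s) q.2 + deriv (fun s => φ₂ s q.2) q.1)
        + v q.1 q.2 * v q.1 q.2 * deriv (fun s => φ₂ q.1 s) q.2) := by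
    have := dx φ₁ c1
    have := dx φ₂ c2
    have := dy φ₁ c1
    have := dy φ₂ c2
    fun_prop
  have cL : Continuous (fun q : ℝ × ℝ => v q.1 q.2 * deriv (fun s => P s q.2) q.1
      - u q.1 q.2 * deriv (fun s => P q.1 s) q.2) := by
    have := dx P cP
    have := dy P cP
    fun_prop
  have L1 : ∀ x y, u x y * A x y + v x y * B x y
        + u x y * u x y * deriv (fun s => φ₁ s y) x
        + u x y * v x y * (deriv (fun s => φ₁ x s) y + deriv (fun s => φ₂ s y) x)
        + v x y * v x y * deriv (fun s => φ₂ x s) y =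
      ((v x y * deriv (fun s => P s y) x - u x y * deriv (fun s => P x s) y)
        + (u x y * u x y * deriv (fun s => φ₁ s y) x
        + u x y * v x y * (deriv (fun s => φ₁ x s) y + deriv (fun s => φ₂ s y) x)
        + v x y * v x y * deriv (fun s => φ₂ x s) y)) + (a * u x y + b * v x y) := by
    intro x y
    rw [hPx, hPy]
    ring
  have R1 : ∀ x y, w x y * (P x y + u x y * ψx x y + v x y * ψy x y) =
      (w x y * P x y + w x y * (u x y * φ₂ x y - v x y * φ₁ x y))
        + ((-m2) * (w x y * u x y) + m1 * (w x y * v x y)) := by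
    intro x y
    rw [hψx, hψy]
    ring
  simp only [L1, R1]
  rw [II_add (fun x y => (v x y * deriv (fun s => P s y) x - u x y * deriv (fun s => P x s) y)
        + (u x y * u x y * deriv (fun s => φ₁ s y) x
        + u x y * v x y * (deriv (fun s => φ₁ x s) y + deriv (fun s => φ₂ s y) x)
        + v x y * v x y * deriv (fun s => φ₂ x s) y)) (fun x y => a * u x y + b * v x y)
        (cL.add cQ) (by fun_prop),
    II_add (fun x y => v x y * deriv (fun s => P s y) x - u x y * deriv (fun s => P x s) y)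
      (fun x y => u x y * u x y * deriv (fun s => φ₁ s y) x
        + u x y * v x y * (deriv (fun s => φ₁ x s) y + deriv (fun s => φ₂ s y) x)
        + v x y * v x y * deriv (fun s => φ₂ x s) y) cL cQ,
    II_add (fun x y => a * u x y) (fun x y => b * v x y) (by fun_prop) (by fun_prop),
    II_cmul, II_cmul, hcl, hmom, mu, mv',
    II_add (fun x y => w x y * P x y + w x y * (u x y * φ₂ x y - v x y * φ₁ x y))
      (fun x y => (-m2) * (w x y * u x y) + m1 * (w x y * v x y)) (by fun_prop) (by fun_prop),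
    II_add (fun x y => w x y * P x y) (fun x y => w x y * (u x y * φ₂ x y - v x y * φ₁ x y))
      (by fun_prop) (by fun_prop),
    II_add (fun x y => (-m2) * (w x y * u x y)) (fun x y => m1 * (w x y * v x y))
      (by fun_prop) (by fun_prop),
    II_cmul, II_cmul, hw1, hw2]
  ring

end JW8a

end Pool.Agent.Helper118.Yud
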