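import Pool.Agent.Helper383.TY.TD
import Pool.Agent.Helper383.TY.WH
import Pool.Agent.Helper118.Yud.E1
import Pool.Agent.Helper118.Yud.E4
import Pool.Agent.Helper118.Yud.E5
import Pool.Agent.Helper118.Yud.E6
import Pool.Agent.Helper383.TY.T2a
import Pool.Agent.Helper383.TY.T3
import Pool.Agent.Helper383.TY.W1
import Pool.Agent.Helper383.TY.W2
import Pool.Agent.Helper383.TY.W3
import Pool.Agent.Helper383.TY.W4
import Pool.Agent.Helper383.TY.W4b
import Pool.Agent.Helper383.TY.W5
import Pool.Agent.Helper383.TY.W6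
import Pool.Agent.Helper383.TY.W7
import Pool.Agent.Helper383.TY.W8a

set_option autoImplicit false

open MeasureTheory Complex Set Filter Topology

namespace Pool.Agent.Helper118.Yud

open JT2a (ek_add ek_sub_arg ek_conj continuous_ek ev_zero ev_add ev_neg ev_smul ev_sum ev_mul continuous_ev ev_bdd mult_add mult_smul mult_sum ev_mult)
open JT3 (conv_ev conv_ev_mp)
open JW1 (trig_dense)
open JW2 (clas_of_trig)
open JW3 (uap_conv)
open JW5 (exists_stream)
open JW6 (vort_weak)
open JW7 (exists_inv continuous_vel vel_eq_conv integral_comp_Y)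
open JW8a (II_add II_cmul key_fixed)

namespace JW8

/-- Lagrangian solutions with continuous vorticity are Yudovich solutions, and the lifted displacements
are their particle paths. -/
theorem yudovich_of_lagr {K : T2 → ℂ} {C : ℝ} (hK : IsBS K C) (ω : T2 → ℝ) (hω : Continuous ω)
    (ξ : ℝ → T2 → ℂ) (hξ : Lagr K ω ξ) :
    ∃ u v w : ℝ → ℝ → ℝ → ℝ, IsYudovichSolution u v w ∧
      Continuous (fun q : ℝ × ℝ × ℝ => w q.1 q.2.1 q.2.2) ∧
      ∀ x0 y0 t : ℝ,
        HasDerivAt (fun s => x0 + (ξ s ((x0 : UnitAddCircle), (y0 : UnitAddCircle))).re)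
          (u t (x0 + (ξ t ((x0 : UnitAddCircle), (y0 : UnitAddCircle))).re)
            (y0 + (ξ t ((x0 : UnitAddCircle), (y0 : UnitAddCircle))).im)) t ∧
        HasDerivAt (fun s => y0 + (ξ s ((x0 : UnitAddCircle), (y0 : UnitAddCircle))).im)
          (v t (x0 + (ξ t ((x0 : UnitAddCircle), (y0 : UnitAddCircle))).re)
            (y0 + (ξ t ((x0 : UnitAddCircle), (y0 : UnitAddCircle))).im)) t := by
  obtain ⟨Y, hYc, hY, hY'⟩ := exists_inv hK ω hω ξ hξ
  have hv := continuous_vel hK ω hω ξ hξ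
  have hKi := IsBS.integrable hK
  have hprob1 : IsProbabilityMeasure (volume : Measure UnitAddCircle) := ⟨UnitAddCircle.measure_univ⟩
  have hprob : IsProbabilityMeasure (volume : Measure T2) := by
    rw [Measure.volume_eq_prod]
    infer_instance
  obtain ⟨M, hM⟩ : ∃ M : ℝ, ∀ x, |ω x| ≤ M := by
    obtain ⟨M, hM⟩ := (isCompact_univ (X := T2)).exists_bound_of_continuousOn hω.continuousOn
    exact ⟨M, fun x => by simpa [Real.norm_eq_abs] using hM x (mem_univ x)⟩
  set m : ℝ := ∫ c, ω c with hm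
  set e : ℝ × ℝ → T2 := fun q => ((q.1 : UnitAddCircle), (q.2 : UnitAddCircle)) with he
  have hec : Continuous e := by
    refine Continuous.prodMk ?_ ?_
    · exact (AddCircle.continuous_mk' 1).comp continuous_fst
    · exact (AddCircle.continuous_mk' 1).comp continuous_snd
  let u : ℝ → ℝ → ℝ → ℝ := fun t x y => (vel K ω (ξ t) (e (x, y))).re
  let v : ℝ → ℝ → ℝ → ℝ := fun t x y => (vel K ω (ξ t) (e (x, y))).im
  let w : ℝ → ℝ → ℝ → ℝ := fun t x y => ω (Y t (e (x, y))) - m
  have hper : ∀ x y : ℝ, e (x + 1, y) = e (x, y) ∧ e (x, y + 1) = e (x, y) := by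
    intro x y
    simp only [he]
    refine ⟨?_, ?_⟩
    · rw [AddCircle.coe_add_period]
    · rw [AddCircle.coe_add_period]
  have huap : ∀ t, UAp (u t) (v t) (w t) := by
    intro t
    have hg : Continuous (fun b => ω (Y t b) - m) := by
      have : Continuous (fun b => Y t b) := hYc.comp (Continuous.prodMk continuous_const continuous_id)
      exact (hω.comp this).sub continuous_const
    have h0 : ∫ b, (ω (Y t b) - m) = 0 := by
      have h1 := integral_comp_Y hK ω hω ξ hξ Y hYc hY hY' t (fun _ => (1:ℝ)) continuous_const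
      simp only [mul_one] at h1
      rw [← h1, integral_sub]
      · rw [integral_const, probReal_univ, one_smul, sub_self]
      · exact hω.integrable_of_hasCompactSupport (HasCompactSupport.of_compactSpace _)
      · exact integrable_const _
    have h2 := uap_conv hK hKi (fun b => ω (Y t b) - m) hg h0
    have h3 : ∀ x y : ℝ, (∫ b, ((ω (Y t b) - m : ℝ) : ℂ) * K (((x : UnitAddCircle), (y : UnitAddCircle)) - b))
        = vel K ω (ξ t) (e (x, y)) := fun x y =>
      (vel_eq_conv hK ω hω ξ hξ Y hYc hY hY' t (e (x, y))).symm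
    simp only [h3] at h2
    exact h2
  have hwc : Continuous (fun q : ℝ × ℝ × ℝ => w q.1 q.2.1 q.2.2) := by
    have h1 : Continuous (fun q : ℝ × ℝ × ℝ => Function.uncurry Y (q.1, e (q.2.1, q.2.2))) :=
      hYc.comp (continuous_fst.prodMk (hec.comp continuous_snd))
    exact (hω.comp h1).sub continuous_const
  have hvc : Continuous (fun q : ℝ × ℝ × ℝ => vel K ω (ξ q.1) (e (q.2.1, q.2.2))) :=
    hv.comp (continuous_fst.prodMk (hec.comp continuous_snd))
  have huc : Continuous (fun q : ℝ × ℝ × ℝ => u q.1 q.2.1 q.2.2) := Complex.continuous_re.comp hvc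
  have hvvc : Continuous (fun q : ℝ × ℝ × ℝ => v q.1 q.2.1 q.2.2) := Complex.continuous_im.comp hvc
  have hPath : ∀ x0 y0 t : ℝ,
        HasDerivAt (fun s => x0 + (ξ s ((x0 : UnitAddCircle), (y0 : UnitAddCircle))).re)
          (u t (x0 + (ξ t ((x0 : UnitAddCircle), (y0 : UnitAddCircle))).re)
            (y0 + (ξ t ((x0 : UnitAddCircle), (y0 : UnitAddCircle))).im)) t ∧
        HasDerivAt (fun s => y0 + (ξ s ((x0 : UnitAddCircle), (y0 : UnitAddCircle))).im)
          (v t (x0 + (ξ t ((x0 : UnitAddCircle), (y0 : UnitAddCircle))).re)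
            (y0 + (ξ t ((x0 : UnitAddCircle), (y0 : UnitAddCircle))).im)) t := by
    intro x0 y0 t
    set a : T2 := ((x0 : UnitAddCircle), (y0 : UnitAddCircle)) with ha
    have h1 := Lagr.hasDerivAt hK ω hω.measurable M hM ξ hξ t a
    have h2 : e (x0 + (ξ t a).re, y0 + (ξ t a).im) = mv (ξ t) a := by
      simp only [he, mv, pr, ha, AddCircle.coe_add]
      rfl
    have h3 : u t (x0 + (ξ t a).re) (y0 + (ξ t a).im) = (vel K ω (ξ t) (mv (ξ t) a)).re := by
      simp only [u, h2]
    have h4 : v t (x0 + (ξ t a).re) (y0 + (ξ t a).im) = (vel K ω (ξ t) (mv (ξ t) a)).im := by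
      simp only [v, h2]
    rw [h3, h4]
    constructor
    · have h5 := (Complex.reCLM.hasFDerivAt.comp_hasDerivAt t h1)
      exact h5.const_add x0
    · have h5 := (Complex.imCLM.hasFDerivAt.comp_hasDerivAt t h1)
      exact h5.const_add y0
  refine ⟨u, v, w, ?_, hwc, hPath⟩
  refine ⟨?_, huc, hvvc, hwc.measurable, ?_, ?_, ?_, ?_⟩
  · exact fun t => ⟨(huap t).peru, (huap t).perv, (huap t).perw⟩
  · refine ⟨M + |m|, fun t x y => ?_⟩
    calc |ω (Y t (e (x, y))) - m| ≤ |ω (Y t (e (x, y)))| + |m| := abs_sub _ _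
      _ ≤ M + |m| := by linarith [hM (Y t (e (x, y)))]
  · intro t ψ hψ hper
    exact (huap t).dv ψ hper (hψ.of_le (by exact_mod_cast le_top))
  · intro t ψ hψ hper
    exact (huap t).cl ψ hper (hψ.of_le (by exact_mod_cast le_top))
  · intro φ₁ φ₂ c1 c2 hp hs hd
    obtain ⟨ψ, m₁, m₂, hψ, hψp, hψs, hx, hy, ht, htx, hty⟩ := exists_stream φ₁ φ₂ c1 c2 hp hs hd
    have hvw := vort_weak hK ω hω ξ hξ Y hYc hY hY' hv ψ hψ hψp hψs
    have key : ∀ t, (∫ x in (0:ℝ)..1, ∫ y in (0:ℝ)..1,
      (u t x y * deriv (fun s => φ₁ s x y) t + v t x y * deriv (fun s => φ₂ s x y) t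
        + u t x y * u t x y * deriv (fun s => φ₁ t s y) x
        + u t x y * v t x y * (deriv (fun s => φ₁ t x s) y + deriv (fun s => φ₂ t s y) x)
        + v t x y * v t x y * deriv (fun s => φ₂ t x s) y)) =
      - ∫ x in (0:ℝ)..1, ∫ y in (0:ℝ)..1, w t x y * (deriv (fun s => ψ s x y) t
        + u t x y * deriv (fun s => ψ t s y) x + v t x y * deriv (fun s => ψ t x s) y) := by
      intro t
      have cφ1 : Continuous (fun q : ℝ × ℝ => φ₁ t q.1 q.2) :=
        c1.continuous.comp (continuous_const.prodMk continuous_id)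
      have cφ2 : Continuous (fun q : ℝ × ℝ => φ₂ t q.1 q.2) :=
        c2.continuous.comp (continuous_const.prodMk continuous_id)
      have d1 : ContDiff ℝ 1 (fun q : ℝ × ℝ => φ₁ t q.1 q.2) :=
        (c1.comp (contDiff_const.prodMk contDiff_id)).of_le (by exact_mod_cast le_top)
      have d2 : ContDiff ℝ 1 (fun q : ℝ × ℝ => φ₂ t q.1 q.2) :=
        (c2.comp (contDiff_const.prodMk contDiff_id)).of_le (by exact_mod_cast le_top)
      have hmom := (huap t).mom (φ₁ t) (φ₂ t) (hp t).1 (hp t).2 d1 d2 (hd t)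
      have hPper : Per (fun x y => deriv (fun s => ψ s x y) t) := by
        intro x y
        have e1 : (fun s => ψ s (x + 1) y) = fun s => ψ s x y := funext fun s => (hψp s x y).1
        have e2 : (fun s => ψ s x (y + 1)) = fun s => ψ s x y := funext fun s => (hψp s x y).2
        simp only [e1, e2]
        exact ⟨trivial, trivial⟩
      have dt : ∀ F : ℝ → ℝ → ℝ → ℝ, ContDiff ℝ (⊤ : ℕ∞) (fun q : ℝ × ℝ × ℝ => F q.1 q.2.1 q.2.2) →
          Continuous (fun q : ℝ × ℝ => deriv (fun s => F s q.1 q.2) t) := by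
        intro F hF
        have e1 : ∀ q : ℝ × ℝ, deriv (fun s => F s q.1 q.2) t =
            fderiv ℝ (fun q : ℝ × ℝ × ℝ => F q.1 q.2.1 q.2.2) (t, q) (1, 0) := by
          intro q
          have g1 : HasDerivAt (fun s : ℝ => (s, q)) ((1 : ℝ), (0 : ℝ × ℝ)) t :=
            (hasDerivAt_id t).prodMk (hasDerivAt_const t q)
          have g2 := ((hF.differentiable (by simp)) (t, q)).hasFDerivAt.comp_hasDerivAt t g1
          exact g2.deriv
        simp only [e1]
        exact ((hF.continuous_fderiv (by simp)).comp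
          (continuous_const.prodMk continuous_id)).clm_apply continuous_const
      exact key_fixed (huap t) (φ₁ t) (φ₂ t) (fun x y => deriv (fun s => φ₁ s x y) t)
        (fun x y => deriv (fun s => φ₂ s x y) t) (fun x y => deriv (fun s => ψ s x y) t)
        (fun x y => deriv (fun s => ψ t s y) x) (fun x y => deriv (fun s => ψ t x s) y)
        (hp t).1 (hp t).2 d1 d2 (hd t) hPper (ht t) (m₁ t) (m₂ t) (deriv m₁ t) (deriv m₂ t)
        (dt φ₁ c1) (dt φ₂ c2) (htx t) (hty t) (hx t) (hy t)
    simp only [key]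
    rw [integral_neg, neg_eq_zero]
    exact hvw

end JW8

end Pool.Agent.Helper118.Yud
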