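import Mathlib

set_option autoImplicit false

namespace Pool.Agent.Helper118.Yud

open MeasureTheory Complex Set Filter Topology

/-! ### Yudovich solutions on the flat torus, written for `ℤ²`-periodic functions on `ℝ²` -/

/-- `ℤ²`-periodic functions -/
def Per (f : ℝ → ℝ → ℝ) : Prop := ∀ x y, f (x + 1) y = f x y ∧ f x (y + 1) = f x y

/-- A global (two sided in time) Yudovich solution of the incompressible Euler equations on the flat
torus `ℝ²/ℤ²`: velocity `(u, v)`, vorticity `w`, as `ℤ²`-periodic functions of `(x, y)`.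
The velocity is continuous, the vorticity is bounded and measurable, `div (u, v) = 0` and
`curl (u, v) = w` weakly at each time, and the momentum equation
`∂ₜ(u,v) + ((u,v)·∇)(u,v) = -∇p` holds weakly: it is tested with all smooth divergence free periodic
vector fields `(φ₁, φ₂)` with compact support in time. -/
structure IsYudovichSolution (u v w : ℝ → ℝ → ℝ → ℝ) : Prop where
  periodic : ∀ t, Per (u t) ∧ Per (v t) ∧ Per (w t)
  continuous_u : Continuous (fun q : ℝ × ℝ × ℝ => u q.1 q.2.1 q.2.2)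
  continuous_v : Continuous (fun q : ℝ × ℝ × ℝ => v q.1 q.2.1 q.2.2)
  measurable_w : Measurable (fun q : ℝ × ℝ × ℝ => w q.1 q.2.1 q.2.2)
  bounded_w : ∃ M : ℝ, ∀ t x y, |w t x y| ≤ M
  div_eq_zero : ∀ t, ∀ ψ : ℝ → ℝ → ℝ, ContDiff ℝ (⊤ : ℕ∞) (fun q : ℝ × ℝ => ψ q.1 q.2) → Per ψ →
    ∫ x in (0:ℝ)..1, ∫ y in (0:ℝ)..1,
      (u t x y * deriv (fun s => ψ s y) x + v t x y * deriv (fun s => ψ x s) y) = 0
  curl_eq : ∀ t, ∀ ψ : ℝ → ℝ → ℝ, ContDiff ℝ (⊤ : ℕ∞) (fun q : ℝ × ℝ => ψ q.1 q.2) → Per ψ →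
    ∫ x in (0:ℝ)..1, ∫ y in (0:ℝ)..1,
      (v t x y * deriv (fun s => ψ s y) x - u t x y * deriv (fun s => ψ x s) y) =
    - ∫ x in (0:ℝ)..1, ∫ y in (0:ℝ)..1, w t x y * ψ x y
  momentum : ∀ φ₁ φ₂ : ℝ → ℝ → ℝ → ℝ,
    ContDiff ℝ (⊤ : ℕ∞) (fun q : ℝ × ℝ × ℝ => φ₁ q.1 q.2.1 q.2.2) →
    ContDiff ℝ (⊤ : ℕ∞) (fun q : ℝ × ℝ × ℝ => φ₂ q.1 q.2.1 q.2.2) →
    (∀ t, Per (φ₁ t) ∧ Per (φ₂ t)) →
    (∃ R : ℝ, ∀ t, R ≤ |t| → ∀ x y, φ₁ t x y = 0 ∧ φ₂ t x y = 0) →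
    (∀ t x y, deriv (fun s => φ₁ t s y) x + deriv (fun s => φ₂ t x s) y = 0) →
    ∫ t : ℝ, ∫ x in (0:ℝ)..1, ∫ y in (0:ℝ)..1,
      (u t x y * deriv (fun s => φ₁ s x y) t + v t x y * deriv (fun s => φ₂ s x y) t
        + u t x y * u t x y * deriv (fun s => φ₁ t s y) x
        + u t x y * v t x y * (deriv (fun s => φ₁ t x s) y + deriv (fun s => φ₂ t s y) x)
        + v t x y * v t x y * deriv (fun s => φ₂ t x s) y) = 0

end Pool.Agent.Helper118.Yud
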